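import Pool.Agent.H45.DY.Sgn

/-! JOB DY-08 (uses the stubs of `Sgn.lean`).  Lagrangian change of variables on an arc, for arbitrary (not nec.
continuous) integrands.

PROOF of `ch_arc`: `MeasureTheory.integral_image_eq_integral_abs_deriv_smul` for the injective
differentiable map `X t` on the measurable set `Ioo p q`; the image is `Ioo (X t p) (X t q)`
(strictly increasing, continuous, onto), derivative `exp(lam) > 0`.
`ch_We`: an integral over `(0,2π)` of a function of `x` is split at `el`, then substitute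
`y = X t e + x`, `y ∈ (X t e, X t c)` resp. `(X t c, X t (e + 2π))`, and `ch_arc`. The splitting
needs integrability of `f` on `(0,2π)`, or: it is assumed as a hypothesis. -/

set_option autoImplicit false
open Real Set MeasureTheory

namespace Pool.Agent.H45.DY
open Pool.Agent.H45.FL Pool.Agent.H51.DG

variable {w u : ℝ × ℝ → ℝ} {X : ℝ → ℝ → ℝ} {e c T : ℝ}

/-- image of an open label interval under the shifted flow map -/
lemma charc_image (h : CSol w u) (hX : Flow u X) (t p q d : ℝ) :
    (fun α => X t α + d) '' Ioo p q = Ioo (X t p + d) (X t q + d) := by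
  ext y
  constructor
  · rintro ⟨α, hα, rfl⟩
    have h1 := Flow.mono h.vel hX t hα.1
    have h2 := Flow.mono h.vel hX t hα.2
    constructor
    · show X t p + d < X t α + d
      linarith
    · show X t α + d < X t q + d
      linarith
  · rintro ⟨h1, h2⟩
    obtain ⟨α, hα⟩ := Flow.surj h.vel hX t (y - d)
    refine ⟨α, ⟨?_, ?_⟩, ?_⟩
    · exact (Flow.mono h.vel hX t).lt_iff_lt.1 (by linarith)
    · exact (Flow.mono h.vel hX t).lt_iff_lt.1 (by linarith)
    · show X t α + d = y
      linarith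

lemma charc_deriv (h : CSol w u) (hX : Flow u X) (t : ℝ) (ht : 0 ≤ t) (p q d : ℝ) :
    ∀ α ∈ Ioo p q, HasDerivWithinAt (fun α => X t α + d) (Real.exp (lam u X t α)) (Ioo p q) α :=
  fun α _ => ((Flow.hasDerivAt_label h.vel hX t α ht).add_const d).hasDerivWithinAt

lemma charc_inj (h : CSol w u) (hX : Flow u X) (t p q d : ℝ) :
    InjOn (fun α => X t α + d) (Ioo p q) := by
  intro a _ b _ hab
  have h1 : X t a + d = X t b + d := hab
  exact (Flow.mono h.vel hX t).injective (by linarith)

lemma charc_gen (h : CSol w u) (hX : Flow u X) (t : ℝ) (ht : 0 ≤ t) (p q d : ℝ) (f : ℝ → ℝ) :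
    ∫ y in Ioo (X t p + d) (X t q + d), f y =
      ∫ α in Ioo p q, f (X t α + d) * Real.exp (lam u X t α) := by
  rw [← charc_image h hX t p q d,
    MeasureTheory.integral_image_eq_integral_abs_deriv_smul measurableSet_Ioo
      (charc_deriv h hX t ht p q d) (charc_inj h hX t p q d)]
  refine integral_congr_ae (Filter.Eventually.of_forall fun α => ?_)
  show |Real.exp (lam u X t α)| • f (X t α + d) = f (X t α + d) * Real.exp (lam u X t α)
  rw [abs_of_pos (Real.exp_pos _), smul_eq_mul, mul_comm]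

lemma charc_gen_int (h : CSol w u) (hX : Flow u X) (t : ℝ) (ht : 0 ≤ t) (p q d : ℝ)
    (f : ℝ → ℝ) :
    IntegrableOn f (Ioo (X t p + d) (X t q + d)) ↔
      IntegrableOn (fun α => f (X t α + d) * Real.exp (lam u X t α)) (Ioo p q) := by
  rw [← charc_image h hX t p q d,
    MeasureTheory.integrableOn_image_iff_integrableOn_abs_deriv_smul measurableSet_Ioo
      (charc_deriv h hX t ht p q d) (charc_inj h hX t p q d)]
  have h1 : (fun α => |Real.exp (lam u X t α)| • f (X t α + d)) =
      fun α => f (X t α + d) * Real.exp (lam u X t α) := by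
    funext α
    rw [abs_of_pos (Real.exp_pos _), smul_eq_mul, mul_comm]
  rw [h1]

/-- gluing of two open intervals -/
lemma charc_glue (f : ℝ → ℝ) (a b : ℝ) (h0 : 0 ≤ a) (hab : a ≤ b)
    (h1 : IntegrableOn f (Ioo 0 a)) (h2 : IntegrableOn f (Ioo a b)) :
    IntervalIntegrable f volume 0 b ∧
    ∫ x in (0:ℝ)..b, f x = (∫ x in Ioo 0 a, f x) + ∫ x in Ioo a b, f x := by
  have i1 : IntervalIntegrable f volume 0 a :=
    (intervalIntegrable_iff_integrableOn_Ioo_of_le h0).2 h1
  have i2 : IntervalIntegrable f volume a b :=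
    (intervalIntegrable_iff_integrableOn_Ioo_of_le hab).2 h2
  refine ⟨i1.trans i2, ?_⟩
  rw [← intervalIntegral.integral_add_adjacent_intervals i1 i2,
    intervalIntegral.integral_of_le h0, intervalIntegral.integral_of_le hab,
    integral_Ioc_eq_integral_Ioo, integral_Ioc_eq_integral_Ioo]

theorem ch_arc (h : CSol w u) (hX : Flow u X) (t : ℝ) (ht : 0 ≤ t) (p q : ℝ) (f : ℝ → ℝ) :
    ∫ y in Ioo (X t p) (X t q), f y = ∫ α in Ioo p q, f (X t α) * Real.exp (lam u X t α) := by
  have h1 := charc_gen h hX t ht p q 0 f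
  simpa only [add_zero] using h1

theorem ch_arc_int (h : CSol w u) (hX : Flow u X) (t : ℝ) (ht : 0 ≤ t) (p q : ℝ) (f : ℝ → ℝ) :
    IntegrableOn f (Ioo (X t p) (X t q)) ↔
      IntegrableOn (fun α => f (X t α) * Real.exp (lam u X t α)) (Ioo p q) := by
  have h1 := charc_gen_int h hX t ht p q 0 f
  simpa only [add_zero] using h1

/-- base `e` -/
theorem ch_We (h : Dyn w u X e c T) (t : ℝ) (ht : 0 ≤ t) (f : ℝ → ℝ)
    (hR : IntegrableOn (fun α => f (X t α - X t e) * Real.exp (lam u X t α)) (Ioo e c))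
    (hL : IntegrableOn (fun α => f (X t α - X t e) * Real.exp (lam u X t α))
      (Ioo c (e + 2 * π))) :
    IntervalIntegrable f volume 0 (2 * π) ∧
    ∫ x in (0:ℝ)..(2 * π), f x = (∫ α in Ioo e c, f (X t α - X t e) * Real.exp (lam u X t α)) +
      ∫ α in Ioo c (e + 2 * π), f (X t α - X t e) * Real.exp (lam u X t α) := by
  have e1 : X t e + -X t e = 0 := by ring
  have e2 : X t (e + 2 * π) + -X t e = 2 * π := by
    rw [Flow.per h.cs.vel h.fl t e]; ring
  have g1 := charc_gen h.cs h.fl t ht e c (-X t e) f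
  have g2 := charc_gen h.cs h.fl t ht c (e + 2 * π) (-X t e) f
  have j1 := charc_gen_int h.cs h.fl t ht e c (-X t e) f
  have j2 := charc_gen_int h.cs h.fl t ht c (e + 2 * π) (-X t e) f
  rw [e1] at g1 j1
  rw [e2] at g2 j2
  simp only [← sub_eq_add_neg] at g1 g2 j1 j2
  rw [← g1, ← g2]
  have hel : X t c - X t e = el X e c t := rfl
  have h1 : 0 ≤ X t c - X t e := (hel ▸ h.el_pos t).le
  have h2 : X t c - X t e ≤ 2 * π := (hel ▸ h.el_lt t).le
  exact charc_glue f _ _ h1 h2 (j1.2 hR) (j2.2 hL)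

/-- base `c`: `x ∈ (0, 2π - el)` are the labels of the arc L, `x ∈ (2π - el, 2π)` those of R
(`x = X t α - X t c + 2π`) -/
theorem ch_Wc (h : Dyn w u X e c T) (t : ℝ) (ht : 0 ≤ t) (f : ℝ → ℝ)
    (hL : IntegrableOn (fun α => f (X t α - X t c) * Real.exp (lam u X t α))
      (Ioo c (e + 2 * π)))
    (hR : IntegrableOn (fun α => f (X t α - X t c + 2 * π) * Real.exp (lam u X t α)) (Ioo e c)) :
    IntervalIntegrable f volume 0 (2 * π) ∧
    ∫ x in (0:ℝ)..(2 * π), f x =
      (∫ α in Ioo c (e + 2 * π), f (X t α - X t c) * Real.exp (lam u X t α)) +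
      ∫ α in Ioo e c, f (X t α - X t c + 2 * π) * Real.exp (lam u X t α) := by
  have e1 : X t c + -X t c = 0 := by ring
  have e2 : X t (e + 2 * π) + -X t c = 2 * π - el X e c t := by
    rw [Flow.per h.cs.vel h.fl t e]; unfold el; ring
  have e3 : X t e + (-X t c + 2 * π) = 2 * π - el X e c t := by
    unfold el; ring
  have e4 : X t c + (-X t c + 2 * π) = 2 * π := by ring
  have g1 := charc_gen h.cs h.fl t ht c (e + 2 * π) (-X t c) f
  have g2 := charc_gen h.cs h.fl t ht e c (-X t c + 2 * π) f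
  have j1 := charc_gen_int h.cs h.fl t ht c (e + 2 * π) (-X t c) f
  have j2 := charc_gen_int h.cs h.fl t ht e c (-X t c + 2 * π) f
  rw [e1, e2] at g1 j1
  rw [e3, e4] at g2 j2
  have r1 : ∀ α, X t α + (-X t c + 2 * π) = X t α - X t c + 2 * π := fun α => by ring
  simp only [← sub_eq_add_neg] at g1 j1
  simp only [r1] at g2 j2
  rw [← g1, ← g2]
  have h1 : 0 ≤ 2 * π - el X e c t := by linarith [h.el_lt t]
  have h2 : 2 * π - el X e c t ≤ 2 * π := by linarith [h.el_pos t]
  exact charc_glue f _ _ h1 h2 (j1.2 hL) (j2.2 hR)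

end Pool.Agent.H45.DY
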