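import Pool.Agent.H45.DY.Sgn
import Pool.Agent.H51.DG.SA

/-! JOB DY-09 (uses the stubs of `Sgn.lean`; `hasDerivAt_UU`, `continuous_HT` from `Pool/Agent/H51/DG/SA.lean` may be imported).
Hilbert transforms along the solution, `t ∈ [0,T]`.

* `HT_We`: `HT (We w X e t) x = px u (t, X t e + x)`: the definition of `HT` is translation
  invariant (`(X t e + x) - s = X t e + (x - s)`), `h.hu`.
* `UU_We`: `UU (We ..) x = ∫_0^x px u (t, X t e + y) dy = u (t, X t e + x) - u (t, X t e)`
  (fundamental theorem).  Same for `Wc` with the opposite sign (`HT (-f) = - HT f`).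
* `pxx`: `px (px u) (t,x) = HT (fun y => px w (t,y)) x`: differentiate
  `px u (t,x) = (1/2π) ∫_0^π (w(t,x-s) - w(t,x+s)) cot(s/2) ds` under the integral
  (`intervalIntegral.hasDerivAt_integral_of_dominated_loc_of_deriv_le`; the derivative
  `(w_x(t,x-s) - w_x(t,x+s)) cot(s/2)` is bounded by `2 s K · 2/s`, `K ≥ |w_xx|`; the integrand
  itself by `2 s K' · 2/s`; `cot(s/2) ≤ 2/s` on `(0,π]`, lemma `cot_le` in `SA.lean`).
* `deriv_We`: `deriv (We w X e t) x = px w (t, X t e + x)`. -/

set_option autoImplicit false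
open Real Set MeasureTheory

namespace Pool.Agent.H45.DY
open Pool.Agent.H45.FL Pool.Agent.H51.DG

variable {w u : ℝ × ℝ → ℝ} {X : ℝ → ℝ → ℝ} {e c T : ℝ}

lemma HTd_shift (f : ℝ → ℝ) (a x : ℝ) : HT (fun y => f (a + y)) x = HT f (a + x) := by
  unfold HT
  congr 1
  refine intervalIntegral.integral_congr fun s _ => ?_
  show (f (a + (x - s)) - f (a + (x + s))) * _ = (f (a + x - s) - f (a + x + s)) * _
  rw [add_sub_assoc, add_assoc]

lemma HTd_neg (f : ℝ → ℝ) (x : ℝ) : HT (fun y => -f y) x = -HT f x := by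
  unfold HT
  have h1 : (∫ s in (0:ℝ)..π, (-f (x - s) - -f (x + s)) * (Real.cos (s / 2) / Real.sin (s / 2))) =
      -∫ s in (0:ℝ)..π, (f (x - s) - f (x + s)) * (Real.cos (s / 2) / Real.sin (s / 2)) := by
    rw [← intervalIntegral.integral_neg]
    refine intervalIntegral.integral_congr fun s _ => ?_
    show (-f (x - s) - -f (x + s)) * _ = -((f (x - s) - f (x + s)) * _)
    ring
  rw [h1, mul_neg]

/-- a periodic `C^1` function is Lipschitz -/
lemma HTd_lip {f f' : ℝ → ℝ} (hf : ∀ x, HasDerivAt f (f' x) x) (hc : Continuous f')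
    (hp : Function.Periodic f' (2 * π)) : ∃ K, Lip K f := by
  have h1 : Bornology.IsBounded (range f') :=
    hp.isBounded_of_continuous (by positivity) hc
  obtain ⟨K, hK⟩ := h1.exists_norm_le
  refine ⟨K, fun x y => ?_⟩
  have key := Convex.norm_image_sub_le_of_norm_hasDerivWithin_le (f := f) (f' := f') (s := univ)
    (C := K) (x := y) (y := x) (fun z _ => (hf z).hasDerivWithinAt)
    (fun z _ => hK _ (mem_range_self z)) convex_univ (mem_univ _) (mem_univ _)
  exact key

lemma HTd_meas {f : ℝ → ℝ} {K : ℝ} (h : Lip K f) (x : ℝ) : AEStronglyMeasurable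
    (fun s => (f (x - s) - f (x + s)) * (Real.cos (s / 2) / Real.sin (s / 2)))
    (volume.restrict (uIoc 0 π)) := by
  have h1 := intervalIntegrable_iff.1 (HT_integrable h x)
  exact h1.aestronglyMeasurable

/-- the Hilbert transform is differentiable -/
lemma HTd_der {f f' : ℝ → ℝ} {K K' : ℝ} (hf : ∀ x, HasDerivAt f (f' x) x) (h1 : Lip K f)
    (h2 : Lip K' f') (x : ℝ) : HasDerivAt (HT f) (HT f' x) x := by
  have key := intervalIntegral.hasDerivAt_integral_of_dominated_loc_of_deriv_le (μ := volume)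
    (a := 0) (b := π)
    (F := fun y s => (f (y - s) - f (y + s)) * (Real.cos (s / 2) / Real.sin (s / 2)))
    (F' := fun y s => (f' (y - s) - f' (y + s)) * (Real.cos (s / 2) / Real.sin (s / 2)))
    (x₀ := x) (s := univ) (bound := fun _ => 4 * K') Filter.univ_mem
    (Filter.Eventually.of_forall fun y => (HTd_meas h1 y))
    (HT_integrable h1 x) (HTd_meas h2 x)
    (Filter.Eventually.of_forall fun s hs y _ => by
      rw [uIoc_of_le Real.pi_pos.le] at hs
      rw [Real.norm_eq_abs]
      exact HT_integrand_bound h2 y hs.1 hs.2)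
    intervalIntegrable_const
    (Filter.Eventually.of_forall fun s _ y _ => by
      have e1 : HasDerivAt (fun y : ℝ => y - s) 1 y := by
        simpa using (hasDerivAt_id y).sub_const s
      have e2 : HasDerivAt (fun y : ℝ => y + s) 1 y := by
        simpa using (hasDerivAt_id y).add_const s
      have e3 := (hf (y - s)).comp y e1
      have e4 := (hf (y + s)).comp y e2
      rw [mul_one] at e3 e4
      exact (e3.sub e4).mul_const (Real.cos (s / 2) / Real.sin (s / 2)))
  exact key.2.const_mul (1 / (2 * π))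

lemma HT_We (h : Dyn w u X e c T) (t : ℝ) (ht : t ∈ Icc 0 T) (x : ℝ) :
    HT (We w X e t) x = px u (t, X t e + x) := by
  rw [h.hu t ht]
  exact HTd_shift (fun y => w (t, y)) (X t e) x

lemma HT_Wc (h : Dyn w u X e c T) (t : ℝ) (ht : t ∈ Icc 0 T) (x : ℝ) :
    HT (Wc w X c t) x = -px u (t, X t c + x) := by
  rw [h.hu t ht, ← HTd_shift (fun y => w (t, y)) (X t c) x]
  exact HTd_neg (fun y => w (t, X t c + y)) x

lemma HTd_ftc (h : Dyn w u X e c T) (t a x : ℝ) :
    ∫ y in (0:ℝ)..x, px u (t, a + y) = u (t, a + x) - u (t, a) := by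
  have hsm := h.cs.vel.sm
  have h1 : ∀ y, HasDerivAt (fun y => u (t, a + y)) (px u (t, a + y)) y := by
    intro y
    have e1 : HasDerivAt (fun y : ℝ => a + y) 1 y := by
      simpa using (hasDerivAt_id y).const_add a
    have e2 := (hasDerivAt_px u hsm t (a + y)).comp y e1
    simpa only [Function.comp_def, mul_one] using e2
  have hc : Continuous (fun y => px u (t, a + y)) :=
    (smooth_px u hsm).continuous.comp (continuous_const.prodMk (continuous_const.add continuous_id))
  rw [intervalIntegral.integral_eq_sub_of_hasDerivAt (fun y _ => h1 y)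
    (hc.intervalIntegrable _ _), add_zero]

lemma UU_We (h : Dyn w u X e c T) (t : ℝ) (ht : t ∈ Icc 0 T) (x : ℝ) :
    UU (We w X e t) x = u (t, X t e + x) - u (t, X t e) := by
  unfold UU
  rw [intervalIntegral.integral_congr (fun y _ => HT_We h t ht y), HTd_ftc h]

lemma UU_Wc (h : Dyn w u X e c T) (t : ℝ) (ht : t ∈ Icc 0 T) (x : ℝ) :
    UU (Wc w X c t) x = -(u (t, X t c + x) - u (t, X t c)) := by
  unfold UU
  rw [intervalIntegral.integral_congr (fun y _ => HT_Wc h t ht y), intervalIntegral.integral_neg,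
    HTd_ftc h]

lemma HTd_per {w : ℝ × ℝ → ℝ} (hper : ∀ t x : ℝ, w (t, x + 2 * π) = w (t, x)) (t x : ℝ) :
    px w (t, x + 2 * π) = px w (t, x) := by
  have h1 : (fun y => w (t, y)) = fun y => w (t, y + 2 * π) := funext fun y => (hper t y).symm
  have h2 : deriv (fun y => w (t, y + 2 * π)) x = deriv (fun y => w (t, y)) (x + 2 * π) :=
    deriv_comp_add_const (f := fun y => w (t, y)) (2 * π) x
  show deriv (fun y => w (t, y)) (x + 2 * π) = deriv (fun y => w (t, y)) x
  rw [← h2, ← h1]

lemma pxx (h : Dyn w u X e c T) (t : ℝ) (ht : t ∈ Icc 0 T) (x : ℝ) :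
    px (px u) (t, x) = HT (fun y => px w (t, y)) x := by
  have hs := h.cs.sm
  have hs1 := smooth_px w hs
  have hs2 := smooth_px (px w) hs1
  have hp1 := HTd_per h.cs.per
  have hp2 := HTd_per hp1
  have hc : ∀ {v : ℝ × ℝ → ℝ}, ContDiff ℝ ((⊤ : ℕ∞) : WithTop ℕ∞) v →
      Continuous (fun y : ℝ => v (t, y)) := fun hv =>
    hv.continuous.comp (continuous_const.prodMk continuous_id)
  obtain ⟨K, hK⟩ := HTd_lip (f := fun y => w (t, y)) (f' := fun y => px w (t, y))
    (fun y => hasDerivAt_px w hs t y) (hc hs1) (fun y => hp1 t y)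
  obtain ⟨K', hK'⟩ := HTd_lip (f := fun y => px w (t, y)) (f' := fun y => px (px w) (t, y))
    (fun y => hasDerivAt_px (px w) hs1 t y) (hc hs2) (fun y => hp2 t y)
  have key := HTd_der (f := fun y => w (t, y)) (f' := fun y => px w (t, y))
    (fun y => hasDerivAt_px w hs t y) hK hK' x
  have e1 : (fun y => px u (t, y)) = HT (fun y => w (t, y)) := funext fun y => h.hu t ht y
  show deriv (fun y => px u (t, y)) x = _
  rw [e1]
  exact key.deriv

lemma deriv_We (h : Dyn w u X e c T) (t x : ℝ) :
    deriv (We w X e t) x = px w (t, X t e + x) :=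
  deriv_comp_const_add (f := fun y => w (t, y)) (X t e) x

lemma deriv_Wc (h : Dyn w u X e c T) (t x : ℝ) :
    deriv (Wc w X c t) x = -px w (t, X t c + x) := by
  have h1 : deriv (fun x => w (t, X t c + x)) x = px w (t, X t c + x) :=
    deriv_comp_const_add (f := fun y => w (t, y)) (X t c) x
  have h2 : deriv (fun x => -w (t, X t c + x)) x = -deriv (fun x => w (t, X t c + x)) x :=
    deriv.fun_neg
  show deriv (fun x => -w (t, X t c + x)) x = _
  rw [h2, h1]

lemma HT_deriv_Wc (h : Dyn w u X e c T) (t : ℝ) (ht : t ∈ Icc 0 T) (x : ℝ) :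
    HT (deriv (Wc w X c t)) x = -px (px u) (t, X t c + x) := by
  rw [pxx h t ht, ← HTd_shift (fun y => px w (t, y)) (X t c) x,
    ← HTd_neg (fun y => px w (t, X t c + y)) x]
  have h1 : deriv (Wc w X c t) = fun y => -px w (t, X t c + y) := funext fun y => deriv_Wc h t y
  rw [h1]

end Pool.Agent.H45.DY
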