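import Pool.Agent.H45.DY.EIder
import Pool.Agent.H45.DY.ChArc
import Pool.Agent.H45.DY.HTd

/-! JOB DY-11 (uses the stubs of `EIder.lean`, `ChArc.lean`, `HTd.lean`).  `E2` in Lagrangian form.

PROOF: `ch_Wc` with `f x = sg l' x * deriv Wc x * HT (deriv Wc) x`, `l' = 2π - el`.  L labels
(`x < l'`, `sg = -1`): `deriv Wc x = -px w (t,X t α)`, `HT (deriv Wc) x = -px (px u) (t,X t α)`,
`px w (t,X t α) = px w (0,α) + w (0,α) lma` (`wx_along`), so
`f x exp(lam) = -(px w(0,α) + w(0,α) lma) (px (px u) (t,X t α) exp(lam))`; R labels (`x ≥ l'`,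
`sg = 1`, `x = X t α - X t c + 2π`, periodicity): the same with the sign `+`.
`E2 = -2 ∫ f = ED c (e+2π) - ED e c`.  Integrability: bounded continuous integrands on the
bounded intervals (`lma_cont`, `lam_cont`, `Flow.cont`). -/

set_option autoImplicit false
open Real Set MeasureTheory

namespace Pool.Agent.H45.DY
open Pool.Agent.H45.FL Pool.Agent.H51.DG

variable {w u : ℝ × ℝ → ℝ} {X : ℝ → ℝ → ℝ} {e c T : ℝ}

/-- the common integrand -/
noncomputable def EEidG (w u : ℝ × ℝ → ℝ) (X : ℝ → ℝ → ℝ) (t α : ℝ) : ℝ :=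
  px w (t, X t α) * (px (px u) (t, X t α) * Real.exp (lam u X t α))

lemma EEid_cont (h : Dyn w u X e c T) (t : ℝ) : Continuous (EEidG w u X t) := by
  have hX : Continuous (fun α : ℝ => X t α) :=
    (Flow.cont h.cs.vel h.fl).comp (continuous_const.prodMk continuous_id)
  have hl : Continuous (fun α : ℝ => lam u X t α) :=
    (lam_cont h.cs.vel h.fl).comp (continuous_const.prodMk continuous_id)
  have h1 : Continuous (fun α : ℝ => px w (t, X t α)) :=
    (smooth_px w h.cs.sm).continuous.comp (continuous_const.prodMk hX)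
  have h2 : Continuous (fun α : ℝ => px (px u) (t, X t α)) :=
    h.cs.vel.px.px.sm.continuous.comp (continuous_const.prodMk hX)
  exact h1.mul (h2.mul (Real.continuous_exp.comp hl))

lemma EEid_int (h : Dyn w u X e c T) (t p q : ℝ) : IntegrableOn (EEidG w u X t) (Ioo p q) :=
  ((EEid_cont h t).integrableOn_Icc).mono_set Ioo_subset_Icc_self

lemma EEid_ED (h : Dyn w u X e c T) (t : ℝ) (ht : 0 ≤ t) (p q : ℝ) :
    ED w u X p q t = 2 * ∫ α in Ioo p q, EEidG w u X t α := by
  unfold ED
  rw [← integral_const_mul]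
  refine integral_congr_ae (Filter.Eventually.of_forall fun α => ?_)
  show 2 * (px w (0, α) + w (0, α) * lma u X t α) *
    (px (px u) (t, X t α) * Real.exp (lam u X t α)) = 2 * EEidG w u X t α
  unfold EEidG
  rw [← wx_along h.cs h.fl t α ht]
  ring

lemma EEid_L (h : Dyn w u X e c T) (t : ℝ) (ht : t ∈ Icc 0 T) {α : ℝ}
    (hα : α ∈ Ioo c (e + 2 * π)) :
    (sg (2 * π - el X e c t) (X t α - X t c) * deriv (Wc w X c t) (X t α - X t c) *
      HT (deriv (Wc w X c t)) (X t α - X t c)) * Real.exp (lam u X t α) =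
      -EEidG w u X t α := by
  have h1 : X t α < X t e + 2 * π := by
    rw [← Flow.per h.cs.vel h.fl]
    exact Flow.mono h.cs.vel h.fl t hα.2
  have h2 : sg (2 * π - el X e c t) (X t α - X t c) = -1 := by
    unfold sg el
    rw [if_pos (by linarith)]
  rw [h2, deriv_Wc h, HT_deriv_Wc h t ht, add_sub_cancel]
  unfold EEidG
  ring

lemma EEid_R (h : Dyn w u X e c T) (t : ℝ) (ht : t ∈ Icc 0 T) {α : ℝ}
    (hα : α ∈ Ioo e c) :
    (sg (2 * π - el X e c t) (X t α - X t c + 2 * π) *
      deriv (Wc w X c t) (X t α - X t c + 2 * π) *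
      HT (deriv (Wc w X c t)) (X t α - X t c + 2 * π)) * Real.exp (lam u X t α) =
      EEidG w u X t α := by
  have h1 : X t e < X t α := Flow.mono h.cs.vel h.fl t hα.1
  have h2 : sg (2 * π - el X e c t) (X t α - X t c + 2 * π) = 1 := by
    unfold sg el
    rw [if_neg (by linarith)]
  have e1 : X t c + (X t α - X t c + 2 * π) = X t α + 2 * π := by ring
  rw [h2, deriv_Wc h, HT_deriv_Wc h t ht, e1, HTd_per h.cs.per, h.cs.vel.px.px.per]
  unfold EEidG
  ring

theorem E2_Wc (h : Dyn w u X e c T) (t : ℝ) (ht : t ∈ Icc 0 T) :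
    E2 (Wc w X c t) (2 * π - el X e c t) = ED w u X c (e + 2 * π) t - ED w u X e c t := by
  have cL : ∀ α ∈ Ioo c (e + 2 * π),
      (fun α => -EEidG w u X t α) α = (fun x => sg (2 * π - el X e c t) x *
        deriv (Wc w X c t) x * HT (deriv (Wc w X c t)) x) (X t α - X t c) *
          Real.exp (lam u X t α) := fun α hα => (EEid_L h t ht hα).symm
  have cR : ∀ α ∈ Ioo e c,
      EEidG w u X t α = (fun x => sg (2 * π - el X e c t) x *
        deriv (Wc w X c t) x * HT (deriv (Wc w X c t)) x) (X t α - X t c + 2 * π) *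
          Real.exp (lam u X t α) := fun α hα => (EEid_R h t ht hα).symm
  have key := (ch_Wc h t ht.1 (fun x => sg (2 * π - el X e c t) x *
      deriv (Wc w X c t) x * HT (deriv (Wc w X c t)) x)
    ((EEid_int h t c (e + 2 * π)).neg.congr_fun cL measurableSet_Ioo)
    ((EEid_int h t e c).congr_fun cR measurableSet_Ioo)).2
  rw [← setIntegral_congr_fun measurableSet_Ioo cL, ← setIntegral_congr_fun measurableSet_Ioo cR,
    integral_neg] at key
  unfold E2
  rw [key, EEid_ED h t ht.1, EEid_ED h t ht.1]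
  ring

end Pool.Agent.H45.DY
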