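import Pool.Agent.H45.DY.EIder
import Pool.Agent.H45.DY.ChArc
import Pool.Agent.H45.DY.HTd

/-! JOB DY-13 (uses the stubs of `EIder.lean`, `ChArc.lean`, `HTd.lean`).  The mass `Ma` in Lagrangian form.

`ch_We` with `f x = |We x|`: `f (X t α - X t e) exp(lam) = |w(0,α)| exp(2 lam)` (`w_along`), and
with `f x = |We x| * HT (We) x`: `|w(0,α)| exp(2 lam) px u (t,X t α)` (`HT_We`).
`slope_e`, `slope_c`: `deriv_We`, `slope` from `FL/Transport.lean`. -/

set_option autoImplicit false
open Real Set MeasureTheory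

namespace Pool.Agent.H45.DY
open Pool.Agent.H45.FL Pool.Agent.H51.DG

variable {w u : ℝ × ℝ → ℝ} {X : ℝ → ℝ → ℝ} {e c T : ℝ}

lemma MMid_abs (h : Dyn w u X e c T) (t α : ℝ) :
    |We w X e t (X t α - X t e)| = |w (0, α)| * Real.exp (lam u X t α) := by
  unfold We
  rw [add_sub_cancel, w_along h.cs h.fl, abs_mul, abs_of_pos (Real.exp_pos _)]

lemma MMid_exp (a l : ℝ) : a * Real.exp l * Real.exp l = a * Real.exp (2 * l) := by
  rw [mul_assoc, ← Real.exp_add, two_mul]

lemma MMid_cont (h : Dyn w u X e c T) (t : ℝ) :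
    Continuous fun α => |w (0, α)| * Real.exp (2 * lam u X t α) := by
  have h1 : Continuous fun α : ℝ => w (0, α) :=
    h.cs.sm.continuous.comp (continuous_const.prodMk continuous_id)
  have h2 : Continuous fun α : ℝ => lam u X t α :=
    (lam_cont h.cs.vel h.fl).comp (continuous_const.prodMk continuous_id)
  exact h1.abs.mul (Real.continuous_exp.comp (continuous_const.mul h2))

lemma MMid_contU (h : Dyn w u X e c T) (t : ℝ) :
    Continuous fun α => px u (t, X t α) := by
  have h2 : Continuous fun α : ℝ => X t α :=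
    (Flow.cont h.cs.vel h.fl).comp (continuous_const.prodMk continuous_id)
  exact (smooth_px u h.cs.vel.sm).continuous.comp (continuous_const.prodMk h2)

lemma MMid_int {g : ℝ → ℝ} (hg : Continuous g) (p q : ℝ) : IntegrableOn g (Ioo p q) :=
  (hg.integrableOn_Icc).mono_set Ioo_subset_Icc_self

theorem Ma_We (h : Dyn w u X e c T) (t : ℝ) (ht : t ∈ Icc 0 T) :
    Ma (We w X e t) = MI w u X e c t + MI w u X c (e + 2 * π) t := by
  have h1 : (fun α => |We w X e t (X t α - X t e)| * Real.exp (lam u X t α)) =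
      fun α => |w (0, α)| * Real.exp (2 * lam u X t α) := by
    funext α
    rw [MMid_abs h, MMid_exp]
  have h2 := (ch_We h t ht.1 (fun x => |We w X e t x|)
    (by rw [h1]; exact MMid_int (MMid_cont h t) _ _)
    (by rw [h1]; exact MMid_int (MMid_cont h t) _ _)).2
  rw [h1] at h2
  exact h2

theorem MD_We (h : Dyn w u X e c T) (t : ℝ) (ht : t ∈ Icc 0 T) :
    MD w u X e c t + MD w u X c (e + 2 * π) t =
      2 * ∫ x in (0:ℝ)..(2 * π), |We w X e t x| * HT (We w X e t) x := by
  have h1 : (fun α => |We w X e t (X t α - X t e)| * HT (We w X e t) (X t α - X t e) *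
      Real.exp (lam u X t α)) =
      fun α => |w (0, α)| * Real.exp (2 * lam u X t α) * px u (t, X t α) := by
    funext α
    rw [MMid_abs h, HT_We h t ht, add_sub_cancel, ← MMid_exp]
    ring
  have hc : Continuous fun α => |w (0, α)| * Real.exp (2 * lam u X t α) * px u (t, X t α) :=
    (MMid_cont h t).mul (MMid_contU h t)
  have h2 := (ch_We h t ht.1 (fun x => |We w X e t x| * HT (We w X e t) x)
    (by rw [h1]; exact MMid_int hc _ _) (by rw [h1]; exact MMid_int hc _ _)).2
  rw [h1] at h2
  rw [h2, mul_add, ← integral_const_mul, ← integral_const_mul]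
  rfl

theorem slope_e (h : Dyn w u X e c T) (t : ℝ) (ht : 0 ≤ t) :
    deriv (We w X e t) 0 = deriv (We w X e 0) 0 := by
  rw [deriv_We h, deriv_We h, add_zero, add_zero, h.fl.init,
    slope h.cs h.fl e t h.ze ht]

theorem slope_c (h : Dyn w u X e c T) (t : ℝ) (ht : 0 ≤ t) :
    deriv (We w X e t) (el X e c t) = deriv (We w X e 0) (el X e c 0) := by
  rw [deriv_We h, deriv_We h]
  unfold el
  rw [add_sub_cancel, add_sub_cancel, h.fl.init, slope h.cs h.fl c t h.zc ht]

end Pool.Agent.H45.DY
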