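import Pool.Agent.H45.DY.HTd
import Pool.Agent.H51.DG.SC

/-! JOB DY-14 (uses the stubs of `UnifBd.lean`/`HTd.lean` if needed).  Conservation of the mean.

* `int_W_HT` (static): `∫_0^{2π} W HT W = 0` for a periodic Lipschitz function: `HT_fubini_lip`
  (and `HT_fubini`) in `Pool/Agent/H51/DG/SC.lean` with `F = V = W`: the kernel
  `(W x W y - W y W x) ct(x-y)` vanishes.
* `mean_const`: `m t = ∫_0^{2π} w(t,x) dx` has the derivative `∫ pt w (t,x) dx` (differentiation
  under the integral, continuous bounded integrand) `= ∫ (w px u - u px w)` (`CSol.pde`)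
  `= 2 ∫ w px u` (integration by parts, periodicity: `∫ (u w)_x = 0`), which for `t ∈ [0,T]` is
  `2 ∫ w HT w = 0` (`h.hu`, `int_W_HT`); `m` is constant on `[0,T]`.
* `mean_We`: shift by periodicity. -/

set_option autoImplicit false
open Real Set MeasureTheory

namespace Pool.Agent.H45.DY
open Pool.Agent.H45.FL Pool.Agent.H51.DG

variable {w u : ℝ × ℝ → ℝ} {X : ℝ → ℝ → ℝ} {e c T : ℝ}

theorem int_W_HT (W : ℝ → ℝ) (K : ℝ) (hp : Function.Periodic W (2 * π)) (hK : Lip K W) :
    ∫ x in (0:ℝ)..(2 * π), W x * HT W x = 0 := by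
  obtain ⟨B, hB⟩ := SC_bdd hp hK.continuous
  rw [HT_fubini hK.continuous.measurable hB hp hp hK (HT_fubini_lip hK hp hp hK)]
  have e : ∀ z : ℝ × ℝ, (W z.1 * W z.2 - W z.2 * W z.1) * ct (z.1 - z.2) = 0 := by
    intro z
    rw [mul_comm (W z.1) (W z.2), sub_self, zero_mul]
  simp_rw [e]
  simp

private theorem Mean_ptDeriv {w : ℝ × ℝ → ℝ} (hs : ContDiff ℝ ((⊤ : ℕ∞) : WithTop ℕ∞) w) (t x : ℝ) :
    HasDerivAt (fun s : ℝ => w (s, x)) (pt w (t, x)) t := by
  have h1 : DifferentiableAt ℝ w (t, x) := hs.differentiable (by simp) _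
  have h2 : DifferentiableAt ℝ (fun s : ℝ => (s, x)) t :=
    differentiableAt_id.prodMk (differentiableAt_const x)
  have h3 : DifferentiableAt ℝ (fun s : ℝ => w (s, x)) t :=
    DifferentiableAt.comp t (f := fun s : ℝ => (s, x)) (g := w) h1 h2
  exact h3.hasDerivAt

private theorem Mean_leib {w : ℝ × ℝ → ℝ} (hs : ContDiff ℝ ((⊤ : ℕ∞) : WithTop ℕ∞) w) (t : ℝ) :
    HasDerivAt (fun s => ∫ x in (0:ℝ)..(2 * π), w (s, x)) (∫ x in (0:ℝ)..(2 * π), pt w (t, x)) t := by
  have hpt : Continuous (pt w) := (smooth_pt w hs).continuous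
  have hw : Continuous w := hs.continuous
  have hcomp : IsCompact (Icc (t - 1) (t + 1) ×ˢ Icc (0:ℝ) (2 * π)) := isCompact_Icc.prod isCompact_Icc
  obtain ⟨C, hC⟩ := hcomp.exists_bound_of_continuousOn hpt.continuousOn
  have h2p : (0:ℝ) ≤ 2 * π := by positivity
  have key := intervalIntegral.hasDerivAt_integral_of_dominated_loc_of_deriv_le (μ := volume)
    (a := 0) (b := 2 * π) (F := fun s x => w (s, x)) (F' := fun s x => pt w (s, x))
    (x₀ := t) (s := Icc (t - 1) (t + 1)) (bound := fun _ => C) (Icc_mem_nhds (by linarith) (by linarith))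
    (Filter.Eventually.of_forall fun s =>
      (hw.comp (continuous_const.prodMk continuous_id)).aestronglyMeasurable)
    ((hw.comp (continuous_const.prodMk continuous_id)).intervalIntegrable _ _)
    (hpt.comp (continuous_const.prodMk continuous_id)).aestronglyMeasurable
    (Filter.Eventually.of_forall fun x hx s hs' => by
      rw [uIoc_of_le h2p] at hx
      exact hC (s, x) ⟨hs', hx.1.le, hx.2⟩)
    intervalIntegrable_const
    (Filter.Eventually.of_forall fun x _ s _ => Mean_ptDeriv hs s x)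
  exact key.2

private theorem Mean_zero (h : Dyn w u X e c T) (t : ℝ) (ht : t ∈ Icc 0 T) :
    ∫ x in (0:ℝ)..(2 * π), pt w (t, x) = 0 := by
  have hs := h.cs.sm
  have hu := h.cs.vel.sm
  have hs1 := smooth_px w hs
  have hu1 := smooth_px u hu
  have hc : ∀ {v : ℝ × ℝ → ℝ}, ContDiff ℝ ((⊤ : ℕ∞) : WithTop ℕ∞) v →
      Continuous (fun y : ℝ => v (t, y)) := fun hv =>
    hv.continuous.comp (continuous_const.prodMk continuous_id)
  have e1 : ∀ x, pt w (t, x) = 2 * (w (t, x) * px u (t, x)) -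
      (px u (t, x) * w (t, x) + u (t, x) * px w (t, x)) := by
    intro x
    have := h.cs.pde (t, x)
    linarith
  have i1 : IntervalIntegrable (fun x => 2 * (w (t, x) * px u (t, x))) volume 0 (2 * π) :=
    (continuous_const.mul ((hc hs).mul (hc hu1))).intervalIntegrable _ _
  have i2 : IntervalIntegrable (fun x => px u (t, x) * w (t, x) + u (t, x) * px w (t, x))
      volume 0 (2 * π) :=
    (((hc hu1).mul (hc hs)).add ((hc hu).mul (hc hs1))).intervalIntegrable _ _
  have e2 : ∫ x in (0:ℝ)..(2 * π), (px u (t, x) * w (t, x) + u (t, x) * px w (t, x)) = 0 := by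
    have hd : ∀ x, HasDerivAt (fun y => u (t, y) * w (t, y))
        (px u (t, x) * w (t, x) + u (t, x) * px w (t, x)) x := fun x =>
      (hasDerivAt_px u hu t x).mul (hasDerivAt_px w hs t x)
    rw [intervalIntegral.integral_eq_sub_of_hasDerivAt (fun x _ => hd x) i2]
    have p1 := h.cs.vel.per t 0
    have p2 := h.cs.per t 0
    rw [zero_add] at p1 p2
    rw [p1, p2, sub_self]
  have e3 : ∫ x in (0:ℝ)..(2 * π), w (t, x) * px u (t, x) = 0 := by
    obtain ⟨K, hK⟩ := HTd_lip (f := fun y => w (t, y)) (f' := fun y => px w (t, y))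
      (fun y => hasDerivAt_px w hs t y) (hc hs1) (fun y => HTd_per h.cs.per t y)
    have e4 := int_W_HT (fun y => w (t, y)) K (fun y => h.cs.per t y) hK
    refine Eq.trans ?_ e4
    refine intervalIntegral.integral_congr fun x _ => ?_
    show w (t, x) * px u (t, x) = w (t, x) * HT (fun y => w (t, y)) x
    rw [h.hu t ht x]
  have e5 : ∫ x in (0:ℝ)..(2 * π), pt w (t, x) = ∫ x in (0:ℝ)..(2 * π),
      (2 * (w (t, x) * px u (t, x)) - (px u (t, x) * w (t, x) + u (t, x) * px w (t, x))) :=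
    intervalIntegral.integral_congr fun x _ => e1 x
  rw [e5, intervalIntegral.integral_sub i1 i2, e2, intervalIntegral.integral_const_mul, e3]
  ring

theorem mean_const (h : Dyn w u X e c T) (t : ℝ) (ht : t ∈ Icc 0 T) :
    ∫ x in (0:ℝ)..(2 * π), w (t, x) = ∫ x in (0:ℝ)..(2 * π), w (0, x) := by
  have hd := fun s => Mean_leib h.cs.sm s
  have key := constant_of_has_deriv_right_zero (a := 0) (b := T)
    (f := fun s => ∫ x in (0:ℝ)..(2 * π), w (s, x))
    (fun s _ => (hd s).continuousAt.continuousWithinAt)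
    (fun s hs => by
      have h1 := hd s
      rw [Mean_zero h s ⟨hs.1, hs.2.le⟩] at h1
      exact h1.hasDerivWithinAt)
  exact key t ht

theorem mean_We (h : Dyn w u X e c T) (t : ℝ) (ht : t ∈ Icc 0 T)
    (h0 : ∫ x in (0:ℝ)..(2 * π), w (0, x) = 0) : ∫ x in (0:ℝ)..(2 * π), We w X e t x = 0 := by
  have h1 := SC_shift (f := fun x => w (t, x)) (fun x => h.cs.per t x) (X t e)
  refine Eq.trans ?_ (h1.trans ((mean_const h t ht).trans h0))
  refine intervalIntegral.integral_congr fun x _ => ?_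
  show w (t, X t e + x) = w (t, x + X t e)
  rw [add_comm]

theorem mean_Wc (h : Dyn w u X e c T) (t : ℝ) (ht : t ∈ Icc 0 T)
    (h0 : ∫ x in (0:ℝ)..(2 * π), w (0, x) = 0) : ∫ x in (0:ℝ)..(2 * π), Wc w X c t x = 0 := by
  have h1 := SC_shift (f := fun x => w (t, x)) (fun x => h.cs.per t x) (X t c)
  have h2 : ∫ x in (0:ℝ)..(2 * π), Wc w X c t x = -∫ x in (0:ℝ)..(2 * π), w (t, x + X t c) := by
    rw [← intervalIntegral.integral_neg]
    refine intervalIntegral.integral_congr fun x _ => ?_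
    show -w (t, X t c + x) = -w (t, x + X t c)
    rw [add_comm]
  rw [h2, h1, mean_const h t ht, h0, neg_zero]

end Pool.Agent.H45.DY
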