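import Pool.Agent.H45.DY.HTd

/-! JOB DY-19 (uses the stubs of `Sgn.lean`, `HTd.lean`).  The lengths of the two arcs.

`el' = u (t,X t c) - u (t,X t e)` (`Flow.ode`) `= UU (We) (el)` on `[0,T]` (`UU_We` at
`x = el`: `X t e + el = X t c`).  `L1 = -log el`, `L2 = -log (2π - el)`.
`mn_exp`: `exp (-max (-log a) (-log b)) = min a b` for `a, b > 0`. -/

set_option autoImplicit false
open Real Set MeasureTheory

namespace Pool.Agent.H45.DY
open Pool.Agent.H45.FL Pool.Agent.H51.DG

variable {w u : ℝ × ℝ → ℝ} {X : ℝ → ℝ → ℝ} {e c T : ℝ}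

theorem el_hasDerivAt (h : Dyn w u X e c T) (t : ℝ) :
    HasDerivAt (el X e c) (u (t, X t c) - u (t, X t e)) t :=
  (h.fl.ode t c).sub (h.fl.ode t e)

theorem el_UU (h : Dyn w u X e c T) (t : ℝ) (ht : t ∈ Icc 0 T) :
    u (t, X t c) - u (t, X t e) = UU (We w X e t) (el X e c t) := by
  have h1 : X t e + el X e c t = X t c := by
    unfold el
    ring
  rw [UU_We h t ht, h1]

theorem L1_hasDerivAt (h : Dyn w u X e c T) (t : ℝ) (ht : t ∈ Icc 0 T) :
    HasDerivAt (fun s => -Real.log (el X e c s))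
      (-(UU (We w X e t) (el X e c t) / el X e c t)) t := by
  rw [← el_UU h t ht]
  exact ((el_hasDerivAt h t).log (ne_of_gt (h.el_pos t))).neg

theorem L2_hasDerivAt (h : Dyn w u X e c T) (t : ℝ) (ht : t ∈ Icc 0 T) :
    HasDerivAt (fun s => -Real.log (2 * π - el X e c s))
      (UU (We w X e t) (el X e c t) / (2 * π - el X e c t)) t := by
  rw [← el_UU h t ht]
  have h1 : HasDerivAt (fun s => 2 * π - el X e c s) (-(u (t, X t c) - u (t, X t e))) t :=
    (el_hasDerivAt h t).const_sub (2 * π)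
  have h2 := (h1.log (ne_of_gt (sub_pos.2 (h.el_lt t)))).neg
  rwa [neg_div, neg_neg] at h2

theorem mn_exp (h : Dyn w u X e c T) (t : ℝ) :
    mn (el X e c t) =
      Real.exp (-(max (-Real.log (el X e c t)) (-Real.log (2 * π - el X e c t)))) := by
  have h1 := h.el_pos t
  have h2 : 0 < 2 * π - el X e c t := sub_pos.2 (h.el_lt t)
  unfold mn
  rw [max_neg_neg, neg_neg]
  rcases le_total (el X e c t) (2 * π - el X e c t) with h3 | h3
  · rw [min_eq_left h3, min_eq_left (Real.log_le_log h1 h3), Real.exp_log h1]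
  · rw [min_eq_right h3, min_eq_right (Real.log_le_log h2 h3), Real.exp_log h2]

theorem mn_le (l : ℝ) : mn l ≤ π := by
  unfold mn
  rcases le_total l π with h | h
  · exact (min_le_left _ _).trans h
  · exact (min_le_right _ _).trans (by linarith)

end Pool.Agent.H45.DY
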