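import Pool.Agent.H45.FL.Transport
import Pool.Agent.H51.DG.St

/-!
# Dynamics of the De Gregorio solution with two zeros (note 1390, section 3): definitions

`Dyn w u X e c T`: `(w,u)` is a smooth solution for all times with compactly supported velocity
(`CSol`), `X` its flow, `w(0,·) ≤ 0` on `[e,c]`, `≥ 0` on `[c,e+2π]`, and `u_x = HT w` on `[0,T]`.
Labels `α`: arc R = `(e,c)`, arc L = `(c,e+2π)`.  Zeros at time `t`: `X t e`, `X t c`.
`We t x = w (t, X t e + x)` and `Wc t x = -w (t, X t c + x)` are the normalised functions,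
`el t = X t c - X t e` the length of the arc R.

For a base zero `z` (an end point of the label interval `(p,q)`), `ξ = |X t α - X t z|`:
`gI z t α = X_α² ph(ξ)`, `gd z t α` its time derivative,
`JI z p q t = ∫_p^q |w0| (gI z t - gI z 0)`, `JD z p q t = ∫_p^q |w0| gd z t`.
`EI p q t = ∫_p^q (w0 lma² + 2 w0' lma)`, `ED` its time derivative.
`MI p q t = ∫_p^q |w0| X_α²`, `MD` its time derivative.
-/

set_option autoImplicit false
open Real Set MeasureTheory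

namespace Pool.Agent.H45.DY
open Pool.Agent.H45.FL Pool.Agent.H51.DG

structure Dyn (w u : ℝ × ℝ → ℝ) (X : ℝ → ℝ → ℝ) (e c T : ℝ) : Prop where
  cs : CSol w u
  fl : Flow u X
  hec : e < c
  hce : c < e + 2 * π
  neg : ∀ x ∈ Icc e c, w (0, x) ≤ 0
  pos : ∀ x ∈ Icc c (e + 2 * π), 0 ≤ w (0, x)
  hT : 0 ≤ T
  hu : ∀ t ∈ Icc 0 T, ∀ x, px u (t, x) = HT (fun y => w (t, y)) x

noncomputable def We (w : ℝ × ℝ → ℝ) (X : ℝ → ℝ → ℝ) (e t x : ℝ) : ℝ := w (t, X t e + x)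

noncomputable def Wc (w : ℝ × ℝ → ℝ) (X : ℝ → ℝ → ℝ) (c t x : ℝ) : ℝ := -w (t, X t c + x)

/-- length of the arc R -/
noncomputable def el (X : ℝ → ℝ → ℝ) (e c t : ℝ) : ℝ := X t c - X t e

/-- `X_α² ph(ξ)` -/
noncomputable def gI (u : ℝ × ℝ → ℝ) (X : ℝ → ℝ → ℝ) (z t α : ℝ) : ℝ :=
  Real.exp (2 * lam u X t α) * ph |X t α - X t z|

/-- time derivative of `gI` -/
noncomputable def gd (u : ℝ × ℝ → ℝ) (X : ℝ → ℝ → ℝ) (z t α : ℝ) : ℝ :=
  Real.exp (2 * lam u X t α) * (2 * px u (t, X t α) * ph |X t α - X t z| +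
    (u (t, X t α) - u (t, X t z)) *
      (if z < α then dph |X t α - X t z| else -dph |X t α - X t z|))

noncomputable def JI (w u : ℝ × ℝ → ℝ) (X : ℝ → ℝ → ℝ) (z p q t : ℝ) : ℝ :=
  ∫ α in Ioo p q, |w (0, α)| * (gI u X z t α - gI u X z 0 α)

noncomputable def JD (w u : ℝ × ℝ → ℝ) (X : ℝ → ℝ → ℝ) (z p q t : ℝ) : ℝ :=
  ∫ α in Ioo p q, |w (0, α)| * gd u X z t α

noncomputable def EI (w u : ℝ × ℝ → ℝ) (X : ℝ → ℝ → ℝ) (p q t : ℝ) : ℝ :=
  ∫ α in Ioo p q, (w (0, α) * lma u X t α ^ 2 + 2 * px w (0, α) * lma u X t α)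

noncomputable def ED (w u : ℝ × ℝ → ℝ) (X : ℝ → ℝ → ℝ) (p q t : ℝ) : ℝ :=
  ∫ α in Ioo p q, 2 * (px w (0, α) + w (0, α) * lma u X t α) *
    (px (px u) (t, X t α) * Real.exp (lam u X t α))

noncomputable def MI (w u : ℝ × ℝ → ℝ) (X : ℝ → ℝ → ℝ) (p q t : ℝ) : ℝ :=
  ∫ α in Ioo p q, |w (0, α)| * Real.exp (2 * lam u X t α)

noncomputable def MD (w u : ℝ × ℝ → ℝ) (X : ℝ → ℝ → ℝ) (p q t : ℝ) : ℝ :=
  ∫ α in Ioo p q, 2 * (|w (0, α)| * Real.exp (2 * lam u X t α) * px u (t, X t α))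

/-- `z` is an end point of the label interval `(p,q)` and a zero of `w(0,·)` -/
structure Arc (w : ℝ × ℝ → ℝ) (z p q : ℝ) : Prop where
  pq : p < q
  qp : q < p + 2 * π
  z1 : z = p ∨ z = q
  z0 : w (0, z) = 0

/-- derivative of `vp` -/
noncomputable def dvp (ξ : ℝ) : ℝ :=
  if ξ ≤ π then -(Real.cos (ξ / 2) / (4 * Real.sin (ξ / 2) ^ 2)) else 0

end Pool.Agent.H45.DY
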