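import Pool.Agent.H45.DY.UnifBd

/-! JOB DY-07 (uses the stub `ubd`).  `EI` and `MI` are differentiable with continuous derivatives
`ED`, `MD`.

All integrands are jointly continuous in `(t,α)` (`lam_cont`, `lma_cont`, `Flow.cont`, smoothness of
`w`, `px w`, `px u`, `px (px u)`: `smooth_px`), and bounded for `|t| ≤ N` (`ubd`).  Derivative of the
integrand of `EI`: `(2 w0 lma + 2 w0') * lma_t` (`lma_hasDerivAt_t`), of that of `MI`:
`|w0| exp(2 lam) * 2 px u` (`lam_hasDerivAt_t`).  `hasDerivAt_integral_of_dominated_loc_of_deriv_le` on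
the ball of radius `1`; continuity of `ED`, `MD` by `continuousAt_of_dominated` or
`continuous_parametric_integral_of_continuous`. -/

set_option autoImplicit false
open Real Set MeasureTheory

namespace Pool.Agent.H45.DY
open Pool.Agent.H45.FL Pool.Agent.H51.DG

variable {w u : ℝ × ℝ → ℝ} {X : ℝ → ℝ → ℝ}

lemma EIder_gen {F F' : ℝ → ℝ → ℝ} (hF : Continuous fun z : ℝ × ℝ => F z.1 z.2)
    (hF' : Continuous fun z : ℝ × ℝ => F' z.1 z.2)
    (hd : ∀ t α, HasDerivAt (fun s => F s α) (F' t α) t) (p q t : ℝ) :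
    HasDerivAt (fun s => ∫ α in Ioo p q, F s α) (∫ α in Ioo p q, F' t α) t := by
  have hc : IsCompact (Icc (t - 1) (t + 1) ×ˢ Icc p q) := isCompact_Icc.prod isCompact_Icc
  obtain ⟨C, hC⟩ := hc.exists_bound_of_continuousOn hF'.continuousOn
  have hsl : ∀ s, Continuous (F s) := fun s => hF.comp (continuous_const.prodMk continuous_id)
  have hsl' : ∀ s, Continuous (F' s) := fun s => hF'.comp (continuous_const.prodMk continuous_id)
  have hint : IntegrableOn (F t) (Ioo p q) :=
    ((hsl t).continuousOn.integrableOn_Icc (a := p) (b := q)).mono_set Ioo_subset_Icc_self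
  refine (hasDerivAt_integral_of_dominated_loc_of_deriv_le (μ := volume.restrict (Ioo p q))
    (F := F) (F' := F') (bound := fun _ => C) (Metric.ball_mem_nhds t one_pos) ?_ hint
    (hsl' t).aestronglyMeasurable ?_ ?_ ?_).2
  · exact Filter.Eventually.of_forall fun s => (hsl s).aestronglyMeasurable
  · rw [ae_restrict_iff' measurableSet_Ioo]
    refine Filter.Eventually.of_forall fun α hα s hs => ?_
    rw [Real.ball_eq_Ioo] at hs
    exact hC (s, α) ⟨⟨hs.1.le, hs.2.le⟩, ⟨hα.1.le, hα.2.le⟩⟩
  · exact integrable_const C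
  · exact Filter.Eventually.of_forall fun α s _ => hd s α

lemma EIder_cont {F : ℝ → ℝ → ℝ} (hF : Continuous fun z : ℝ × ℝ => F z.1 z.2) (p q : ℝ) :
    Continuous fun s => ∫ α in Ioo p q, F s α := by
  have h := continuous_parametric_integral_of_continuous (μ := volume) (f := F)
    (by exact hF) (isCompact_Icc (a := p) (b := q))
  have e : (fun s => ∫ α in Ioo p q, F s α) = fun s => ∫ α in Icc p q, F s α := by
    funext s
    rw [integral_Icc_eq_integral_Ioo]
  rw [e]
  exact h

lemma EIder_px (h : CSol w u) (hX : Flow u X) :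
    Continuous fun z : ℝ × ℝ => px u (z.1, X z.1 z.2) :=
  (smooth_px u h.vel.sm).continuous.comp (continuous_fst.prodMk (Flow.cont h.vel hX))

lemma EIder_pxx (h : CSol w u) (hX : Flow u X) :
    Continuous fun z : ℝ × ℝ => px (px u) (z.1, X z.1 z.2) :=
  (smooth_px _ (smooth_px u h.vel.sm)).continuous.comp
    (continuous_fst.prodMk (Flow.cont h.vel hX))

lemma EIder_w0 (h : CSol w u) : Continuous fun z : ℝ × ℝ => w (0, z.2) :=
  h.sm.continuous.comp (continuous_const.prodMk continuous_snd)

lemma EIder_pxw0 (h : CSol w u) : Continuous fun z : ℝ × ℝ => px w (0, z.2) :=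
  (smooth_px w h.sm).continuous.comp (continuous_const.prodMk continuous_snd)

lemma EIder_ED (h : CSol w u) (hX : Flow u X) : Continuous fun z : ℝ × ℝ =>
    2 * (px w (0, z.2) + w (0, z.2) * lma u X z.1 z.2) *
      (px (px u) (z.1, X z.1 z.2) * Real.exp (lam u X z.1 z.2)) :=
  (continuous_const.mul ((EIder_pxw0 h).add ((EIder_w0 h).mul (lma_cont h.vel hX)))).mul
    ((EIder_pxx h hX).mul (Real.continuous_exp.comp (lam_cont h.vel hX)))

theorem EI_hasDerivAt (h : CSol w u) (hX : Flow u X) (p q t : ℝ) :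
    HasDerivAt (EI w u X p q) (ED w u X p q t) t := by
  refine EIder_gen (F := fun t α => w (0, α) * lma u X t α ^ 2 + 2 * px w (0, α) * lma u X t α)
    (F' := fun t α => 2 * (px w (0, α) + w (0, α) * lma u X t α) *
      (px (px u) (t, X t α) * Real.exp (lam u X t α))) ?_ (EIder_ED h hX) ?_ p q t
  · exact ((EIder_w0 h).mul ((lma_cont h.vel hX).pow 2)).add
      ((continuous_const.mul (EIder_pxw0 h)).mul (lma_cont h.vel hX))
  · intro t α
    have h1 := lma_hasDerivAt_t h.vel hX t α
    have h2 := ((h1.pow 2).const_mul (w (0, α))).add (h1.const_mul (2 * px w (0, α)))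
    refine h2.congr_deriv ?_
    norm_num
    ring

theorem MI_hasDerivAt (h : CSol w u) (hX : Flow u X) (p q t : ℝ) :
    HasDerivAt (MI w u X p q) (MD w u X p q t) t := by
  refine EIder_gen (F := fun t α => |w (0, α)| * Real.exp (2 * lam u X t α))
    (F' := fun t α => 2 * (|w (0, α)| * Real.exp (2 * lam u X t α) * px u (t, X t α)))
    ?_ ?_ ?_ p q t
  · exact (EIder_w0 h).abs.mul
      (Real.continuous_exp.comp (continuous_const.mul (lam_cont h.vel hX)))
  · exact continuous_const.mul (((EIder_w0 h).abs.mul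
      (Real.continuous_exp.comp (continuous_const.mul (lam_cont h.vel hX)))).mul (EIder_px h hX))
  · intro t α
    have h1 := lam_hasDerivAt_t h.vel hX t α
    have h2 := ((h1.const_mul 2).exp).const_mul (|w (0, α)|)
    refine h2.congr_deriv ?_
    ring

theorem ED_cont (h : CSol w u) (hX : Flow u X) (p q : ℝ) : Continuous (ED w u X p q) :=
  EIder_cont (F := fun t α => 2 * (px w (0, α) + w (0, α) * lma u X t α) *
      (px (px u) (t, X t α) * Real.exp (lam u X t α))) (EIder_ED h hX) p q

lemma EI_zero (w u : ℝ × ℝ → ℝ) (X : ℝ → ℝ → ℝ) (p q : ℝ) : EI w u X p q 0 = 0 := by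
  simp [EI, lma_zero]

end Pool.Agent.H45.DY
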