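import Pool.Agent.H45.DY.JIder
import Pool.Agent.H45.DY.ChArc
import Pool.Agent.H45.DY.HTd

/-! JOB DY-10 (uses the stubs of `JIder.lean`, `ChArc.lean`, `HTd.lean`).  `FF` in Lagrangian form.

PROOF of `FF_We`: `ch_We` with `f x = |We x| (2 HT We x Phi l x + UU We x dPhi l x)`, `l = el`.
R labels `α ∈ (e,c)`, `x = X t α - X t e ∈ (0,l)`: `Phi l x = ph x`, `dPhi l x = dph x`,
`|We x| = |w(t,X t α)| = |w(0,α)| exp(lam)` (`w_along`), `HT We x = px u (t,X t α)` (`HT_We`),
`UU We x = u(t,X t α) - u(t,X t e)` (`UU_We`), so `f x exp(lam) = |w(0,α)| gd u X e t α`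
(`e < α`, `|X t α - X t e| = x`).
L labels `α ∈ (c,e+2π)`, `x ∈ (l,2π)`: `Phi l x = ph (2π-x)`, `dPhi l x = -dph (2π-x)`,
`2π - x = X t (e+2π) - X t α = |X t α - X t (e+2π)|` (`Flow.per`), `u(t,X t (e+2π)) = u(t,X t e)`
(`vel.per`): `f x exp(lam) = |w(0,α)| gd u X (e+2π) t α` (`¬ e+2π < α`).
Integrability from `JD_integrable` (congruence on the arc).
`FF_Wc`: the same with `ch_Wc`; `HT Wc`, `UU Wc` have the opposite sign; for the R labels
`x = X t α - X t c + 2π > 2π - l`, `2π - x = X t c - X t α`, and `u`, `px u`, `w` are periodic. -/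

set_option autoImplicit false
open Real Set MeasureTheory

namespace Pool.Agent.H45.DY
open Pool.Agent.H45.FL Pool.Agent.H51.DG

variable {w u : ℝ × ℝ → ℝ} {X : ℝ → ℝ → ℝ} {e c T : ℝ}

/-- the integrand of `FF` -/
private noncomputable def FFid_f (W : ℝ → ℝ) (l x : ℝ) : ℝ :=
  |W x| * (2 * HT W x * Phi l x + UU W x * dPhi l x)

private lemma FFid_exp (h : CSol w u) (hX : Flow u X) (t α : ℝ) :
    |w (t, X t α)| = |w (0, α)| * Real.exp (lam u X t α) := by
  rw [w_along h hX, abs_mul, abs_of_pos (Real.exp_pos _)]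

private lemma FFid_exp2 (a : ℝ) : Real.exp (2 * a) = Real.exp a * Real.exp a := by
  rw [two_mul, Real.exp_add]

private lemma FFid_eR (h : Dyn w u X e c T) (t : ℝ) (ht : t ∈ Icc 0 T) (α : ℝ)
    (hα : α ∈ Ioo e c) :
    FFid_f (We w X e t) (el X e c t) (X t α - X t e) * Real.exp (lam u X t α) =
      |w (0, α)| * gd u X e t α := by
  have hm := Flow.mono h.cs.vel h.fl t
  have h1 : X t e < X t α := hm hα.1
  have h2 : X t α - X t e < el X e c t := by
    have := hm hα.2
    unfold el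
    linarith
  have h3 : X t e + (X t α - X t e) = X t α := by ring
  unfold FFid_f gd
  rw [HT_We h t ht, UU_We h t ht, Phi, dPhi, dst, if_pos h2, if_pos h2, if_pos hα.1, We, h3,
    FFid_exp h.cs h.fl, abs_of_pos (sub_pos.2 h1), FFid_exp2]
  ring

private lemma FFid_eL (h : Dyn w u X e c T) (t : ℝ) (ht : t ∈ Icc 0 T) (α : ℝ)
    (hα : α ∈ Ioo c (e + 2 * π)) :
    FFid_f (We w X e t) (el X e c t) (X t α - X t e) * Real.exp (lam u X t α) =
      |w (0, α)| * gd u X (e + 2 * π) t α := by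
  have hm := Flow.mono h.cs.vel h.fl t
  have h1 : X t α < X t (e + 2 * π) := hm hα.2
  have h2 : ¬ X t α - X t e < el X e c t := by
    have := hm hα.1
    unfold el
    linarith
  have h3 : X t e + (X t α - X t e) = X t α := by ring
  have h4 : u (t, X t (e + 2 * π)) = u (t, X t e) := by
    rw [Flow.per h.cs.vel h.fl, h.cs.vel.per]
  have h5 : |X t α - X t (e + 2 * π)| = 2 * π - (X t α - X t e) := by
    rw [abs_of_neg (sub_neg.2 h1), Flow.per h.cs.vel h.fl]
    ring
  unfold FFid_f gd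
  rw [HT_We h t ht, UU_We h t ht, Phi, dPhi, dst, if_neg h2, if_neg h2, if_neg hα.2.le.not_gt, We,
    h3, FFid_exp h.cs h.fl, h4, h5, FFid_exp2]
  ring

private lemma FFid_cL (h : Dyn w u X e c T) (t : ℝ) (ht : t ∈ Icc 0 T) (α : ℝ)
    (hα : α ∈ Ioo c (e + 2 * π)) :
    FFid_f (Wc w X c t) (2 * π - el X e c t) (X t α - X t c) * Real.exp (lam u X t α) =
      -(|w (0, α)| * gd u X c t α) := by
  have hm := Flow.mono h.cs.vel h.fl t
  have h1 : X t c < X t α := hm hα.1
  have h2 : X t α - X t c < 2 * π - el X e c t := by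
    have := hm hα.2
    rw [Flow.per h.cs.vel h.fl] at this
    unfold el
    linarith
  have h3 : X t c + (X t α - X t c) = X t α := by ring
  unfold FFid_f gd
  rw [HT_Wc h t ht, UU_Wc h t ht, Phi, dPhi, dst, if_pos h2, if_pos h2, if_pos hα.1, Wc, h3,
    abs_neg, FFid_exp h.cs h.fl, abs_of_pos (sub_pos.2 h1), FFid_exp2]
  ring

private lemma FFid_cR (h : Dyn w u X e c T) (t : ℝ) (ht : t ∈ Icc 0 T) (α : ℝ)
    (hα : α ∈ Ioo e c) :
    FFid_f (Wc w X c t) (2 * π - el X e c t) (X t α - X t c + 2 * π) *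
      Real.exp (lam u X t α) = -(|w (0, α)| * gd u X c t α) := by
  have hm := Flow.mono h.cs.vel h.fl t
  have h1 : X t α < X t c := hm hα.2
  have h2 : ¬ X t α - X t c + 2 * π < 2 * π - el X e c t := by
    have := hm hα.1
    unfold el
    linarith
  have h3 : X t c + (X t α - X t c + 2 * π) = X t α + 2 * π := by ring
  have h5 : |X t α - X t c| = 2 * π - (X t α - X t c + 2 * π) := by
    rw [abs_of_neg (sub_neg.2 h1)]
    ring
  unfold FFid_f gd
  rw [HT_Wc h t ht, UU_Wc h t ht, Phi, dPhi, dst, if_neg h2, if_neg h2, if_neg hα.2.le.not_gt, Wc,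
    h3, HTd_per h.cs.vel.per, h.cs.vel.per, h.cs.per, abs_neg, FFid_exp h.cs h.fl, h5, FFid_exp2]
  ring

theorem FF_We (h : Dyn w u X e c T) (t : ℝ) (ht : t ∈ Icc 0 T) :
    FF (We w X e t) (el X e c t) = JD w u X e e c t + JD w u X (e + 2 * π) c (e + 2 * π) t := by
  have hR := (JD_integrable h.cs h.fl h.arc_e_R t).congr_fun
    (fun α hα => (FFid_eR h t ht α hα).symm) measurableSet_Ioo
  have hL := (JD_integrable h.cs h.fl h.arc_e_L t).congr_fun
    (fun α hα => (FFid_eL h t ht α hα).symm) measurableSet_Ioo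
  have key := (ch_We h t ht.1 (FFid_f (We w X e t) (el X e c t)) hR hL).2
  rw [setIntegral_congr_fun measurableSet_Ioo (fun α hα => FFid_eR h t ht α hα),
    setIntegral_congr_fun measurableSet_Ioo (fun α hα => FFid_eL h t ht α hα)] at key
  exact key

theorem FF_Wc (h : Dyn w u X e c T) (t : ℝ) (ht : t ∈ Icc 0 T) :
    FF (Wc w X c t) (2 * π - el X e c t) = -(JD w u X c e c t + JD w u X c c (e + 2 * π) t) := by
  have hR := (JD_integrable h.cs h.fl h.arc_c_R t).neg.congr_fun
    (fun α hα => (FFid_cR h t ht α hα).symm) measurableSet_Ioo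
  have hL := (JD_integrable h.cs h.fl h.arc_c_L t).neg.congr_fun
    (fun α hα => (FFid_cL h t ht α hα).symm) measurableSet_Ioo
  have key := (ch_Wc h t ht.1 (FFid_f (Wc w X c t) (2 * π - el X e c t)) hL hR).2
  rw [setIntegral_congr_fun measurableSet_Ioo (fun α hα => FFid_cR h t ht α hα),
    setIntegral_congr_fun measurableSet_Ioo (fun α hα => FFid_cL h t ht α hα), integral_neg,
    integral_neg] at key
  rw [neg_add_rev]
  exact key

end Pool.Agent.H45.DY
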