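import Pool.Agent.H45.DY.JIder
import Pool.Agent.H45.DY.EIder
import Pool.Agent.H45.DY.ChArc
import Pool.Agent.H45.DY.HTd
import Pool.Agent.H51.DG.HH

/-! JOB DY-12 (uses the stubs `GG_integrable` (HH.lean), `JI_integrable`, `ch_We`, `ch_arc_int`, `deriv_We`, ...).
`GG` in Lagrangian form.

PROOF.  Let `f_t` be the integrand of `GG (We t) (el t)`.  For a label `α` in an arc,
`x = X t α - X t e`, `a = |w(0,α)|`:
`f_t x * exp(lam) = g_t α := (px w(0,α) + w(0,α) lma)² / a - a exp(2 lam) (ph ξe + ph ξc)`,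
`ξe`, `ξc` the distances `|X t α - X t z|` to the zeros at the two ends of the arc
(R: `z = e, c`, `dst = x`, `ds2 = l - x`; L: `z = e+2π, c`, `dst = 2π - x`, `ds2 = x - l`);
here `px w (t,X) = px w(0,α) + w(0,α) lma` (`wx_along`), `|w(t,X)| = a exp(lam)` (`w_along`), and
`(q)²/(a exp(lam)) * exp(lam) = q²/a` (also for `a = 0`, both sides are `0` in Lean).
`g_t - g_0 = σ (w lma² + 2 w' lma) - a (gI zе t - gI ze 0) - a (gI zc t - gI zc 0)`, `σ = -1` on R,
`+1` on L: for `w(0,α) ≠ 0` by `w/|w| = σ`, for `w(0,α) = 0` both sides are `0`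
(`Dyn.px_interior`).
`g_0` is integrable on both arcs: `GG_integrable` for `We 0` (`Nrm`, smooth; `X 0 α = α`,
`lam u X 0 = 0`), restricted and shifted.  The other terms: `JI_integrable` and continuous
bounded functions.  So `ch_We` applies to `f_t` and to `f_0`, subtract. -/

set_option autoImplicit false
open Real Set MeasureTheory

namespace Pool.Agent.H45.DY
open Pool.Agent.H45.FL Pool.Agent.H51.DG

variable {w u : ℝ × ℝ → ℝ} {X : ℝ → ℝ → ℝ} {e c T : ℝ}

/-- integrand of `GG (We t) (el t)` -/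
noncomputable def GGid_f (w : ℝ × ℝ → ℝ) (X : ℝ → ℝ → ℝ) (e c t x : ℝ) : ℝ :=
  (deriv (We w X e t) x) ^ 2 / |We w X e t x| -
    |We w X e t x| * (ph (dst (el X e c t) x) + ph (ds2 (el X e c t) x))

/-- integrand of `EI` -/
noncomputable def GGid_E (w u : ℝ × ℝ → ℝ) (X : ℝ → ℝ → ℝ) (t α : ℝ) : ℝ :=
  w (0, α) * lma u X t α ^ 2 + 2 * px w (0, α) * lma u X t α

lemma GGid_alg (q a E A B : ℝ) (hE : 0 < E) :
    (q ^ 2 / |a * E| - |a * E| * (A + B)) * E = q ^ 2 / |a| - |a| * (E ^ 2 * A + E ^ 2 * B) := by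
  rw [abs_mul, abs_of_pos hE]
  rcases eq_or_ne a 0 with ha | ha
  · rw [ha, abs_zero]
    simp
  · have h1 : |a| ≠ 0 := abs_ne_zero.2 ha
    have h2 : E ≠ 0 := hE.ne'
    field_simp

lemma GGid_R (h : Dyn w u X e c T) (t : ℝ) (ht : 0 ≤ t) (α : ℝ) (hα : α ∈ Ioo e c) :
    GGid_f w X e c t (X t α - X t e) * Real.exp (lam u X t α) =
      (px w (0, α) + w (0, α) * lma u X t α) ^ 2 / |w (0, α)| -
        |w (0, α)| * (gI u X e t α + gI u X c t α) := by
  have hm := Flow.mono h.cs.vel h.fl t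
  have h1 : 0 < X t α - X t e := sub_pos.2 (hm hα.1)
  have h2 : 0 < X t c - X t α := sub_pos.2 (hm hα.2)
  have hx : X t α - X t e < el X e c t := by
    unfold el
    linarith
  have e1 : X t e + (X t α - X t e) = X t α := by ring
  have hd : dst (el X e c t) (X t α - X t e) = |X t α - X t e| := by
    rw [abs_of_pos h1]
    exact if_pos hx
  have hd2 : ds2 (el X e c t) (X t α - X t e) = |X t α - X t c| := by
    rw [abs_sub_comm, abs_of_pos h2]
    unfold ds2
    rw [if_pos hx]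
    unfold el
    ring
  unfold GGid_f
  rw [hd, hd2, deriv_We h]
  unfold We
  rw [e1, wx_along h.cs h.fl t α ht, w_along h.cs h.fl t α, GGid_alg _ _ _ _ _ (Real.exp_pos _)]
  unfold gI
  have h3 : Real.exp (2 * lam u X t α) = Real.exp (lam u X t α) ^ 2 := by
    rw [two_mul, Real.exp_add, sq]
  rw [h3]

lemma GGid_L (h : Dyn w u X e c T) (t : ℝ) (ht : 0 ≤ t) (α : ℝ) (hα : α ∈ Ioo c (e + 2 * π)) :
    GGid_f w X e c t (X t α - X t e) * Real.exp (lam u X t α) =
      (px w (0, α) + w (0, α) * lma u X t α) ^ 2 / |w (0, α)| -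
        |w (0, α)| * (gI u X (e + 2 * π) t α + gI u X c t α) := by
  have hm := Flow.mono h.cs.vel h.fl t
  have h1 : 0 < X t α - X t c := sub_pos.2 (hm hα.1)
  have h2 : 0 < X t (e + 2 * π) - X t α := sub_pos.2 (hm hα.2)
  have hx : ¬ X t α - X t e < el X e c t := by
    unfold el
    linarith
  have e1 : X t e + (X t α - X t e) = X t α := by ring
  have hd : dst (el X e c t) (X t α - X t e) = |X t α - X t (e + 2 * π)| := by
    rw [abs_sub_comm, abs_of_pos h2]
    unfold dst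
    rw [if_neg hx, Flow.per h.cs.vel h.fl]
    ring
  have hd2 : ds2 (el X e c t) (X t α - X t e) = |X t α - X t c| := by
    rw [abs_of_pos h1]
    unfold ds2
    rw [if_neg hx]
    unfold el
    ring
  unfold GGid_f
  rw [hd, hd2, deriv_We h]
  unfold We
  rw [e1, wx_along h.cs h.fl t α ht, w_along h.cs h.fl t α, GGid_alg _ _ _ _ _ (Real.exp_pos _)]
  unfold gI
  have h3 : Real.exp (2 * lam u X t α) = Real.exp (lam u X t α) ^ 2 := by
    rw [two_mul, Real.exp_add, sq]
  rw [h3]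

lemma GGid_sq (q b a L σ : ℝ) (hb : b = σ * a) (hσ : σ * σ = 1) (ha : 0 ≤ a)
    (h0 : b = 0 → q = 0) : (q + b * L) ^ 2 / a = (q + b * 0) ^ 2 / a + σ * (b * L ^ 2 + 2 * q * L) := by
  rcases eq_or_lt_of_le ha with ha | ha
  · have h1 : b = 0 := by rw [hb, ← ha, mul_zero]
    rw [h1, h0 h1]
    simp
  · have h1 : a ≠ 0 := ha.ne'
    have h2 : σ ≠ 0 := by
      intro h
      rw [h, zero_mul] at hσ
      exact zero_ne_one hσ
    rw [hb]
    field_simp
    ring_nf

lemma GGid_Eint (h : Dyn w u X e c T) (t p q : ℝ) : IntegrableOn (GGid_E w u X t) (Ioo p q) := by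
  have h1 : Continuous fun α : ℝ => w (0, α) :=
    h.cs.sm.continuous.comp (continuous_const.prodMk continuous_id)
  have h2 : Continuous fun α : ℝ => px w (0, α) :=
    (smooth_px w h.cs.sm).continuous.comp (continuous_const.prodMk continuous_id)
  have h3 : Continuous fun α : ℝ => lma u X t α :=
    (lma_cont h.cs.vel h.fl).comp (continuous_const.prodMk continuous_id)
  have h4 : Continuous (GGid_E w u X t) :=
    (h1.mul (h3.pow 2)).add ((continuous_const.mul h2).mul h3)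
  exact (h4.continuousOn.integrableOn_compact isCompact_Icc).mono_set Ioo_subset_Icc_self

/-- one arc -/
lemma GGid_arc (h : Dyn w u X e c T) (t : ℝ) {p q z z' σ : ℝ} (h1 : Arc w z p q)
    (h2 : Arc w z' p q) (G G0 : ℝ → ℝ) (hi : IntegrableOn G0 (Ioo p q))
    (hG : ∀ α ∈ Ioo p q, G α = G0 α + σ * GGid_E w u X t α -
      |w (0, α)| * (gI u X z t α - gI u X z 0 α) -
      |w (0, α)| * (gI u X z' t α - gI u X z' 0 α)) :
    IntegrableOn G (Ioo p q) ∧ ∫ α in Ioo p q, G α =
      (∫ α in Ioo p q, G0 α) + σ * EI w u X p q t - JI w u X z p q t - JI w u X z' p q t := by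
  have i1 := (GGid_Eint h t p q).const_mul σ
  have i2 := JI_integrable h.cs h.fl h1 t
  have i3 := JI_integrable h.cs h.fl h2 t
  have i4 := ((hi.add i1).sub i2).sub i3
  have i5 : IntegrableOn (fun α => G0 α + σ * GGid_E w u X t α -
      |w (0, α)| * (gI u X z t α - gI u X z 0 α) -
      |w (0, α)| * (gI u X z' t α - gI u X z' 0 α)) (Ioo p q) := i4
  refine ⟨i5.congr_fun (fun α hα => (hG α hα).symm) measurableSet_Ioo, ?_⟩
  rw [setIntegral_congr_fun measurableSet_Ioo hG]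
  have e1 : ∫ α in Ioo p q, (G0 α + σ * GGid_E w u X t α -
      |w (0, α)| * (gI u X z t α - gI u X z 0 α) -
      |w (0, α)| * (gI u X z' t α - gI u X z' 0 α)) =
      (∫ α in Ioo p q, (G0 α + σ * GGid_E w u X t α -
      |w (0, α)| * (gI u X z t α - gI u X z 0 α))) - JI w u X z' p q t :=
    integral_sub ((hi.add i1).sub i2) i3
  have e2 : ∫ α in Ioo p q, (G0 α + σ * GGid_E w u X t α -
      |w (0, α)| * (gI u X z t α - gI u X z 0 α)) =
      (∫ α in Ioo p q, (G0 α + σ * GGid_E w u X t α)) - JI w u X z p q t :=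
    integral_sub (hi.add i1) i2
  have e3 : ∫ α in Ioo p q, (G0 α + σ * GGid_E w u X t α) =
      (∫ α in Ioo p q, G0 α) + ∫ α in Ioo p q, σ * GGid_E w u X t α := integral_add hi i1
  have e4 : ∫ α in Ioo p q, σ * GGid_E w u X t α = σ * EI w u X p q t := by
    rw [integral_const_mul]
    rfl
  rw [e1, e2, e3, e4]

theorem GG_dyn (h : Dyn w u X e c T) (t : ℝ) (ht : t ∈ Icc 0 T) :
    GG (We w X e t) (el X e c t) = GG (We w X e 0) (el X e c 0) +
      (EI w u X c (e + 2 * π) t - EI w u X e c t) -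
      (JI w u X e e c t + JI w u X (e + 2 * π) c (e + 2 * π) t) -
      (JI w u X c e c t + JI w u X c c (e + 2 * π) t) := by
  have h00 : (0 : ℝ) ≤ 0 := le_rfl
  -- integrability at time zero
  have k1 : IntervalIntegrable (GGid_f w X e c 0) volume 0 (2 * π) :=
    GG_integrable (h.nrm_We 0) ((h.sm_We 0).of_le (WithTop.coe_le_coe.2 (le_top : (2 : ℕ∞) ≤ ⊤)))
  have k2 : IntegrableOn (GGid_f w X e c 0) (Ioo 0 (2 * π)) :=
    (intervalIntegrable_iff_integrableOn_Ioo_of_le (by positivity)).1 k1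
  have hel : X 0 c - X 0 e = el X e c 0 := rfl
  have k3 := h.el_pos 0
  have k4 := h.el_lt 0
  have g1 := charc_gen_int h.cs h.fl 0 h00 e c (-X 0 e) (GGid_f w X e c 0)
  have g2 := charc_gen_int h.cs h.fl 0 h00 c (e + 2 * π) (-X 0 e) (GGid_f w X e c 0)
  have e1 : X 0 e + -X 0 e = 0 := by ring
  have e2 : X 0 (e + 2 * π) + -X 0 e = 2 * π := by
    rw [Flow.per h.cs.vel h.fl 0 e]; ring
  rw [e1] at g1
  rw [e2] at g2
  simp only [← sub_eq_add_neg] at g1 g2
  rw [hel] at g1 g2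
  have iR := g1.1 (k2.mono_set (Ioo_subset_Ioo_right k4.le))
  have iL := g2.1 (k2.mono_set (Ioo_subset_Ioo_left k3.le))
  have hl0 : ∀ α, lma u X 0 α = 0 := lma_zero u X
  obtain ⟨jR, sR⟩ := GGid_arc (σ := -1) h t h.arc_e_R h.arc_c_R
    (fun α => GGid_f w X e c t (X t α - X t e) * Real.exp (lam u X t α))
    (fun α => GGid_f w X e c 0 (X 0 α - X 0 e) * Real.exp (lam u X 0 α)) iR (by
      intro α hα
      have hw := h.neg α ⟨hα.1.le, hα.2.le⟩
      show GGid_f w X e c t (X t α - X t e) * Real.exp (lam u X t α) =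
        GGid_f w X e c 0 (X 0 α - X 0 e) * Real.exp (lam u X 0 α) + -1 * GGid_E w u X t α - _ - _
      rw [GGid_R h t ht.1 α hα, GGid_R h 0 h00 α hα, hl0,
        GGid_sq (px w (0, α)) (w (0, α)) |w (0, α)| (lma u X t α) (-1)
          (by rw [abs_of_nonpos hw]; ring) (by ring) (abs_nonneg _)
          (h.px_interior α (Or.inl hα))]
      unfold GGid_E
      ring)
  obtain ⟨jL, sL⟩ := GGid_arc (σ := 1) h t h.arc_e_L h.arc_c_L
    (fun α => GGid_f w X e c t (X t α - X t e) * Real.exp (lam u X t α))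
    (fun α => GGid_f w X e c 0 (X 0 α - X 0 e) * Real.exp (lam u X 0 α)) iL (by
      intro α hα
      have hw := h.pos α ⟨hα.1.le, hα.2.le⟩
      show GGid_f w X e c t (X t α - X t e) * Real.exp (lam u X t α) =
        GGid_f w X e c 0 (X 0 α - X 0 e) * Real.exp (lam u X 0 α) + 1 * GGid_E w u X t α - _ - _
      rw [GGid_L h t ht.1 α hα, GGid_L h 0 h00 α hα, hl0,
        GGid_sq (px w (0, α)) (w (0, α)) |w (0, α)| (lma u X t α) 1
          (by rw [abs_of_nonneg hw]; ring) (by ring) (abs_nonneg _)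
          (h.px_interior α (Or.inr hα))]
      unfold GGid_E
      ring)
  have f1 := (ch_We h t ht.1 (GGid_f w X e c t) jR jL).2
  have f0 := (ch_We h 0 h00 (GGid_f w X e c 0) iR iL).2
  have q1 : GG (We w X e t) (el X e c t) = ∫ x in (0:ℝ)..(2 * π), GGid_f w X e c t x := rfl
  have q0 : GG (We w X e 0) (el X e c 0) = ∫ x in (0:ℝ)..(2 * π), GGid_f w X e c 0 x := rfl
  rw [q1, q0, f1, f0, sR, sL]
  ring

end Pool.Agent.H45.DY
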