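import Pool.Agent.H45.DY.Basic

/-! JOB DY-04.  Uniform bounds on bounded time intervals and at the base zero.

* `per_bdd`: a continuous function `f : ℝ × ℝ → ℝ`, periodic in `x`, is bounded on `|t| ≤ N`
  (compactness of `[-N,N] × [0,2π]`).
* `ubd`: apply it to `w`, `px w`, `u`, `px u`, `px (px u)` and (in the label) to `lam`, `lma`
  (`lam_cont`, `lma_cont`, `lam_per`, `lma_per`); take the maximum.
* `w_near`: `|w (t, X t α)| = |w (t, X t α) - w (t, X t z)| ≤ K |X t α - X t z|`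
  (`w (t, X t z) = w (0,z) exp(..) = 0`), mean value inequality in `x`.
* `xi_pos`, `xi_lt`: for `α ∈ (p,q)`: `0 < |X t α - X t z| < 2π` (strict monotonicity, `Flow.per`). -/

set_option autoImplicit false
open Real Set MeasureTheory

namespace Pool.Agent.H45.DY
open Pool.Agent.H45.FL Pool.Agent.H51.DG

variable {w u : ℝ × ℝ → ℝ} {X : ℝ → ℝ → ℝ}

lemma per_bdd (f : ℝ × ℝ → ℝ) (hf : Continuous f) (hp : ∀ t x : ℝ, f (t, x + 2 * π) = f (t, x))
    (N : ℝ) : ∃ K : ℝ, 0 ≤ K ∧ ∀ t x : ℝ, |t| ≤ N → |f (t, x)| ≤ K := by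
  have hc : IsCompact (Icc (-N) N ×ˢ Icc (0 : ℝ) (2 * π)) := isCompact_Icc.prod isCompact_Icc
  obtain ⟨C, hC⟩ := hc.exists_bound_of_continuousOn hf.continuousOn
  refine ⟨max C 0, le_max_right _ _, fun t x ht => ?_⟩
  have hper : Function.Periodic (fun y => f (t, y)) (2 * π) := fun y => hp t y
  obtain ⟨y, hy, hxy⟩ := hper.exists_mem_Ico₀ (by positivity) x
  have h1 : f (t, x) = f (t, y) := hxy
  rw [h1]
  have h2 := hC (t, y) ⟨abs_le.1 ht, ⟨hy.1, hy.2.le⟩⟩
  rw [Real.norm_eq_abs] at h2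
  exact h2.trans (le_max_left _ _)

lemma ubd (h : CSol w u) (hX : Flow u X) (N : ℝ) : ∃ K : ℝ, 0 ≤ K ∧ ∀ t x : ℝ, |t| ≤ N →
    |w (t, x)| ≤ K ∧ |px w (t, x)| ≤ K ∧ |u (t, x)| ≤ K ∧ |px u (t, x)| ≤ K ∧
      |px (px u) (t, x)| ≤ K ∧ |lam u X t x| ≤ K ∧ |lma u X t x| ≤ K := by
  have hpw : ∀ t x : ℝ, px w (t, x + 2 * π) = px w (t, x) := by
    intro t x
    have h1 : (fun y => w (t, y)) = fun y => w (t, y + 2 * π) := funext fun y => (h.per t y).symm
    have h2 : deriv (fun y => w (t, y + 2 * π)) x = deriv (fun y => w (t, y)) (x + 2 * π) :=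
      deriv_comp_add_const (f := fun y => w (t, y)) (2 * π) x
    change deriv (fun y => w (t, y)) (x + 2 * π) = deriv (fun y => w (t, y)) x
    rw [← h2, ← h1]
  obtain ⟨K1, hK1, h1⟩ := per_bdd w h.sm.continuous h.per N
  obtain ⟨K2, hK2, h2⟩ := per_bdd (px w) (smooth_px w h.sm).continuous hpw N
  obtain ⟨K3, hK3, h3⟩ := per_bdd u h.vel.sm.continuous h.vel.per N
  obtain ⟨K4, hK4, h4⟩ := per_bdd (px u) h.vel.px.sm.continuous h.vel.px.per N
  obtain ⟨K5, hK5, h5⟩ := per_bdd (px (px u)) h.vel.px.px.sm.continuous h.vel.px.px.per N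
  obtain ⟨K6, hK6, h6⟩ := per_bdd (fun p => lam u X p.1 p.2) (lam_cont h.vel hX)
    (fun t x => lam_per h.vel hX t x) N
  obtain ⟨K7, hK7, h7⟩ := per_bdd (fun p => lma u X p.1 p.2) (lma_cont h.vel hX)
    (fun t x => lma_per h.vel hX t x) N
  refine ⟨K1 + K2 + K3 + K4 + K5 + K6 + K7, by positivity, fun t x ht => ?_⟩
  have g1 := h1 t x ht
  have g2 := h2 t x ht
  have g3 := h3 t x ht
  have g4 := h4 t x ht
  have g5 := h5 t x ht
  have g6 := h6 t x ht
  have g7 := h7 t x ht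
  simp only at g6 g7
  refine ⟨?_, ?_, ?_, ?_, ?_, ?_, ?_⟩ <;> linarith

lemma w_near (h : CSol w u) (hX : Flow u X) (N : ℝ) : ∃ K : ℝ, 0 ≤ K ∧ ∀ t α z : ℝ, |t| ≤ N →
    w (0, z) = 0 → |w (t, X t α)| ≤ K * |X t α - X t z| := by
  obtain ⟨K, hK, hb⟩ := ubd h hX N
  refine ⟨K, hK, fun t α z ht hz => ?_⟩
  have h0 : w (t, X t z) = 0 := by rw [w_along h hX t z, hz, zero_mul]
  have h1 : ‖w (t, X t α) - w (t, X t z)‖ ≤ K * ‖X t α - X t z‖ :=
    Convex.norm_image_sub_le_of_norm_hasDerivWithin_le (f := fun y => w (t, y))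
      (f' := fun y => px w (t, y)) (s := univ)
      (fun y _ => (hasDerivAt_px w h.sm t y).hasDerivWithinAt)
      (fun y _ => (hb t y ht).2.1) convex_univ (mem_univ _) (mem_univ _)
  rw [h0, sub_zero, Real.norm_eq_abs, Real.norm_eq_abs] at h1
  exact h1

lemma xi_pos (h : CSol w u) (hX : Flow u X) {z p q : ℝ} (ha : Arc w z p q) (t α : ℝ)
    (hα : α ∈ Ioo p q) : 0 < |X t α - X t z| := by
  have hm := Flow.mono h.vel hX t
  have hne : α ≠ z := by
    rcases ha.z1 with hz | hz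
    · rw [hz]; exact hα.1.ne'
    · rw [hz]; exact hα.2.ne
  exact abs_pos.2 (sub_ne_zero.2 fun he => hne (hm.injective he))

lemma xi_lt (h : CSol w u) (hX : Flow u X) {z p q : ℝ} (ha : Arc w z p q) (t α : ℝ)
    (hα : α ∈ Ioo p q) : |X t α - X t z| < 2 * π := by
  have hm := Flow.mono h.vel hX t
  have hqp := ha.qp
  rcases ha.z1 with hz | hz
  · have h1 : X t α < X t (z + 2 * π) := hm (by rw [hz]; linarith [hα.2])
    have h2 : X t z < X t α := hm (by rw [hz]; exact hα.1)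
    rw [Flow.per h.vel hX] at h1
    rw [abs_of_pos (by linarith)]
    linarith
  · have h1 : X t z < X t (α + 2 * π) := hm (by rw [hz]; linarith [hα.1])
    have h2 : X t α < X t z := hm (by rw [hz]; exact hα.2)
    rw [Flow.per h.vel hX] at h1
    rw [abs_of_neg (by linarith)]
    linarith

end Pool.Agent.H45.DY
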