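import Pool.Agent.H45.DY.PhLem
import Pool.Agent.H45.DY.UnifBd

/-! JOB DY-05 (uses the stubs of `PhLem.lean`, `UnifBd.lean`).  Time derivative of `gI` at a fixed label.

* `gI_hasDerivAt`: `α ∈ (p,q)`, `z = p` or `z = q`.  If `z = p < α`: `|X t α - X t z| = X t α - X t z`
  for all `t` (`Flow.mono`), derivative `u(t,X t α) - u(t,X t z)`; `ph` by `ph_hasDerivAt` (`xi_pos`,
  `xi_lt`); `exp(2 lam)` by `lam_hasDerivAt_t`.  If `z = q > α` the modulus is `X t z - X t α`.
* `gd_cont_t`: `t ↦ gd u X z t α` is continuous (`dph_continuousOn`, continuity of `t ↦ X t α`, ...).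
* `gd_meas`: for fixed `t`, `α ↦ |w (0,α)| * gd u X z t α` is continuous on `Ioo p q`, hence
  `AEStronglyMeasurable` on it; also `|w (0,α)| * gI`.
* `gd_bound`: with `ξ = |X t α - X t z|`, `σ = ±1`, `X t α - X t z = σ ξ`:
  `|w(0,α)| exp(2 lam) = |w(t,X t α)| exp(lam) ≤ K ξ` (`w_along`, `w_near`), and
  `|2 u_x ph ξ + (u(X) - u(z)) σ dph ξ| ≤ |u_x| |2 ph ξ + ξ dph ξ| + K ξ² |dph ξ|`
  (`Vel.taylor` at `X t α`: `|u(z) - u(X) - u_x(X) (z - X)| ≤ K ξ²`) `≤ K + K π³/ξ`
  (`comb_le`, `abs_dph_le`); product `≤ K'` (`ξ ≤ 2π`). -/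

set_option autoImplicit false
open Real Set MeasureTheory

namespace Pool.Agent.H45.DY
open Pool.Agent.H45.FL Pool.Agent.H51.DG

variable {w u : ℝ × ℝ → ℝ} {X : ℝ → ℝ → ℝ}

/-- modulus, base zero on the left -/
lemma Gd_absL (h : CSol w u) (hX : Flow u X) {z α : ℝ} (hz : z < α) (t : ℝ) :
    |X t α - X t z| = X t α - X t z := by
  have hm := Flow.mono h.vel hX t
  exact abs_of_pos (sub_pos.2 (hm hz))

/-- modulus, base zero on the right -/
lemma Gd_absR (h : CSol w u) (hX : Flow u X) {z α : ℝ} (hz : α < z) (t : ℝ) :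
    |X t α - X t z| = X t z - X t α := by
  have hm := Flow.mono h.vel hX t
  rw [abs_sub_comm]
  exact abs_of_pos (sub_pos.2 (hm hz))

/-- the base zero lies on the left or on the right -/
lemma Gd_side {z p q : ℝ} (ha : Arc w z p q) :
    (∀ α ∈ Ioo p q, z < α) ∨ (∀ α ∈ Ioo p q, α < z) := by
  rcases ha.z1 with hz | hz
  · left
    intro α hα
    rw [hz]; exact hα.1
  · right
    intro α hα
    rw [hz]; exact hα.2

lemma gI_hasDerivAt (h : CSol w u) (hX : Flow u X) {z p q : ℝ} (ha : Arc w z p q) (t α : ℝ)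
    (hα : α ∈ Ioo p q) : HasDerivAt (fun s => gI u X z s α) (gd u X z t α) t := by
  have hξ0 := xi_pos h hX ha t α hα
  have hξ1 := xi_lt h hX ha t α hα
  have hph := ph_hasDerivAt _ hξ0 hξ1
  have hlam : HasDerivAt (fun s => Real.exp (2 * lam u X s α))
      (Real.exp (2 * lam u X t α) * (2 * px u (t, X t α))) t :=
    ((lam_hasDerivAt_t h.vel hX t α).const_mul 2).exp
  rcases Gd_side ha with hs | hs
  · have hz := hs α hα
    have e1 : (fun s => gI u X z s α) =
        fun s => Real.exp (2 * lam u X s α) * ph (X s α - X s z) := by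
      funext s
      unfold gI
      rw [Gd_absL h hX hz s]
    have e2 := Gd_absL h hX hz t
    rw [e2] at hph
    have h0 : HasDerivAt (fun s => X s α - X s z) (u (t, X t α) - u (t, X t z)) t :=
      (hX.ode t α).sub (hX.ode t z)
    have h1 : HasDerivAt (fun s => ph (X s α - X s z))
        (dph (X t α - X t z) * (u (t, X t α) - u (t, X t z))) t :=
      HasDerivAt.comp (h₂ := ph) (h := fun s => X s α - X s z) t hph h0
    rw [e1]
    refine (hlam.mul h1).congr_deriv ?_
    unfold gd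
    rw [if_pos hz, e2]
    ring
  · have hz := hs α hα
    have e1 : (fun s => gI u X z s α) =
        fun s => Real.exp (2 * lam u X s α) * ph (X s z - X s α) := by
      funext s
      unfold gI
      rw [Gd_absR h hX hz s]
    have e2 := Gd_absR h hX hz t
    rw [e2] at hph
    have h0 : HasDerivAt (fun s => X s z - X s α) (u (t, X t z) - u (t, X t α)) t :=
      (hX.ode t z).sub (hX.ode t α)
    have h1 : HasDerivAt (fun s => ph (X s z - X s α))
        (dph (X t z - X t α) * (u (t, X t z) - u (t, X t α))) t :=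
      HasDerivAt.comp (h₂ := ph) (h := fun s => X s z - X s α) t hph h0
    rw [e1]
    refine (hlam.mul h1).congr_deriv ?_
    unfold gd
    rw [if_neg (not_lt.2 hz.le), e2]
    ring

/-- `ph` is continuous on `(0,2π)` -/
lemma Gd_ph_cont : ContinuousOn ph (Ioo 0 (2 * π)) := fun ξ hξ =>
  (ph_hasDerivAt ξ hξ.1 hξ.2).continuousAt.continuousWithinAt

/-- joint continuity of `gI` and `gd` on `time × label interval` -/
lemma Gd_joint (h : CSol w u) (hX : Flow u X) {z p q : ℝ} (ha : Arc w z p q) :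
    ContinuousOn (fun r : ℝ × ℝ => gI u X z r.1 r.2) (univ ×ˢ Ioo p q) ∧
      ContinuousOn (fun r : ℝ × ℝ => gd u X z r.1 r.2) (univ ×ˢ Ioo p q) := by
  have hXc : Continuous fun r : ℝ × ℝ => X r.1 r.2 := Flow.cont h.vel hX
  have hXz : Continuous fun r : ℝ × ℝ => X r.1 z :=
    hXc.comp (continuous_fst.prodMk continuous_const)
  have hξc : Continuous fun r : ℝ × ℝ => |X r.1 r.2 - X r.1 z| := (hXc.sub hXz).abs
  have hmaps : MapsTo (fun r : ℝ × ℝ => |X r.1 r.2 - X r.1 z|) (univ ×ˢ Ioo p q)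
      (Ioo 0 (2 * π)) := fun r hr => ⟨xi_pos h hX ha r.1 r.2 hr.2, xi_lt h hX ha r.1 r.2 hr.2⟩
  have hph : ContinuousOn (fun r : ℝ × ℝ => ph |X r.1 r.2 - X r.1 z|) (univ ×ˢ Ioo p q) :=
    Gd_ph_cont.comp hξc.continuousOn hmaps
  have hdph : ContinuousOn (fun r : ℝ × ℝ => dph |X r.1 r.2 - X r.1 z|) (univ ×ˢ Ioo p q) :=
    dph_continuousOn.comp hξc.continuousOn hmaps
  have hE : Continuous fun r : ℝ × ℝ => Real.exp (2 * lam u X r.1 r.2) :=
    Real.continuous_exp.comp (continuous_const.mul (lam_cont h.vel hX))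
  have hpx : Continuous fun r : ℝ × ℝ => px u (r.1, X r.1 r.2) :=
    (smooth_px u h.vel.sm).continuous.comp (continuous_fst.prodMk hXc)
  have hu1 : Continuous fun r : ℝ × ℝ => u (r.1, X r.1 r.2) :=
    h.vel.sm.continuous.comp (continuous_fst.prodMk hXc)
  have hu2 : Continuous fun r : ℝ × ℝ => u (r.1, X r.1 z) :=
    h.vel.sm.continuous.comp (continuous_fst.prodMk hXz)
  refine ⟨hE.continuousOn.mul hph, ?_⟩
  have hif : ContinuousOn (fun r : ℝ × ℝ =>
      if z < r.2 then dph |X r.1 r.2 - X r.1 z| else -dph |X r.1 r.2 - X r.1 z|)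
      (univ ×ˢ Ioo p q) := by
    rcases Gd_side ha with hs | hs
    · refine hdph.congr fun r hr => ?_
      show (if z < r.2 then dph |X r.1 r.2 - X r.1 z| else -dph |X r.1 r.2 - X r.1 z|) = _
      rw [if_pos (hs r.2 hr.2)]
    · refine hdph.neg.congr fun r hr => ?_
      show (if z < r.2 then dph |X r.1 r.2 - X r.1 z| else -dph |X r.1 r.2 - X r.1 z|) = _
      rw [if_neg (not_lt.2 (hs r.2 hr.2).le)]
      rfl
  exact hE.continuousOn.mul ((((continuous_const.mul hpx).continuousOn).mul hph).add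
    ((hu1.sub hu2).continuousOn.mul hif))

lemma gd_cont_t (h : CSol w u) (hX : Flow u X) {z p q : ℝ} (ha : Arc w z p q) (α : ℝ)
    (hα : α ∈ Ioo p q) : Continuous fun t => gd u X z t α := by
  have h1 := (Gd_joint h hX ha).2
  have h2 : Continuous fun t : ℝ => ((t, α) : ℝ × ℝ) := continuous_id.prodMk continuous_const
  exact h1.comp_continuous h2 fun t => ⟨mem_univ _, hα⟩

/-- continuity in the label -/
lemma Gd_label {f : ℝ × ℝ → ℝ} {p q : ℝ} (hf : ContinuousOn f (univ ×ˢ Ioo p q)) (t : ℝ) :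
    ContinuousOn (fun α => f (t, α)) (Ioo p q) := by
  have h2 : Continuous fun α : ℝ => ((t, α) : ℝ × ℝ) := continuous_const.prodMk continuous_id
  exact hf.comp h2.continuousOn fun α hα => ⟨mem_univ _, hα⟩

/-- `α ↦ |w (0,α)|` is continuous -/
lemma Gd_w0 (h : CSol w u) : Continuous fun α => |w (0, α)| :=
  (h.sm.continuous.comp (continuous_const.prodMk continuous_id)).abs

lemma gd_meas (h : CSol w u) (hX : Flow u X) {z p q : ℝ} (ha : Arc w z p q) (t : ℝ) :
    AEStronglyMeasurable (fun α => |w (0, α)| * gd u X z t α) (volume.restrict (Ioo p q)) := by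
  have h1 : ContinuousOn (fun α => |w (0, α)| * gd u X z t α) (Ioo p q) :=
    (Gd_w0 h).continuousOn.mul (Gd_label (Gd_joint h hX ha).2 t)
  exact h1.aestronglyMeasurable measurableSet_Ioo

lemma gI_meas (h : CSol w u) (hX : Flow u X) {z p q : ℝ} (ha : Arc w z p q) (t : ℝ) :
    AEStronglyMeasurable (fun α => |w (0, α)| * (gI u X z t α - gI u X z 0 α))
      (volume.restrict (Ioo p q)) := by
  have h1 : ContinuousOn (fun α => |w (0, α)| * (gI u X z t α - gI u X z 0 α)) (Ioo p q) :=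
    (Gd_w0 h).continuousOn.mul
      ((Gd_label (Gd_joint h hX ha).1 t).sub (Gd_label (Gd_joint h hX ha).1 0))
  exact h1.aestronglyMeasurable measurableSet_Ioo

/-- the algebraic core of `gd_bound` -/
lemma Gd_core {ux uX uZ x y σ ξ P D K K2 : ℝ} (hσ : σ * σ = 1) (hx : x - y = σ * ξ)
    (hξ : 0 < ξ) (hux : |ux| ≤ K) (hr : |uZ - uX - ux * (y - x)| ≤ K2 * (y - x) ^ 2)
    (hK2 : 0 ≤ K2) (hc : |2 * P + ξ * D| ≤ 1) (hD : |D| ≤ π ^ 3 / ξ ^ 3) :
    |2 * ux * P + (uX - uZ) * (σ * D)| ≤ K + K2 * π ^ 3 / ξ := by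
  have hK : 0 ≤ K := (abs_nonneg _).trans hux
  have hσ1 : |σ| = 1 := by
    have h1 : |σ| * |σ| = 1 := by rw [← abs_mul, hσ, abs_one]
    nlinarith [abs_nonneg σ]
  have e1 : 2 * ux * P + (uX - uZ) * (σ * D) =
      ux * (2 * P + ξ * D) + -((uZ - uX - ux * (y - x)) * (σ * D)) := by
    have e2 : uX - uZ = ux * (σ * ξ) - (uZ - uX - ux * (y - x)) := by
      rw [← hx]; ring
    rw [e2]
    linear_combination (ux * ξ * D) * hσ
  have e3 : (y - x) ^ 2 = ξ ^ 2 := by
    have e4 : y - x = -(σ * ξ) := by rw [← hx]; ring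
    rw [e4]
    linear_combination (ξ ^ 2) * hσ
  rw [e3] at hr
  have h2 : |ux * (2 * P + ξ * D)| ≤ K := by
    rw [abs_mul]
    calc |ux| * |2 * P + ξ * D| ≤ K * 1 := mul_le_mul hux hc (abs_nonneg _) hK
      _ = K := mul_one K
  have h3 : |-((uZ - uX - ux * (y - x)) * (σ * D))| ≤ K2 * π ^ 3 / ξ := by
    rw [abs_neg, abs_mul, abs_mul, hσ1, one_mul]
    calc |uZ - uX - ux * (y - x)| * |D| ≤ K2 * ξ ^ 2 * (π ^ 3 / ξ ^ 3) :=
          mul_le_mul hr hD (abs_nonneg _) (by positivity)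
      _ = K2 * π ^ 3 / ξ := by field_simp
  rw [e1]
  exact (abs_add_le _ _).trans (add_le_add h2 h3)

lemma gd_bound (h : CSol w u) (hX : Flow u X) {z p q : ℝ} (ha : Arc w z p q) (N : ℝ) :
    ∃ K : ℝ, 0 ≤ K ∧ ∀ t α : ℝ, |t| ≤ N → α ∈ Ioo p q → |w (0, α)| * |gd u X z t α| ≤ K := by
  obtain ⟨K, hK, hb⟩ := ubd h hX N
  obtain ⟨K1, hK1, hw⟩ := w_near h hX N
  obtain ⟨K2, hK2, ht2⟩ := h.vel.taylor
  have hπ := Real.pi_pos
  refine ⟨K1 * Real.exp K * (2 * π * K + K2 * π ^ 3), by positivity, fun t α ht hα => ?_⟩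
  have hξ0 := xi_pos h hX ha t α hα
  have hξ1 := xi_lt h hX ha t α hα
  have hcore : |2 * px u (t, X t α) * ph |X t α - X t z| +
      (u (t, X t α) - u (t, X t z)) *
        (if z < α then dph |X t α - X t z| else -dph |X t α - X t z|)| ≤
      K + K2 * π ^ 3 / |X t α - X t z| := by
    have hux := (hb t (X t α) ht).2.2.2.1
    have hr := ht2 t (X t α) (X t z)
    have hc := comb_le _ hξ0 hξ1
    have hD := abs_dph_le _ hξ0 hξ1
    rcases Gd_side ha with hs | hs
    · have hz := hs α hα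
      rw [if_pos hz]
      have h1 := Gd_core (σ := 1) (ux := px u (t, X t α)) (uX := u (t, X t α))
        (uZ := u (t, X t z)) (x := X t α) (y := X t z) (ξ := |X t α - X t z|)
        (P := ph |X t α - X t z|) (D := dph |X t α - X t z|) (K := K) (K2 := K2)
        (by norm_num) (by rw [one_mul, Gd_absL h hX hz t]) hξ0 hux hr hK2 hc hD
      rw [one_mul] at h1
      exact h1
    · have hz := hs α hα
      rw [if_neg (not_lt.2 hz.le)]
      have h1 := Gd_core (σ := -1) (ux := px u (t, X t α)) (uX := u (t, X t α))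
        (uZ := u (t, X t z)) (x := X t α) (y := X t z) (ξ := |X t α - X t z|)
        (P := ph |X t α - X t z|) (D := dph |X t α - X t z|) (K := K) (K2 := K2)
        (by norm_num) (by rw [Gd_absR h hX hz t]; ring) hξ0 hux hr hK2 hc hD
      rw [neg_one_mul] at h1
      exact h1
  have hw1 : |w (0, α)| * Real.exp (2 * lam u X t α) ≤
      K1 * |X t α - X t z| * Real.exp K := by
    have e1 : |w (0, α)| * Real.exp (2 * lam u X t α) =
        |w (t, X t α)| * Real.exp (lam u X t α) := by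
      rw [w_along h hX t α, abs_mul, Real.abs_exp, mul_assoc, ← Real.exp_add]
      ring_nf
    rw [e1]
    have e2 : Real.exp (lam u X t α) ≤ Real.exp K :=
      Real.exp_le_exp.2 ((le_abs_self _).trans (hb t α ht).2.2.2.2.2.1)
    exact mul_le_mul (hw t α z ht ha.z0) e2 (Real.exp_pos _).le (by positivity)
  have e3 : |w (0, α)| * |gd u X z t α| = |w (0, α)| * Real.exp (2 * lam u X t α) *
      |2 * px u (t, X t α) * ph |X t α - X t z| +
      (u (t, X t α) - u (t, X t z)) *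
        (if z < α then dph |X t α - X t z| else -dph |X t α - X t z|)| := by
    unfold gd
    rw [abs_mul, Real.abs_exp, ← mul_assoc]
  rw [e3]
  generalize |X t α - X t z| = ξ at *
  calc _ ≤ K1 * ξ * Real.exp K * (K + K2 * π ^ 3 / ξ) :=
        mul_le_mul hw1 hcore (abs_nonneg _) (by positivity)
    _ = K1 * Real.exp K * (ξ * K + K2 * π ^ 3) := by field_simp
    _ ≤ K1 * Real.exp K * (2 * π * K + K2 * π ^ 3) := by gcongr

end Pool.Agent.H45.DY
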