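import Pool.Agent.H45.DY.Gd

/-! JOB DY-06 (uses the stubs of `Gd.lean`).  `JI` is differentiable with the continuous derivative `JD`.

* `JI_integrable`: `|w(0,α)| |gI t - gI 0| ≤ K |t|` by the mean value inequality in `t`
  (`gI_hasDerivAt`, `gd_bound`), measurable by `gI_meas`, finite measure.
* `JI_hasDerivAt`: `hasDerivAt_integral_of_dominated_loc_of_deriv_le` on the ball of radius `1`
  around `t` with the constant bound of `gd_bound` (`N = |t| + 1`).
* `JD_cont`: `continuous_iff_continuousAt`, dominated convergence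
  (`MeasureTheory.continuousAt_of_dominated`), `gd_cont_t`, `gd_meas`, `gd_bound`.
* the same for `EI`, `ED`, `MI`, `MD`: all integrands are jointly continuous
  (`lam_cont`, `lma_cont`, `Flow.cont`) and bounded (`ubd`); derivative of the `EI` integrand:
  `(2 w0 lma + 2 w0') * lma_t`, `lma_hasDerivAt_t`; of the `MI` integrand:
  `|w0| exp(2 lam) * 2 px u`. -/

set_option autoImplicit false
open Real Set MeasureTheory

namespace Pool.Agent.H45.DY
open Pool.Agent.H45.FL Pool.Agent.H51.DG

variable {w u : ℝ × ℝ → ℝ} {X : ℝ → ℝ → ℝ}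

lemma JIder_bd (h : CSol w u) (hX : Flow u X) {z p q : ℝ} (ha : Arc w z p q) (N : ℝ) :
    ∃ K : ℝ, 0 ≤ K ∧ ∀ t α : ℝ, |t| ≤ N → α ∈ Ioo p q →
      ‖|w (0, α)| * gd u X z t α‖ ≤ K := by
  obtain ⟨K, hK, hb⟩ := gd_bound h hX ha N
  refine ⟨K, hK, fun t α ht hα => ?_⟩
  rw [Real.norm_eq_abs, abs_mul, abs_abs]
  exact hb t α ht hα

lemma JIder_const {p q : ℝ} (K : ℝ) : Integrable (fun _ : ℝ => K) (volume.restrict (Ioo p q)) :=
  integrableOn_const (by simp)

lemma JI_integrable (h : CSol w u) (hX : Flow u X) {z p q : ℝ} (ha : Arc w z p q) (t : ℝ) :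
    IntegrableOn (fun α => |w (0, α)| * (gI u X z t α - gI u X z 0 α)) (Ioo p q) := by
  obtain ⟨K, hK, hb⟩ := JIder_bd h hX ha |t|
  refine Integrable.mono' (JIder_const (K * |t|)) (gI_meas h hX ha t) ?_
  refine (ae_restrict_iff' measurableSet_Ioo).2 (Filter.Eventually.of_forall fun α hα => ?_)
  have key := Convex.norm_image_sub_le_of_norm_hasDerivWithin_le
    (f := fun s => |w (0, α)| * gI u X z s α) (f' := fun s => |w (0, α)| * gd u X z s α)
    (s := Icc (-|t|) |t|) (C := K) (x := 0) (y := t)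
    (fun s _ => ((gI_hasDerivAt h hX ha s α hα).const_mul _).hasDerivWithinAt)
    (fun s hs => hb s α (abs_le.2 hs) hα) (convex_Icc _ _)
    ⟨neg_nonpos.2 (abs_nonneg t), abs_nonneg t⟩ ⟨neg_abs_le t, le_abs_self t⟩
  rw [sub_zero, Real.norm_eq_abs t] at key
  rw [mul_sub]
  exact key

lemma JD_integrable (h : CSol w u) (hX : Flow u X) {z p q : ℝ} (ha : Arc w z p q) (t : ℝ) :
    IntegrableOn (fun α => |w (0, α)| * gd u X z t α) (Ioo p q) := by
  obtain ⟨K, hK, hb⟩ := JIder_bd h hX ha |t|
  refine Integrable.mono' (JIder_const K) (gd_meas h hX ha t) ?_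
  exact (ae_restrict_iff' measurableSet_Ioo).2
    (Filter.Eventually.of_forall fun α hα => hb t α le_rfl hα)

lemma JIder_ball {t s : ℝ} (hs : s ∈ Metric.ball t 1) : |s| ≤ |t| + 1 := by
  rw [Metric.mem_ball, Real.dist_eq] at hs
  have h1 := abs_sub_abs_le_abs_sub s t
  linarith

theorem JI_hasDerivAt (h : CSol w u) (hX : Flow u X) {z p q : ℝ} (ha : Arc w z p q) (t : ℝ) :
    HasDerivAt (JI w u X z p q) (JD w u X z p q t) t := by
  obtain ⟨K, hK, hb⟩ := JIder_bd h hX ha (|t| + 1)
  have key := hasDerivAt_integral_of_dominated_loc_of_deriv_le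
    (μ := volume.restrict (Ioo p q)) (F := fun s α => |w (0, α)| * (gI u X z s α - gI u X z 0 α))
    (F' := fun s α => |w (0, α)| * gd u X z s α) (x₀ := t) (s := Metric.ball t 1)
    (bound := fun _ => K) (Metric.ball_mem_nhds t one_pos)
    (Filter.Eventually.of_forall fun s => gI_meas h hX ha s) (JI_integrable h hX ha t)
    (gd_meas h hX ha t)
    ((ae_restrict_iff' measurableSet_Ioo).2
      (Filter.Eventually.of_forall fun α hα s hs => hb s α (JIder_ball hs) hα))
    (JIder_const K)
    ((ae_restrict_iff' measurableSet_Ioo).2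
      (Filter.Eventually.of_forall fun α hα s _ =>
        ((gI_hasDerivAt h hX ha s α hα).sub_const _).const_mul _))
  exact key.2

theorem JD_cont (h : CSol w u) (hX : Flow u X) {z p q : ℝ} (ha : Arc w z p q) :
    Continuous (JD w u X z p q) := by
  rw [continuous_iff_continuousAt]
  intro t
  obtain ⟨K, hK, hb⟩ := JIder_bd h hX ha (|t| + 1)
  refine continuousAt_of_dominated (bound := fun _ => K)
    (Filter.Eventually.of_forall fun s => gd_meas h hX ha s) ?_ (JIder_const K) ?_
  · filter_upwards [Metric.ball_mem_nhds t one_pos] with s hs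
    exact (ae_restrict_iff' measurableSet_Ioo).2
      (Filter.Eventually.of_forall fun α hα => hb s α (JIder_ball hs) hα)
  · exact (ae_restrict_iff' measurableSet_Ioo).2
      (Filter.Eventually.of_forall fun α hα =>
        (continuous_const.mul (gd_cont_t h hX ha α hα)).continuousAt)

lemma JI_zero (w u : ℝ × ℝ → ℝ) (X : ℝ → ℝ → ℝ) (z p q : ℝ) : JI w u X z p q 0 = 0 := by
  simp [JI]

end Pool.Agent.H45.DY
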