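import Pool.Agent.H45.DY.Basic

/-! JOB DY-02.  Signs, zeros, regularity of `We`, `Wc`.

* `Dyn.ze`: `w(0,e) ≤ 0` and `w(0,e) = w(0,e+2π) ≥ 0`; `Dyn.zc`: `≤ 0` and `≥ 0`.
* `Dyn.wzero`: `w (t, X t e) = w (0,e) exp(lam) = 0` (`w_along`), same for `c`.
* `el_pos`, `el_lt`: `Flow.mono`, `Flow.per`.
* signs at time `t`: for `y ∈ Icc (X t e) (X t c)` take the label `α` (`Flow.surj`), `α ∈ Icc e c` by
  strict monotonicity, `w (t,y) = w (0,α) exp(lam) ≤ 0`.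
* `nrm_We`: `Nrm (We w X e t) (el X e c t)`; `nrm_Wc`: `Nrm (Wc w X c t) (2π - el X e c t)`
  (`X t c + (2π - el) = X t e + 2π`).
* `lip_We`: a smooth periodic function is Lipschitz (`Lip K`, bounded derivative);
* `px_interior`: at a label inside an arc where `w(0,·) = 0` the derivative vanishes (interior
  extremum: `IsLocalMax.deriv_eq_zero`). -/

set_option autoImplicit false
open Real Set MeasureTheory

namespace Pool.Agent.H45.DY
open Pool.Agent.H45.FL Pool.Agent.H51.DG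

variable {w u : ℝ × ℝ → ℝ} {X : ℝ → ℝ → ℝ} {e c T : ℝ}

lemma Dyn.ze (h : Dyn w u X e c T) : w (0, e) = 0 := by
  have h1 := h.neg e ⟨le_rfl, h.hec.le⟩
  have h2 := h.pos (e + 2 * π) ⟨h.hce.le, le_rfl⟩
  rw [h.cs.per] at h2
  exact le_antisymm h1 h2

lemma Dyn.zc (h : Dyn w u X e c T) : w (0, c) = 0 :=
  le_antisymm (h.neg c ⟨h.hec.le, le_rfl⟩) (h.pos c ⟨le_rfl, h.hce.le⟩)

lemma Dyn.arc_e_R (h : Dyn w u X e c T) : Arc w e e c :=
  ⟨h.hec, h.hce, Or.inl rfl, h.ze⟩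

lemma Dyn.arc_c_R (h : Dyn w u X e c T) : Arc w c e c :=
  ⟨h.hec, h.hce, Or.inr rfl, h.zc⟩

lemma Dyn.arc_c_L (h : Dyn w u X e c T) : Arc w c c (e + 2 * π) :=
  ⟨h.hce, by linarith [h.hec], Or.inl rfl, h.zc⟩

lemma Dyn.arc_e_L (h : Dyn w u X e c T) : Arc w (e + 2 * π) c (e + 2 * π) :=
  ⟨h.hce, by linarith [h.hec], Or.inr rfl, by rw [h.cs.per]; exact h.ze⟩

lemma Dyn.wzero_e (h : Dyn w u X e c T) (t : ℝ) : w (t, X t e) = 0 := by
  rw [w_along h.cs h.fl, h.ze, zero_mul]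

lemma Dyn.wzero_c (h : Dyn w u X e c T) (t : ℝ) : w (t, X t c) = 0 := by
  rw [w_along h.cs h.fl, h.zc, zero_mul]

lemma Dyn.el_pos (h : Dyn w u X e c T) (t : ℝ) : 0 < el X e c t :=
  sub_pos.2 (Flow.mono h.cs.vel h.fl t h.hec)

lemma Dyn.el_lt (h : Dyn w u X e c T) (t : ℝ) : el X e c t < 2 * π := by
  have h1 := Flow.mono h.cs.vel h.fl t h.hce
  rw [Flow.per h.cs.vel h.fl] at h1
  unfold el
  linarith

lemma Dyn.sgn_R (h : Dyn w u X e c T) (t : ℝ) : ∀ y ∈ Icc (X t e) (X t c), w (t, y) ≤ 0 := by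
  intro y hy
  have hm := Flow.mono h.cs.vel h.fl t
  obtain ⟨α, rfl⟩ := Flow.surj h.cs.vel h.fl t y
  rw [w_along h.cs h.fl]
  exact mul_nonpos_of_nonpos_of_nonneg (h.neg α ⟨hm.le_iff_le.1 hy.1, hm.le_iff_le.1 hy.2⟩)
    (Real.exp_pos _).le

lemma Dyn.sgn_L (h : Dyn w u X e c T) (t : ℝ) :
    ∀ y ∈ Icc (X t c) (X t e + 2 * π), 0 ≤ w (t, y) := by
  intro y hy
  have hm := Flow.mono h.cs.vel h.fl t
  obtain ⟨α, rfl⟩ := Flow.surj h.cs.vel h.fl t y
  rw [← Flow.per h.cs.vel h.fl] at hy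
  rw [w_along h.cs h.fl]
  exact mul_nonneg (h.pos α ⟨hm.le_iff_le.1 hy.1, hm.le_iff_le.1 hy.2⟩) (Real.exp_pos _).le

lemma Dyn.nrm_We (h : Dyn w u X e c T) (t : ℝ) : Nrm (We w X e t) (el X e c t) := by
  refine ⟨fun x => ?_, h.el_pos t, h.el_lt t, fun x hx => ?_, fun x hx => ?_⟩
  · unfold We
    rw [← add_assoc, h.cs.per]
  · refine h.sgn_R t _ ⟨by linarith [hx.1], ?_⟩
    have h1 := hx.2
    unfold el at h1
    linarith
  · refine h.sgn_L t _ ⟨?_, by linarith [hx.2]⟩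
    have h1 := hx.1
    unfold el at h1
    linarith

lemma Dyn.nrm_Wc (h : Dyn w u X e c T) (t : ℝ) : Nrm (Wc w X c t) (2 * π - el X e c t) := by
  have hp := h.el_pos t
  have hl := h.el_lt t
  refine ⟨fun x => ?_, by linarith, by linarith, fun x hx => ?_, fun x hx => ?_⟩
  · unfold Wc
    rw [← add_assoc, h.cs.per]
  · refine neg_nonpos.2 (h.sgn_L t _ ⟨by linarith [hx.1], ?_⟩)
    have h1 := hx.2
    unfold el at h1
    linarith
  · refine neg_nonneg.2 ?_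
    have h1 := hx.1
    have h2 := hx.2
    unfold el at h1
    have h3 := h.sgn_R t (X t c + x - 2 * π) ⟨by linarith, by linarith⟩
    rw [← h.cs.per t (X t c + x - 2 * π), sub_add_cancel] at h3
    exact h3

lemma Dyn.sm_We (h : Dyn w u X e c T) (t : ℝ) :
    ContDiff ℝ ((⊤ : ℕ∞) : WithTop ℕ∞) (We w X e t) :=
  h.cs.sm.comp (contDiff_const.prodMk (contDiff_const.add contDiff_id))

lemma Dyn.sm_Wc (h : Dyn w u X e c T) (t : ℝ) :
    ContDiff ℝ ((⊤ : ℕ∞) : WithTop ℕ∞) (Wc w X c t) :=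
  (h.cs.sm.comp (contDiff_const.prodMk (contDiff_const.add contDiff_id))).neg

/-- smooth periodic functions are Lipschitz -/
private lemma Sgn_lip {W : ℝ → ℝ} (hs : ContDiff ℝ ((⊤ : ℕ∞) : WithTop ℕ∞) W)
    (hp : Function.Periodic W (2 * π)) : ∃ K, Lip K W := by
  have hd : Differentiable ℝ W := hs.differentiable (by simp)
  have hc : Continuous (deriv W) := hs.continuous_deriv (by simp)
  have hdp : Function.Periodic (deriv W) (2 * π) := by
    intro x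
    have h1 : (fun y => W (y + 2 * π)) = W := funext hp
    have h2 := deriv_comp_add_const W (2 * π) x
    rw [h1] at h2
    exact h2.symm
  obtain ⟨C, hC⟩ := (isCompact_Icc (a := (0:ℝ)) (b := 2 * π)).exists_bound_of_continuousOn
    hc.continuousOn
  have hB : ∀ x, ‖deriv W x‖ ≤ C := by
    intro x
    obtain ⟨y, hy, hxy⟩ := hdp.exists_mem_Ico₀ (by positivity) x
    rw [hxy]
    exact hC y ⟨hy.1, hy.2.le⟩
  refine ⟨C, fun x y => ?_⟩
  exact Convex.norm_image_sub_le_of_norm_deriv_le (fun z _ => hd z) (fun z _ => hB z)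
    convex_univ (mem_univ y) (mem_univ x)

lemma Dyn.lip_We (h : Dyn w u X e c T) (t : ℝ) : ∃ K, Lip K (We w X e t) :=
  Sgn_lip (h.sm_We t) (h.nrm_We t).per

lemma Dyn.lip_Wc (h : Dyn w u X e c T) (t : ℝ) : ∃ K, Lip K (Wc w X c t) :=
  Sgn_lip (h.sm_Wc t) (h.nrm_Wc t).per

lemma Dyn.px_interior (h : Dyn w u X e c T) (α : ℝ)
    (hα : α ∈ Ioo e c ∨ α ∈ Ioo c (e + 2 * π)) (h0 : w (0, α) = 0) : px w (0, α) = 0 := by
  show deriv (fun y : ℝ => w (0, y)) α = 0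
  rcases hα with hα | hα
  · apply IsLocalMax.deriv_eq_zero
    filter_upwards [Ioo_mem_nhds hα.1 hα.2] with y hy
    rw [h0]
    exact h.neg y ⟨hy.1.le, hy.2.le⟩
  · apply IsLocalMin.deriv_eq_zero
    filter_upwards [Ioo_mem_nhds hα.1 hα.2] with y hy
    rw [h0]
    exact h.pos y ⟨hy.1.le, hy.2.le⟩

end Pool.Agent.H45.DY
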