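import Pool.Agent.H45.DY.LB
import Pool.Agent.H45.DY.JIder
import Pool.Agent.H45.DY.Sgn

/-! JOB DY-16 (uses the stubs `LB`, `JI_integrable`, ...).  Lower bound of `J_e`, with a constant that
depends on the initial value only.

PROOF.  `LB` for `a ξ = -w0 (e+ξ)`, `Λ = c - e` and for `a ξ = w0 (e+2π-ξ)`, `Λ = e + 2π - c`; `C` is
the sum of the two constants.  Given the solution: first arc `y ξ = X t (e+ξ) - X t e`,
`y' ξ = exp(lam t (e+ξ))` (`Flow.hasDerivAt_label`, `t ≥ 0`; continuous by `lam_cont`),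
`y Λ = X t c - X t e < 2π`; second arc `y ξ = X t (e+2π) - X t (e+2π-ξ)`,
`y' ξ = exp(lam t (e+2π-ξ))`, `y' 0 = exp(lam t (e+2π)) = exp(lam t e)` (`lam_per`).  The integrals
are `JI` after the substitution `α = e + ξ` resp. `α = e + 2π - ξ`:
`|w(0,α)| (gI z t α - gI z 0 α) = a ξ (y'² ph(y) - ph ξ)` since `gI z 0 α = ph |α - z|`
(`X 0 α = α`, `lam u X 0 α = 0`) and `gI z t α = exp(2 lam) ph(y)`; integrability: `JI_integrable`.
`deriv a 0 = -deriv w0 e` in both cases (`w0` periodic), and `deriv w0 e ≤ 0`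
(`w0 ≤ 0 = w0 e` on the right of `e`), so `2 (-w0'(e)) lam + 2 (-w0'(e)) lam = 4 |w0'(e)| lam`. -/

set_option autoImplicit false
open Real Set MeasureTheory

namespace Pool.Agent.H45.DY
open Pool.Agent.H45.FL Pool.Agent.H51.DG

private lemma Jlow_gI0 {u : ℝ × ℝ → ℝ} {X : ℝ → ℝ → ℝ} (hX : Flow u X) (z α : ℝ) :
    gI u X z 0 α = ph |α - z| := by
  unfold gI
  rw [lam_zero, hX.init, hX.init, mul_zero, Real.exp_zero, one_mul]

private lemma Jlow_exp (x : ℝ) : Real.exp (2 * x) = Real.exp x ^ 2 := by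
  rw [two_mul, Real.exp_add, sq]

private lemma Jlow_deriv {w0 : ℝ → ℝ} {e c : ℝ} (hd : Differentiable ℝ w0) (hec : e < c)
    (h0 : w0 e = 0) (hn : ∀ x ∈ Icc e c, w0 x ≤ 0) : deriv w0 e ≤ 0 := by
  have h1 := hasDerivAt_iff_tendsto_slope.1 (hd e).hasDerivAt
  have h2 : Filter.Tendsto (slope w0 e) (nhdsWithin e (Ioi e)) (nhds (deriv w0 e)) :=
    h1.mono_left (nhdsWithin_mono _ fun x hx => ne_of_gt hx)
  refine le_of_tendsto h2 ?_
  filter_upwards [Ioo_mem_nhdsGT hec] with x hx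
  rw [slope_def_field, h0, sub_zero]
  exact div_nonpos_of_nonpos_of_nonneg (hn x ⟨hx.1.le, hx.2.le⟩) (by linarith [hx.1])

private lemma Jlow_R {w u : ℝ × ℝ → ℝ} {X : ℝ → ℝ → ℝ} {e c T : ℝ} {w0 : ℝ → ℝ}
    (h : Dyn w u X e c T) (hw : ∀ x, w (0, x) = w0 x) (t : ℝ) :
    IntegrableOn (fun ξ => (-w0 (e + ξ)) * (Real.exp (lam u X t (e + ξ)) ^ 2 *
      ph (X t (e + ξ) - X t e) - ph ξ)) (Ioo 0 (c - e)) ∧
    ∫ ξ in Ioo 0 (c - e), (-w0 (e + ξ)) * (Real.exp (lam u X t (e + ξ)) ^ 2 *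
      ph (X t (e + ξ) - X t e) - ph ξ) = JI w u X e e c t := by
  have hpt : ∀ ξ ∈ Ioo 0 (c - e), (fun α => |w (0, α)| * (gI u X e t α - gI u X e 0 α)) (e + ξ) =
      (-w0 (e + ξ)) * (Real.exp (lam u X t (e + ξ)) ^ 2 * ph (X t (e + ξ) - X t e) - ph ξ) := by
    intro ξ hξ
    have h1 := h.neg (e + ξ) ⟨by linarith [hξ.1], by linarith [hξ.2]⟩
    have h2 := Flow.mono h.cs.vel h.fl t (show e < e + ξ by linarith [hξ.1])
    simp only
    rw [abs_of_nonpos h1, hw, Jlow_gI0 h.fl]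
    unfold gI
    rw [Jlow_exp, abs_of_pos (sub_pos.2 h2), add_sub_cancel_left, abs_of_pos hξ.1]
  have hmp := measurePreserving_add_left (volume : Measure ℝ) e
  have hme : MeasurableEmbedding (fun ξ : ℝ => e + ξ) :=
    (MeasurableEquiv.addLeft e).measurableEmbedding
  have hpre : (fun ξ : ℝ => e + ξ) ⁻¹' Ioo e c = Ioo 0 (c - e) := by
    rw [Set.preimage_const_add_Ioo, sub_self]
  have hi := JI_integrable h.cs h.fl h.arc_e_R t
  rw [← hmp.integrableOn_comp_preimage hme, hpre] at hi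
  constructor
  · exact (integrableOn_congr_fun hpt measurableSet_Ioo).1 hi
  · unfold JI
    have h7 := hmp.setIntegral_preimage_emb hme
      (fun α => |w (0, α)| * (gI u X e t α - gI u X e 0 α)) (Ioo e c)
    rw [hpre] at h7
    rw [← h7]
    exact (setIntegral_congr_fun measurableSet_Ioo hpt).symm

private lemma Jlow_L {w u : ℝ × ℝ → ℝ} {X : ℝ → ℝ → ℝ} {e c T : ℝ} {w0 : ℝ → ℝ}
    (h : Dyn w u X e c T) (hw : ∀ x, w (0, x) = w0 x) (t : ℝ) :
    IntegrableOn (fun ξ => (w0 (e + 2 * π - ξ)) * (Real.exp (lam u X t (e + 2 * π - ξ)) ^ 2 *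
      ph (X t (e + 2 * π) - X t (e + 2 * π - ξ)) - ph ξ)) (Ioo 0 (e + 2 * π - c)) ∧
    ∫ ξ in Ioo 0 (e + 2 * π - c), (w0 (e + 2 * π - ξ)) *
      (Real.exp (lam u X t (e + 2 * π - ξ)) ^ 2 *
      ph (X t (e + 2 * π) - X t (e + 2 * π - ξ)) - ph ξ) =
      JI w u X (e + 2 * π) c (e + 2 * π) t := by
  have hpt : ∀ ξ ∈ Ioo 0 (e + 2 * π - c),
      (fun α => |w (0, α)| * (gI u X (e + 2 * π) t α - gI u X (e + 2 * π) 0 α)) (e + 2 * π - ξ) =
      (w0 (e + 2 * π - ξ)) * (Real.exp (lam u X t (e + 2 * π - ξ)) ^ 2 *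
      ph (X t (e + 2 * π) - X t (e + 2 * π - ξ)) - ph ξ) := by
    intro ξ hξ
    have h1 := h.pos (e + 2 * π - ξ) ⟨by linarith [hξ.2], by linarith [hξ.1]⟩
    have h2 := Flow.mono h.cs.vel h.fl t (show e + 2 * π - ξ < e + 2 * π by linarith [hξ.1])
    simp only
    rw [abs_of_nonneg h1, hw, Jlow_gI0 h.fl]
    unfold gI
    rw [Jlow_exp, abs_sub_comm, abs_of_pos (sub_pos.2 h2),
      show e + 2 * π - ξ - (e + 2 * π) = -ξ by ring, abs_neg, abs_of_pos hξ.1]
  have hmp := MeasureTheory.Measure.measurePreserving_sub_left (volume : Measure ℝ) (e + 2 * π)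
  have hme : MeasurableEmbedding (fun ξ : ℝ => e + 2 * π - ξ) :=
    (MeasurableEquiv.subLeft (e + 2 * π)).measurableEmbedding
  have hpre : (fun ξ : ℝ => e + 2 * π - ξ) ⁻¹' Ioo c (e + 2 * π) = Ioo 0 (e + 2 * π - c) := by
    rw [Set.preimage_const_sub_Ioo, sub_self]
  have hi := JI_integrable h.cs h.fl h.arc_e_L t
  rw [← hmp.integrableOn_comp_preimage hme, hpre] at hi
  constructor
  · exact (integrableOn_congr_fun hpt measurableSet_Ioo).1 hi
  · unfold JI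
    have h7 := hmp.setIntegral_preimage_emb hme
      (fun α => |w (0, α)| * (gI u X (e + 2 * π) t α - gI u X (e + 2 * π) 0 α))
      (Ioo c (e + 2 * π))
    rw [hpre] at h7
    rw [← h7]
    exact (setIntegral_congr_fun measurableSet_Ioo hpt).symm

theorem J_low (w0 : ℝ → ℝ) (e c : ℝ) (hs : ContDiff ℝ ((⊤ : ℕ∞) : WithTop ℕ∞) w0)
    (hp : Function.Periodic w0 (2 * π)) (hec : e < c) (hce : c < e + 2 * π)
    (hn : ∀ x ∈ Icc e c, w0 x ≤ 0) (hpo : ∀ x ∈ Icc c (e + 2 * π), 0 ≤ w0 x) :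
    ∃ C : ℝ, 0 ≤ C ∧ ∀ (w u : ℝ × ℝ → ℝ) (X : ℝ → ℝ → ℝ) (T : ℝ), Dyn w u X e c T →
      (∀ x, w (0, x) = w0 x) → ∀ t : ℝ, 0 ≤ t → ∀ Z : ℝ, 0 ≤ Z →
      (∀ α ∈ Ioo e c, VV (α - e) - Z ≤ VV (X t α - X t e)) →
      (∀ α ∈ Ioo c (e + 2 * π), VV (e + 2 * π - α) - Z ≤ VV (X t (e + 2 * π) - X t α)) →
      -(JI w u X e e c t + JI w u X (e + 2 * π) c (e + 2 * π) t) ≤
        4 * |deriv w0 e| * lam u X t e + C * (1 + Z) := by
  have we : w0 e = 0 := by
    have h1 := hn e ⟨le_rfl, hec.le⟩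
    have h2 := hpo (e + 2 * π) ⟨hce.le, le_rfl⟩
    rw [hp] at h2
    exact le_antisymm h1 h2
  have wc : w0 c = 0 := le_antisymm (hn c ⟨hec.le, le_rfl⟩) (hpo c ⟨le_rfl, hce.le⟩)
  have hd : Differentiable ℝ w0 := hs.differentiable (by simp)
  have hde : deriv w0 e ≤ 0 := Jlow_deriv hd hec we hn
  have hs2 : ContDiff ℝ 2 w0 := by exact_mod_cast contDiff_infty.1 hs 2
  obtain ⟨C1, hC1, H1⟩ := LB (fun ξ => -w0 (e + ξ))
    (hs2.comp (contDiff_const.add contDiff_id)).neg (c - e) (by linarith) (by linarith)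
    (by simp [we]) (by simp [wc])
    (fun x hx => by
      have := hn (e + x) ⟨by linarith [hx.1], by linarith [hx.2]⟩
      linarith)
  obtain ⟨C2, hC2, H2⟩ := LB (fun ξ => w0 (e + 2 * π - ξ))
    (hs2.comp (contDiff_const.sub contDiff_id)) (e + 2 * π - c) (by linarith) (by linarith)
    (by simp only [sub_zero]; rw [hp, we]) (by simp [wc])
    (fun x hx => hpo (e + 2 * π - x) ⟨by linarith [hx.2], by linarith [hx.1]⟩)
  refine ⟨C1 + C2, by linarith, ?_⟩
  intro w u X T h hw t ht Z hZ hV1 hV2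
  have hlc : Continuous fun p : ℝ × ℝ => lam u X p.1 p.2 := lam_cont h.cs.vel h.fl
  obtain ⟨i1, e1⟩ := Jlow_R h hw t
  obtain ⟨i2, e2⟩ := Jlow_L h hw t
  have K1 := H1 (fun ξ => X t (e + ξ) - X t e) (fun ξ => Real.exp (lam u X t (e + ξ)))
    (fun ξ _ => ((Flow.hasDerivAt_label h.cs.vel h.fl t (e + ξ) ht).comp_const_add e ξ).sub_const _)
    (Real.continuous_exp.comp (hlc.comp
      (continuous_const.prodMk (continuous_const.add continuous_id)))).continuousOn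
    (fun ξ _ => Real.exp_pos _) (by simp)
    (by
      have h5 := h.el_lt t
      unfold el at h5
      rw [add_sub_cancel]
      exact h5) Z hZ
    (fun ξ hξ => by
      have h5 := hV1 (e + ξ) ⟨by linarith [hξ.1], by linarith [hξ.2]⟩
      rw [add_sub_cancel_left] at h5
      exact h5) i1
  have K2 := H2 (fun ξ => X t (e + 2 * π) - X t (e + 2 * π - ξ))
    (fun ξ => Real.exp (lam u X t (e + 2 * π - ξ)))
    (fun ξ _ => by
      have h5 := ((Flow.hasDerivAt_label h.cs.vel h.fl t (e + 2 * π - ξ) ht).comp_const_sub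
        (e + 2 * π) ξ).const_sub (X t (e + 2 * π))
      rw [neg_neg] at h5
      exact h5)
    (Real.continuous_exp.comp (hlc.comp
      (continuous_const.prodMk (continuous_const.sub continuous_id)))).continuousOn
    (fun ξ _ => Real.exp_pos _) (by simp)
    (by
      have h5 := h.el_pos t
      unfold el at h5
      rw [show e + 2 * π - (e + 2 * π - c) = c by ring, Flow.per h.cs.vel h.fl]
      linarith) Z hZ
    (fun ξ hξ => by
      have h5 := hV2 (e + 2 * π - ξ) ⟨by linarith [hξ.2], by linarith [hξ.1]⟩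
      rw [sub_sub_cancel] at h5
      exact h5) i2
  rw [e1] at K1
  rw [e2] at K2
  have d1 : deriv (fun ξ => -w0 (e + ξ)) 0 = -deriv w0 e := by
    have h5 := ((hd (e + 0)).hasDerivAt.comp_const_add e 0).neg
    rw [add_zero] at h5
    exact h5.deriv
  have d2 : deriv (fun ξ => w0 (e + 2 * π - ξ)) 0 = -deriv w0 e := by
    have h5 := (hd (e + 2 * π - 0)).hasDerivAt.comp_const_sub (e + 2 * π) 0
    have h6 : deriv w0 (e + 2 * π - 0) = deriv w0 e := by
      rw [sub_zero]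
      have h7 : (fun y => w0 (y + 2 * π)) = w0 := funext hp
      have h8 := deriv_comp_add_const w0 (2 * π) e
      rw [h7] at h8
      exact h8.symm
    rw [h6] at h5
    exact h5.deriv
  rw [d1] at K1
  rw [d2] at K2
  simp only [Real.log_exp, add_zero, sub_zero] at K1 K2
  rw [lam_per h.cs.vel h.fl] at K2
  rw [abs_of_nonpos hde]
  nlinarith [K1, K2]

end Pool.Agent.H45.DY
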