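import Pool.Agent.H45.DY.PhLem
import Pool.Agent.H45.DY.UnifBd
import Pool.Agent.H45.DY.HTd
import Pool.Agent.H51.DG.VT

/-! JOB DY-17 (uses the stubs of `PhLem.lean`, `UU_We`, and `UU_ge` from `VT.lean` as the hypothesis `hD`).
The bound of `v - v0` (claim Z of note 1390).

* `barrier`: let `F s = v s + P s`.  If `F T < min (v 0) β` then, as `P ≥ 0`
  (`P 0 = 0`, `P' ≥ 0`), `v T < β`; let `s*` be the last time in `[0,T]` with `v ≥ min (v 0) β`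
  (`v 0` qualifies); on `(s*,T]` `v < β`, so `F' = v' + P' ≥ 0` and
  `F T ≥ F s* ≥ v s* ≥ min (v 0) β`, contradiction.
* `Z_R`: `v s = VV (X s α - X s e)`, `ξ = X s α - X s e ∈ (0, el)`, `v' = vp ξ * UU (We s) ξ`
  (`VV_hasDerivAt`, `UU_We`).  `β = -(Λ + log 8)`.  If `ξ ≥ el/2` then, `VV` being increasing,
  `VV ξ ≥ VV (el/2) ≥ log (el/8) ≥ β` (`VV_ge`, `-log el ≤ Λ`).  So `v s < β` implies `ξ < el/2 < π`,
  `vp ξ = 1/(2 sin(ξ/2))` and `hD` gives `v' ≥ -(C/2) (QQ + Ma/mn) ≥ -P'`.  `barrier`: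
  `v t ≥ min (v 0) β - P t ≥ VV (α - e) - (π/2 + Λ + log 8 + P t)` (`v 0 ≤ π/2`; `X 0 α = α`).
* `Z_L`: the same with `ξ = X s (e+2π) - X s α ∈ (0, 2π - el)`, `v' = vp ξ (u(s,X s e) - u(s,X s α))
  = -vp ξ * UU (We s) (-ξ)` (`X s α = X s e + 2π - ξ`, `u` periodic), second part of `hD`. -/

set_option autoImplicit false
open Real Set MeasureTheory

namespace Pool.Agent.H45.DY
open Pool.Agent.H45.FL Pool.Agent.H51.DG

lemma Zb_mono (f f' : ℝ → ℝ) (a b : ℝ) (hab : a ≤ b) (hf : ContinuousOn f (Icc a b))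
    (hd : ∀ s ∈ Ioo a b, HasDerivAt f (f' s) s) (hn : ∀ s ∈ Ioo a b, 0 ≤ f' s) : f a ≤ f b := by
  have h1 : MonotoneOn f (Icc a b) := by
    apply monotoneOn_of_deriv_nonneg (convex_Icc a b) hf
    · rw [interior_Icc]
      exact fun s hs => (hd s hs).differentiableAt.differentiableWithinAt
    · rw [interior_Icc]
      intro s hs
      rw [(hd s hs).deriv]
      exact hn s hs
  exact h1 (left_mem_Icc.2 hab) (right_mem_Icc.2 hab) hab

lemma barrier (v v' P P' : ℝ → ℝ) (T β : ℝ) (hT : 0 ≤ T) (hv : ContinuousOn v (Icc 0 T))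
    (hP : ContinuousOn P (Icc 0 T)) (hv' : ∀ s ∈ Ioo 0 T, HasDerivAt v (v' s) s)
    (hP' : ∀ s ∈ Ioo 0 T, HasDerivAt P (P' s) s) (hn : ∀ s ∈ Ioo 0 T, 0 ≤ P' s) (h0 : P 0 = 0)
    (hb : ∀ s ∈ Ioo 0 T, v s < β → -P' s ≤ v' s) : min (v 0) β - P T ≤ v T := by
  by_contra hcon
  rw [not_le] at hcon
  have hPT : 0 ≤ P T := by
    rw [← h0]
    exact Zb_mono P P' 0 T hT hP hP' hn
  obtain ⟨m, hm⟩ : ∃ m, m = min (v 0) β := ⟨_, rfl⟩
  rw [← hm] at hcon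
  have hmβ : m ≤ β := by rw [hm]; exact min_le_right _ _
  have hm0 : m ≤ v 0 := by rw [hm]; exact min_le_left _ _
  have hSc : IsClosed (Icc 0 T ∩ v ⁻¹' Ici m) := hv.preimage_isClosed_of_isClosed isClosed_Icc isClosed_Ici
  have hSk : IsCompact (Icc 0 T ∩ v ⁻¹' Ici m) :=
    isCompact_Icc.of_isClosed_subset hSc inter_subset_left
  have hSn : (Icc 0 T ∩ v ⁻¹' Ici m).Nonempty := ⟨0, left_mem_Icc.2 hT, hm0⟩
  have hs := hSk.sSup_mem hSn
  have hub : ∀ s ∈ Icc 0 T ∩ v ⁻¹' Ici m, s ≤ sSup (Icc 0 T ∩ v ⁻¹' Ici m) :=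
    fun s hs' => le_csSup hSk.bddAbove hs'
  obtain ⟨z, hz⟩ : ∃ z, z = sSup (Icc 0 T ∩ v ⁻¹' Ici m) := ⟨_, rfl⟩
  rw [← hz] at hs hub
  have hz1 : m ≤ v z := hs.2
  have hz2 : z ≤ T := hs.1.2
  have hz0 : 0 ≤ z := hs.1.1
  have hlt : ∀ s ∈ Ioo z T, v s < β := by
    intro s hs'
    by_contra hc
    rw [not_lt] at hc
    have := hub s ⟨⟨hz0.trans hs'.1.le, hs'.2.le⟩, hmβ.trans hc⟩
    linarith [hs'.1]
  have hPz : 0 ≤ P z := by
    rw [← h0]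
    exact Zb_mono P P' 0 z hz0 (hP.mono (Icc_subset_Icc_right hz2))
      (fun s hs' => hP' s ⟨hs'.1, hs'.2.trans_le hz2⟩)
      (fun s hs' => hn s ⟨hs'.1, hs'.2.trans_le hz2⟩)
  have hsub : Icc z T ⊆ Icc 0 T := Icc_subset_Icc_left hz0
  have key := Zb_mono (fun s => v s + P s) (fun s => v' s + P' s) z T hz2
    ((hv.mono hsub).add (hP.mono hsub))
    (fun s hs' => (hv' s ⟨hz0.trans_lt hs'.1, hs'.2⟩).add (hP' s ⟨hz0.trans_lt hs'.1, hs'.2⟩))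
    (fun s hs' => by linarith [hb s ⟨hz0.trans_lt hs'.1, hs'.2⟩ (hlt s hs')])
  linarith

/-- common part of `Z_R` and `Z_L` -/
lemma Zb_gen (ξ ξ' L D P P' : ℝ → ℝ) (t Λ : ℝ) (ht : 0 ≤ t)
    (hξ0 : ∀ s ∈ Icc 0 t, 0 < ξ s) (hξL : ∀ s ∈ Icc 0 t, ξ s < L s)
    (hL : ∀ s ∈ Icc 0 t, L s < 2 * π) (hΛ : ∀ s ∈ Icc 0 t, -Real.log (L s) ≤ Λ)
    (hd : ∀ s, HasDerivAt ξ (ξ' s) s)
    (hD : ∀ s ∈ Ioo 0 t, ξ s ≤ L s / 2 → -(Real.sin (ξ s / 2) * D s) ≤ ξ' s)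
    (hP : ContinuousOn P (Icc 0 t)) (hP' : ∀ s ∈ Ioo 0 t, HasDerivAt P (P' s) s) (h0 : P 0 = 0)
    (hn : ∀ s ∈ Ioo 0 t, 0 ≤ P' s) (hb : ∀ s ∈ Ioo 0 t, D s ≤ 2 * P' s) :
    VV (ξ 0) - (π / 2 + |Λ| + Real.log 8 + P t) ≤ VV (ξ t) := by
  have hlog8 : 0 ≤ Real.log 8 := Real.log_nonneg (by norm_num)
  have hV : ∀ s ∈ Icc 0 t, HasDerivAt (fun s => VV (ξ s)) (vp (ξ s) * ξ' s) s := by
    intro s hs
    exact (VV_hasDerivAt (ξ s) (hξ0 s hs) ((hξL s hs).trans (hL s hs))).comp s (hd s)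
  have key := barrier (fun s => VV (ξ s)) (fun s => vp (ξ s) * ξ' s) P P' t
    (-(|Λ| + Real.log 8)) ht (fun s hs => (hV s hs).continuousAt.continuousWithinAt) hP
    (fun s hs => hV s (Ioo_subset_Icc_self hs)) hP' hn h0 (by
      intro s hs hvs
      have hs' : s ∈ Icc 0 t := Ioo_subset_Icc_self hs
      have g1 := hξ0 s hs'
      have g2 := hξL s hs'
      have g3 := hL s hs'
      have g4 := hΛ s hs'
      have hLp : 0 < L s := g1.trans g2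
      have hlt : ξ s < L s / 2 := by
        by_contra hc
        rw [not_lt] at hc
        have k1 : VV (L s / 2) ≤ VV (ξ s) :=
          VV_mono ⟨by linarith, by linarith⟩ ⟨g1, by linarith⟩ hc
        have k2 := VV_ge (L s / 2) (by linarith) (by linarith)
        have k3 : Real.log (L s / 2 / 4) = Real.log (L s) - Real.log 8 := by
          rw [← Real.log_div hLp.ne' (by norm_num)]
          congr 1
          ring
        have k4 := le_abs_self Λ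
        linarith
      have hξπ : ξ s ≤ π := by linarith
      have hsin : 0 < Real.sin (ξ s / 2) :=
        Real.sin_pos_of_pos_of_lt_pi (by linarith) (by linarith [Real.pi_pos])
      have hvp : vp (ξ s) = 1 / (2 * Real.sin (ξ s / 2)) := by
        unfold vp
        rw [if_pos hξπ]
      have k5 := hD s hs hlt.le
      have k6 := hb s hs
      have k7 := mul_le_mul_of_nonneg_left k5 (by rw [hvp]; positivity : 0 ≤ vp (ξ s))
      have k8 : vp (ξ s) * -(Real.sin (ξ s / 2) * D s) = -(D s / 2) := by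
        rw [hvp]
        field_simp
      rw [k8] at k7
      linarith)
  have h00 : (0:ℝ) ∈ Icc 0 t := left_mem_Icc.2 ht
  have hle := VV_le (ξ 0) (hξ0 0 h00) ((hξL 0 h00).trans (hL 0 h00)).le
  have hΛ0 := abs_nonneg Λ
  rcases min_cases (VV (ξ 0)) (-(|Λ| + Real.log 8)) with ⟨h1, h2⟩ | ⟨h1, h2⟩
  · rw [h1] at key
    linarith [Real.pi_pos]
  · rw [h1] at key
    linarith [Real.pi_pos]

variable {w u : ℝ × ℝ → ℝ} {X : ℝ → ℝ → ℝ} {e c T : ℝ}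

theorem Z_R (C : ℝ) (hD : ∀ (W : ℝ → ℝ) (l K : ℝ), Nrm W l → Lip K W →
      (∀ x, 0 < x → x ≤ l / 2 → -(C * Real.sin (x / 2) * (QQ W l + Ma W / mn l)) ≤ UU W x))
    (h : Dyn w u X e c T) (t : ℝ) (ht : t ∈ Icc 0 T) (Λ : ℝ)
    (hΛ : ∀ s ∈ Icc 0 t, -Real.log (el X e c s) ≤ Λ) (P P' : ℝ → ℝ)
    (hP : ContinuousOn P (Icc 0 t)) (hP' : ∀ s ∈ Ioo 0 t, HasDerivAt P (P' s) s) (h0 : P 0 = 0)
    (hn : ∀ s ∈ Ioo 0 t, 0 ≤ P' s)
    (hb : ∀ s ∈ Ioo 0 t, C * (QQ (We w X e s) (el X e c s) +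
      Ma (We w X e s) / mn (el X e c s)) ≤ 2 * P' s) :
    ∀ α ∈ Ioo e c, VV (α - e) - (π / 2 + |Λ| + Real.log 8 + P t) ≤ VV (X t α - X t e) := by
  intro α hα
  have hm := fun s => Flow.mono h.cs.vel h.fl s
  have h1 : α - e = X 0 α - X 0 e := by rw [h.fl.init, h.fl.init]
  rw [h1]
  apply Zb_gen (fun s => X s α - X s e) (fun s => u (s, X s α) - u (s, X s e))
    (fun s => el X e c s)
    (fun s => C * (QQ (We w X e s) (el X e c s) + Ma (We w X e s) / mn (el X e c s))) P P' t Λ ht.1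
    (fun s _ => sub_pos.2 (hm s hα.1)) (fun s _ => sub_lt_sub_right (hm s hα.2) _)
    (fun s _ => h.el_lt s) hΛ (fun s => (h.fl.ode s α).sub (h.fl.ode s e)) _ hP hP' h0 hn hb
  intro s hs hle
  have hsT : s ∈ Icc 0 T := ⟨hs.1.le, hs.2.le.trans ht.2⟩
  obtain ⟨K, hK⟩ := h.lip_We s
  have k1 := hD _ _ K (h.nrm_We s) hK (X s α - X s e) (sub_pos.2 (hm s hα.1)) hle
  rw [UU_We h s hsT, add_sub_cancel] at k1
  refine le_trans (le_of_eq ?_) k1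
  ring

theorem Z_L (C : ℝ) (hD : ∀ (W : ℝ → ℝ) (l K : ℝ), Nrm W l → Lip K W →
      (∀ x, 0 < x → x ≤ (2 * π - l) / 2 →
        UU W (-x) ≤ C * Real.sin (x / 2) * (QQ W l + Ma W / mn l)))
    (h : Dyn w u X e c T) (t : ℝ) (ht : t ∈ Icc 0 T) (Λ : ℝ)
    (hΛ : ∀ s ∈ Icc 0 t, -Real.log (2 * π - el X e c s) ≤ Λ) (P P' : ℝ → ℝ)
    (hP : ContinuousOn P (Icc 0 t)) (hP' : ∀ s ∈ Ioo 0 t, HasDerivAt P (P' s) s) (h0 : P 0 = 0)
    (hn : ∀ s ∈ Ioo 0 t, 0 ≤ P' s)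
    (hb : ∀ s ∈ Ioo 0 t, C * (QQ (We w X e s) (el X e c s) +
      Ma (We w X e s) / mn (el X e c s)) ≤ 2 * P' s) :
    ∀ α ∈ Ioo c (e + 2 * π),
      VV (e + 2 * π - α) - (π / 2 + |Λ| + Real.log 8 + P t) ≤ VV (X t (e + 2 * π) - X t α) := by
  intro α hα
  have hm := fun s => Flow.mono h.cs.vel h.fl s
  have hper : ∀ s, X s (e + 2 * π) = X s e + 2 * π := fun s => Flow.per h.cs.vel h.fl s e
  have hup : ∀ s x : ℝ, u (s, x - 2 * π) = u (s, x) := by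
    intro s x
    rw [← h.cs.vel.per s (x - 2 * π), sub_add_cancel]
  have h1 : e + 2 * π - α = X 0 (e + 2 * π) - X 0 α := by rw [h.fl.init, h.fl.init]
  rw [h1]
  apply Zb_gen (fun s => X s (e + 2 * π) - X s α)
    (fun s => u (s, X s (e + 2 * π)) - u (s, X s α)) (fun s => 2 * π - el X e c s)
    (fun s => C * (QQ (We w X e s) (el X e c s) + Ma (We w X e s) / mn (el X e c s))) P P' t Λ ht.1
    (fun s _ => sub_pos.2 (hm s hα.2))
    (fun s _ => by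
      have := hm s hα.1
      have e1 := hper s
      unfold el
      linarith)
    (fun s _ => by linarith [h.el_pos s]) hΛ
    (fun s => (h.fl.ode s (e + 2 * π)).sub (h.fl.ode s α)) _ hP hP' h0 hn hb
  intro s hs hle
  have hsT : s ∈ Icc 0 T := ⟨hs.1.le, hs.2.le.trans ht.2⟩
  obtain ⟨K, hK⟩ := h.lip_We s
  have k1 := hD _ _ K (h.nrm_We s) hK (X s (e + 2 * π) - X s α) (sub_pos.2 (hm s hα.2)) hle
  rw [UU_We h s hsT] at k1
  have e2 : X s e + -(X s (e + 2 * π) - X s α) = X s α - 2 * π := by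
    rw [hper s]
    ring
  rw [e2, hup] at k1
  have e3 : u (s, X s (e + 2 * π)) = u (s, X s e) := by
    rw [hper s, h.cs.vel.per]
  have e4 : Real.sin ((X s (e + 2 * π) - X s α) / 2) *
      (C * (QQ (We w X e s) (el X e c s) + Ma (We w X e s) / mn (el X e c s))) =
      C * Real.sin ((X s (e + 2 * π) - X s α) / 2) *
        (QQ (We w X e s) (el X e c s) + Ma (We w X e s) / mn (el X e c s)) := by ring
  rw [e3, e4]
  linarith

end Pool.Agent.H45.DY
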