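import Pool.Agent.H45.DY.FFid
import Pool.Agent.H45.DY.Jlow
import Pool.Agent.H45.DY.Zb
import Pool.Agent.H45.DY.Mean
import Pool.Agent.H51.DG.SQ

/-! JOB DY-18.  The bound `J t ≤ C (1 + Λ)` (last hypothesis of `closing`).

`J t = -(JI + JI)`, `J' = δ = -FF (We) ≥ 0`, `Q ≤ √(δ/c1)`, `M/mn ≤ 2 √(δ/c1)` (`statA`), and
`√(δ/c1) ≤ (κ + δ/(c1 κ))/2` for every `κ > 0`; so `P t = E (κ t + J t/(c1 κ))` controls both
`lam t e` and the claim Z, and `κ` is chosen such that the term with `J t` is absorbed. -/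

set_option autoImplicit false
open Real Set MeasureTheory

namespace Pool.Agent.H45.DY
open Pool.Agent.H45.FL Pool.Agent.H51.DG

/-- the functional `-J_e` -/
noncomputable def Jt (w u : ℝ × ℝ → ℝ) (X : ℝ → ℝ → ℝ) (e c t : ℝ) : ℝ :=
  -(JI w u X e e c t + JI w u X (e + 2 * π) c (e + 2 * π) t)

lemma Jt_zero (w u : ℝ × ℝ → ℝ) (X : ℝ → ℝ → ℝ) (e c : ℝ) : Jt w u X e c 0 = 0 := by
  simp [Jt, JI_zero]

lemma Jt_hasDerivAt {w u : ℝ × ℝ → ℝ} {X : ℝ → ℝ → ℝ} {e c T : ℝ} (h : Dyn w u X e c T)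
    (t : ℝ) (ht : t ∈ Icc 0 T) :
    HasDerivAt (Jt w u X e c) (-FF (We w X e t) (el X e c t)) t := by
  rw [FF_We h t ht]
  exact ((JI_hasDerivAt h.cs h.fl h.arc_e_R t).add (JI_hasDerivAt h.cs h.fl h.arc_e_L t)).neg

/-- monotonicity from the derivative on `[0,t]` -/
lemma le_of_deriv_nonneg (f f' : ℝ → ℝ) (t : ℝ) (ht : 0 ≤ t)
    (hf : ∀ s ∈ Icc 0 t, HasDerivAt f (f' s) s) (hn : ∀ s ∈ Ioo 0 t, 0 ≤ f' s) : f 0 ≤ f t := by
  have hm : MonotoneOn f (Icc 0 t) := by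
    refine monotoneOn_of_deriv_nonneg (convex_Icc 0 t)
      (fun s hs => (hf s hs).continuousAt.continuousWithinAt) ?_ ?_
    · intro s hs
      rw [interior_Icc] at hs
      exact (hf s (Ioo_subset_Icc_self hs)).differentiableAt.differentiableWithinAt
    · intro s hs
      rw [interior_Icc] at hs
      rw [(hf s (Ioo_subset_Icc_self hs)).deriv]
      exact hn s hs
  exact hm ⟨le_rfl, ht⟩ ⟨ht, le_rfl⟩ ht

lemma sq_le_kappa (q c1 δ κ : ℝ) (hc : 0 < c1) (hκ : 0 < κ) (h : c1 * q ^ 2 ≤ δ) :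
    q ≤ (κ + δ / (c1 * κ)) / 2 := by
  have h1 : q ^ 2 ≤ δ / c1 := by
    rw [le_div_iff₀ hc]; linarith
  have h2 : δ / (c1 * κ) = (δ / c1) / κ := by rw [div_div]
  rw [h2]
  have h3 : q ^ 2 / κ ≤ (δ / c1) / κ := by gcongr
  have h4 : 2 * q ≤ κ + q ^ 2 / κ := by
    have : κ + q ^ 2 / κ - 2 * q = (κ - q) ^ 2 / κ := by field_simp; ring
    have h5 : 0 ≤ (κ - q) ^ 2 / κ := by positivity
    linarith
  linarith

theorem J_closing (w0 : ℝ → ℝ) (e c : ℝ) (hs : ContDiff ℝ ((⊤ : ℕ∞) : WithTop ℕ∞) w0)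
    (hp : Function.Periodic w0 (2 * π)) (hec : e < c) (hce : c < e + 2 * π)
    (hn : ∀ x ∈ Icc e c, w0 x ≤ 0) (hpo : ∀ x ∈ Icc c (e + 2 * π), 0 ≤ w0 x)
    (hm : ∫ x in (0:ℝ)..(2 * π), w0 x = 0) (T : ℝ) (hT : 0 < T) :
    ∃ C : ℝ, 0 < C ∧ ∀ (w u : ℝ × ℝ → ℝ) (X : ℝ → ℝ → ℝ) (T' : ℝ), T' ≤ T → Dyn w u X e c T' →
      (∀ x, w (0, x) = w0 x) → ∀ t ∈ Icc 0 T', ∀ Λ : ℝ, 0 ≤ Λ →
      (∀ s ∈ Icc (0:ℝ) t, -Real.log (el X e c s) ≤ Λ ∧ -Real.log (2 * π - el X e c s) ≤ Λ) →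
      Jt w u X e c t ≤ C * (1 + Λ) := by
  obtain ⟨c1, hc1, hA⟩ := statA
  obtain ⟨D, hDdef⟩ : ∃ D : ℝ, D = 5 := ⟨5, rfl⟩
  have hD : 0 < D := by rw [hDdef]; norm_num
  obtain ⟨CL, hCL, hJ⟩ := J_low w0 e c hs hp hec hce hn hpo
  set s0 : ℝ := |deriv w0 e| with hs0
  have hs0' : 0 ≤ s0 := abs_nonneg _
  set E : ℝ := 3 * D / 4 + 1 with hE
  have hEpos : 0 < E := by positivity
  set A : ℝ := 4 * s0 + CL with hAdef
  have hA0 : 0 ≤ A := by positivity
  set κ : ℝ := 2 * A * E / c1 + 1 with hκdef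
  have hκ : 0 < κ := by positivity
  have hlog8 : 0 ≤ Real.log 8 := Real.log_nonneg (by norm_num)
  refine ⟨2 * (A * E * κ * T + CL * (1 + π / 2 + Real.log 8)) + 2 * CL + 1, by positivity, ?_⟩
  intro w u X T' hT' h hw0 t ht Λ hΛ hL
  have hmean : ∫ x in (0:ℝ)..(2 * π), w (0, x) = 0 := by
    simp only [hw0]; exact hm
  -- static facts along the solution
  set δ : ℝ → ℝ := fun s => -FF (We w X e s) (el X e c s) with hδ
  have hsub : ∀ s ∈ Icc 0 t, s ∈ Icc 0 T' := fun s hs => ⟨hs.1, hs.2.trans ht.2⟩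
  have hstat : ∀ s ∈ Icc 0 t, c1 * Ma (We w X e s) ^ 2 ≤ δ s * mn (el X e c s) ^ 3 ∧
      c1 * QQ (We w X e s) (el X e c s) ^ 2 ≤ δ s := by
    intro s hs
    obtain ⟨K, hK⟩ := h.lip_We s
    exact hA _ _ K (h.nrm_We s) hK (mean_We h s (hsub s hs) hmean)
  have hδ0 : ∀ s ∈ Icc 0 t, 0 ≤ δ s := fun s hs =>
    le_trans (by positivity) (hstat s hs).2
  have hmnpos : ∀ s, 0 < mn (el X e c s) := fun s =>
    lt_min (h.el_pos s) (by linarith [h.el_lt s])
  have hmnle : ∀ s, mn (el X e c s) ≤ 4 := by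
    intro s
    have h1 : mn (el X e c s) ≤ π := by
      unfold mn
      rcases le_total (el X e c s) π with h2 | h2
      · exact (min_le_left _ _).trans h2
      · exact (min_le_right _ _).trans (by linarith)
    linarith [Real.pi_le_four]
  have hQ : ∀ s ∈ Icc 0 t, QQ (We w X e s) (el X e c s) ≤ (κ + δ s / (c1 * κ)) / 2 :=
    fun s hs => sq_le_kappa _ c1 _ κ hc1 hκ (hstat s hs).2
  have hM : ∀ s ∈ Icc 0 t, Ma (We w X e s) / mn (el X e c s) ≤ κ + δ s / (c1 * κ) := by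
    intro s hs
    have h1 := (hstat s hs).1
    have h2 := hmnpos s
    have h3 := hmnle s
    have h4 : c1 * (Ma (We w X e s) / mn (el X e c s) / 2) ^ 2 ≤ δ s := by
      have e1 : (Ma (We w X e s) / mn (el X e c s) / 2) ^ 2 =
          Ma (We w X e s) ^ 2 / (4 * mn (el X e c s) ^ 2) := by
        field_simp; ring
      rw [e1, mul_div_assoc', div_le_iff₀ (by positivity)]
      have h5 : δ s * mn (el X e c s) ^ 3 ≤ δ s * (4 * mn (el X e c s) ^ 2) := by
        refine mul_le_mul_of_nonneg_left ?_ (hδ0 s hs)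
        nlinarith [sq_nonneg (mn (el X e c s))]
      linarith
    have h6 := sq_le_kappa _ c1 _ κ hc1 hκ h4
    linarith
  -- the comparison function
  set P : ℝ → ℝ := fun s => E * (κ * s + Jt w u X e c s / (c1 * κ)) with hPdef
  set P' : ℝ → ℝ := fun s => E * (κ * 1 + δ s / (c1 * κ)) with hP'def
  have hPder : ∀ s ∈ Icc 0 t, HasDerivAt P (P' s) s := by
    intro s hs
    have h1 := Jt_hasDerivAt h s (hsub s hs)
    exact (((hasDerivAt_id s).const_mul κ).add (h1.div_const (c1 * κ))).const_mul E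
  have hPc : ContinuousOn P (Icc 0 t) := fun s hs => (hPder s hs).continuousAt.continuousWithinAt
  have hP0 : P 0 = 0 := by simp [hPdef, Jt_zero]
  have hP'n : ∀ s ∈ Icc 0 t, 0 ≤ P' s := by
    intro s hs
    have := hδ0 s hs
    simp only [hP'def]
    positivity
  have hbd : ∀ s ∈ Ioo 0 t, D * (QQ (We w X e s) (el X e c s) +
      Ma (We w X e s) / mn (el X e c s)) ≤ 2 * P' s := by
    intro s hs
    have hs' := Ioo_subset_Icc_self hs
    have h1 := hQ s hs'
    have h2 := hM s hs'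
    have h3 : 0 ≤ κ + δ s / (c1 * κ) := by
      have := hδ0 s hs'
      positivity
    have h4 : D * (QQ (We w X e s) (el X e c s) + Ma (We w X e s) / mn (el X e c s)) ≤
        D * (3 / 2 * (κ + δ s / (c1 * κ))) := by
      refine mul_le_mul_of_nonneg_left ?_ hD.le
      linarith
    simp only [hP'def, hE, mul_one]
    nlinarith
  have ht0 : 0 ≤ t := ht.1
  have hZR := Z_R D (fun W l K hN hK x hx0 hx1 => by rw [hDdef]; exact UU_ge hN hK hx0 hx1) h t ht Λ (fun s hs => (hL s hs).1)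
    P P' hPc (fun s hs => hPder s (Ioo_subset_Icc_self hs)) hP0
    (fun s hs => hP'n s (Ioo_subset_Icc_self hs)) hbd
  have hZL := Z_L D (fun W l K hN hK x hx0 hx1 => by rw [hDdef]; exact UU_le_neg hN hK hx0 hx1) h t ht Λ (fun s hs => (hL s hs).2)
    P P' hPc (fun s hs => hPder s (Ioo_subset_Icc_self hs)) hP0
    (fun s hs => hP'n s (Ioo_subset_Icc_self hs)) hbd
  have hPt : 0 ≤ P t := by
    have := le_of_deriv_nonneg P P' t ht0 hPder
      (fun s hs => hP'n s (Ioo_subset_Icc_self hs))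
    rwa [hP0] at this
  have hJt : 0 ≤ Jt w u X e c t := by
    have := le_of_deriv_nonneg (Jt w u X e c) δ t ht0
      (fun s hs => Jt_hasDerivAt h s (hsub s hs)) (fun s hs => hδ0 s (Ioo_subset_Icc_self hs))
    rwa [Jt_zero] at this
  have habs : |Λ| = Λ := abs_of_nonneg hΛ
  rw [habs] at hZR hZL
  have hlow := hJ w u X T' h hw0 t ht0 (π / 2 + Λ + Real.log 8 + P t)
    (by have := Real.pi_pos; positivity) hZR hZL
  -- the gradient at `e`
  have hlam : lam u X t e ≤ P t := by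
    have h1 := le_of_deriv_nonneg (fun s => P s - lam u X s e)
      (fun s => P' s - px u (s, X s e)) t ht0
      (fun s hs => (hPder s hs).sub (lam_hasDerivAt_t h.cs.vel h.fl s e)) ?_
    · simp only [hP0, lam_zero] at h1
      linarith
    · intro s hs
      have hs' := Ioo_subset_Icc_self hs
      obtain ⟨K, hK⟩ := h.lip_We s
      have h2 := HT_zero_le (h.nrm_We s) hK
      rw [HT_We h s (hsub s hs') 0, add_zero] at h2
      have h3 := hQ s hs'
      have h4 : 0 ≤ κ + δ s / (c1 * κ) := by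
        have := hδ0 s hs'
        positivity
      have h5 : QQ (We w X e s) (el X e c s) / π ≤ (κ + δ s / (c1 * κ)) / 2 := by
        rw [div_le_iff₀ Real.pi_pos]
        nlinarith [Real.pi_gt_three]
      have h6 : (κ + δ s / (c1 * κ)) / 2 ≤ P' s := by
        simp only [hP'def, hE, mul_one]
        have : 0 ≤ D * (κ + δ s / (c1 * κ)) := by positivity
        nlinarith
      linarith
  have hs0w : |deriv w0 e| = s0 := rfl
  have h10 : Jt w u X e c t ≤ A * P t + CL * (1 + π / 2 + Real.log 8) + CL * Λ := by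
    have h11 : 4 * s0 * lam u X t e ≤ 4 * s0 * P t :=
      mul_le_mul_of_nonneg_left hlam (by positivity)
    have h12 : Jt w u X e c t ≤ 4 * s0 * lam u X t e +
        CL * (1 + (π / 2 + Λ + Real.log 8 + P t)) := hlow
    have h13 : A * P t = 4 * s0 * P t + CL * P t := by rw [hAdef]; ring
    nlinarith
  have h20 : A * P t ≤ A * E * κ * T + Jt w u X e c t / 2 := by
    have h21 : A * P t = A * E * κ * t + (A * E / (c1 * κ)) * Jt w u X e c t := by
      simp only [hPdef]; ring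
    have h22 : A * E / (c1 * κ) ≤ 1 / 2 := by
      rw [div_le_iff₀ (by positivity)]
      have : c1 * κ = 2 * A * E + c1 := by
        rw [hκdef]; field_simp
      rw [this]; nlinarith
    have h23 : (A * E / (c1 * κ)) * Jt w u X e c t ≤ 1 / 2 * Jt w u X e c t :=
      mul_le_mul_of_nonneg_right h22 hJt
    have h24 : A * E * κ * t ≤ A * E * κ * T :=
      mul_le_mul_of_nonneg_left (ht.2.trans hT') (by positivity)
    linarith
  have hAET : 0 ≤ A * E * κ * T + CL * (1 + π / 2 + Real.log 8) := by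
    have := Real.pi_pos; positivity
  nlinarith

end Pool.Agent.H45.DY
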