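import Pool.Agent.H51.DG.Defs

/-! `k`-fold symmetric data: if every smooth solution with datum `v0` is global then so is the one with
datum `x ↦ v0 (k x)`, `k ≥ 1`: `ω'(t,x) = ω(t,kx)`, `u'(t,x) = u(t,kx)/k`. -/

set_option autoImplicit false
open Real Set MeasureTheory

namespace Pool.Agent.H45.DY
open Pool.Agent.H51.DG

lemma kf_exp_per (m : ℤ) (x : ℝ) :
    Complex.exp (-(m : ℂ) * ((x + 2 * π : ℝ) : ℂ) * Complex.I) =
      Complex.exp (-(m : ℂ) * (x : ℂ) * Complex.I) := by
  have e : -(m : ℂ) * ((x + 2 * π : ℝ) : ℂ) * Complex.I =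
      -(m : ℂ) * (x : ℂ) * Complex.I + ((-m : ℤ) : ℂ) * (2 * π * Complex.I) := by
    push_cast; ring
  rw [e, Complex.exp_add, Complex.exp_int_mul_two_pi_mul_I, mul_one]

lemma kf_mul (F : ℝ → ℂ) (hc : Continuous F) (hF : Function.Periodic F (2 * π)) (k : ℕ)
    (hk : 1 ≤ k) :
    ∫ x in (0:ℝ)..(2 * π), F (k * x) = ∫ x in (0:ℝ)..(2 * π), F x := by
  have hk0 : (k : ℝ) ≠ 0 := by positivity
  rw [intervalIntegral.integral_comp_mul_left (fun x => F x) hk0]
  have h1 := hF.intervalIntegral_add_zsmul_eq (k : ℤ) 0 (fun a b => hc.intervalIntegrable a b)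
  have h2 : ∫ x in (k * 0 : ℝ)..(k * (2 * π)), F x = (k : ℤ) • ∫ x in (0:ℝ)..(2 * π), F x := by
    rw [mul_zero]
    simpa using h1
  rw [h2]
  simp only [natCast_zsmul]
  rw [← Nat.cast_smul_eq_nsmul ℝ, smul_smul, inv_mul_cancel₀ hk0, one_smul]

lemma kf_zero (f : ℝ → ℂ) (hf : Function.Periodic f (2 * π)) (k : ℕ) (hk : 1 ≤ k) (m : ℤ)
    (hm : ¬ (k : ℤ) ∣ m) :
    ∫ x in (0:ℝ)..(2 * π), f (k * x) * Complex.exp (-(m : ℂ) * (x : ℂ) * Complex.I) = 0 := by
  have hk0 : (k : ℝ) ≠ 0 := by positivity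
  have hkc : (k : ℂ) ≠ 0 := by exact_mod_cast hk0
  set g : ℝ → ℂ := fun x => f (k * x) * Complex.exp (-(m : ℂ) * (x : ℂ) * Complex.I) with hg
  have hfk : ∀ x, f (k * (x + 2 * π)) = f (k * x) := by
    intro x
    have := hf.nat_mul k (k * x)
    rw [show (k : ℝ) * (x + 2 * π) = k * x + k * (2 * π) by ring]
    exact this
  have hper : Function.Periodic g (2 * π) := by
    intro x
    simp only [hg]
    rw [hfk, kf_exp_per]
  have hshift : ∀ x, g (x + 2 * π / k) = Complex.exp (-(m : ℂ) * (2 * π / k) * Complex.I) * g x := by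
    intro x
    simp only [hg]
    have e1 : (k : ℝ) * (x + 2 * π / k) = k * x + 2 * π := by field_simp
    rw [e1, hf (k * x)]
    have e2 : -(m : ℂ) * ((x + 2 * π / k : ℝ) : ℂ) * Complex.I =
        -(m : ℂ) * (2 * π / k) * Complex.I + -(m : ℂ) * (x : ℂ) * Complex.I := by
      push_cast; ring
    rw [e2, Complex.exp_add]
    ring
  have h1 : ∫ x in (0:ℝ)..(2 * π), g (x + 2 * π / k) = ∫ x in (0:ℝ)..(2 * π), g x := by
    rw [intervalIntegral.integral_comp_add_right]
    have := hper.intervalIntegral_add_eq (0 + 2 * π / k) 0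
    rw [show (0:ℝ) + 2 * π / k + 2 * π = 2 * π + 2 * π / k by ring, zero_add (2 * π)] at this
    exact this
  have h2 : ∫ x in (0:ℝ)..(2 * π), g (x + 2 * π / k) =
      Complex.exp (-(m : ℂ) * (2 * π / k) * Complex.I) * ∫ x in (0:ℝ)..(2 * π), g x := by
    rw [← intervalIntegral.integral_const_mul]
    congr 1
    funext x
    exact hshift x
  have h3 : Complex.exp (-(m : ℂ) * (2 * π / k) * Complex.I) ≠ 1 := by
    intro h
    rw [Complex.exp_eq_one_iff] at h
    obtain ⟨n, hn⟩ := h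
    have h4 : -(m : ℂ) = n * k := by
      have hI : (2 * (π : ℂ) * Complex.I) ≠ 0 := Complex.two_pi_I_ne_zero
      field_simp at hn
      linear_combination hn
    have h6 : -m = n * k := by exact_mod_cast h4
    exact hm ⟨-n, by linarith [mul_comm n (k : ℤ)]⟩
  have h4 : (Complex.exp (-(m : ℂ) * (2 * π / k) * Complex.I) - 1) *
      ∫ x in (0:ℝ)..(2 * π), g x = 0 := by
    rw [sub_mul, one_mul, ← h2, h1, sub_self]
  rcases mul_eq_zero.mp h4 with h | h
  · exact absurd (sub_eq_zero.mp h) h3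
  · exact h

theorem kfold (v0 : ℝ → ℝ) (h : GlobalSmooth v0) (k : ℕ) (hk : 1 ≤ k) :
    GlobalSmooth fun x => v0 (k * x) := by
  have hk0 : (k : ℝ) ≠ 0 := by positivity
  intro T hT
  obtain ⟨ω, u, hω, hu, pω, pu, h0, hF, hE⟩ := h T hT
  have hmap : ContDiff ℝ ((⊤ : ℕ∞) : WithTop ℕ∞) (fun p : ℝ × ℝ => (p.1, (k : ℝ) * p.2)) :=
    contDiff_fst.prodMk (contDiff_const.mul contDiff_snd)
  have hperω : ∀ t, Function.Periodic (fun y : ℝ => ω (t, y)) (2 * π) := fun t x => pω t x
  have hperu : ∀ t, Function.Periodic (fun y : ℝ => u (t, y)) (2 * π) := fun t x => pu t x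
  have hdper : ∀ t, Function.Periodic (fun x : ℝ => deriv (fun y : ℝ => u (t, y)) x) (2 * π) := by
    intro t x
    have h1 := deriv_comp_add_const (fun y : ℝ => u (t, y)) (2 * π) x
    have h2 : (fun y : ℝ => u (t, y + 2 * π)) = fun y => u (t, y) := funext fun y => pu t y
    rw [h2] at h1
    exact h1.symm
  have hcω : ∀ t, Continuous fun y : ℝ => ω (t, y) := fun t => hω.continuous.comp (by fun_prop)
  have hcu : ∀ t, Continuous fun x : ℝ => deriv (fun y : ℝ => u (t, y)) x := fun t =>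
    (hu.comp (contDiff_const.prodMk contDiff_id) : ContDiff ℝ ((⊤ : ℕ∞) : WithTop ℕ∞)
      (fun y : ℝ => u (t, y))).continuous_deriv (by simp)
  have hcc : ∀ (f : ℝ → ℝ) (n : ℤ), Continuous f → Continuous fun x : ℝ =>
      ((f x : ℝ) : ℂ) * Complex.exp (-(n : ℂ) * (x : ℂ) * Complex.I) := by
    intro f n hf
    fun_prop
  have hdu : ∀ t x, deriv (fun y : ℝ => u (t, (k : ℝ) * y) / k) x =
      deriv (fun y : ℝ => u (t, y)) (k * x) := by
    intro t x
    rw [deriv_div_const]
    have := deriv_comp_mul_left (k : ℝ) (fun y : ℝ => u (t, y)) x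
    rw [this, smul_eq_mul]
    field_simp
  have hdω : ∀ t x, deriv (fun y : ℝ => ω (t, (k : ℝ) * y)) x =
      k * deriv (fun y : ℝ => ω (t, y)) (k * x) := by
    intro t x
    exact deriv_comp_mul_left (k : ℝ) (fun y : ℝ => ω (t, y)) x
  refine ⟨fun p => ω (p.1, k * p.2), fun p => u (p.1, k * p.2) / k, hω.comp hmap,
    (hu.comp hmap).div_const _, ?_, ?_, fun x => h0 (k * x), ?_, ?_⟩
  · intro t x
    have := (hperω t).nat_mul k (k * x)
    simp only at this ⊢
    rw [show (k : ℝ) * (x + 2 * π) = k * x + k * (2 * π) by ring]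
    exact this
  · intro t x
    have := (hperu t).nat_mul k (k * x)
    simp only at this ⊢
    rw [show (k : ℝ) * (x + 2 * π) = k * x + k * (2 * π) by ring, this]
  · intro t ht m
    simp only [hdu]
    by_cases hm : (k : ℤ) ∣ m
    · obtain ⟨n, rfl⟩ := hm
      have e : ∀ x : ℝ, Complex.exp (-(((k : ℤ) * n : ℤ) : ℂ) * (x : ℂ) * Complex.I) =
          Complex.exp (-(n : ℂ) * ((k * x : ℝ) : ℂ) * Complex.I) := by
        intro x; congr 1; push_cast; ring
      simp only [e]
      have i1 := kf_mul (fun x => ((deriv (fun y : ℝ => u (t, y)) x : ℝ) : ℂ) *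
        Complex.exp (-(n : ℂ) * (x : ℂ) * Complex.I)) (hcc _ n (hcu t)) (fun x => by
          have := hdper t x
          simp only at this ⊢
          rw [this, kf_exp_per]) k hk
      have i2 := kf_mul (fun x => ((ω (t, x) : ℝ) : ℂ) *
        Complex.exp (-(n : ℂ) * (x : ℂ) * Complex.I)) (hcc _ n (hcω t)) (fun x => by
          simp only
          rw [pω, kf_exp_per]) k hk
      rw [i1, i2, hF t ht n]
      have hs : Int.sign ((k : ℤ) * n) = Int.sign n := by
        rw [Int.sign_mul, Int.sign_natCast_of_ne_zero (by omega), one_mul]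
      rw [hs]
    · have z1 := kf_zero (fun x => ((deriv (fun y : ℝ => u (t, y)) x : ℝ) : ℂ)) (fun x => by
          have := hdper t x
          simp only at this ⊢
          rw [this]) k hk m hm
      have z2 := kf_zero (fun x => ((ω (t, x) : ℝ) : ℂ)) (fun x => by
          simp only
          rw [pω]) k hk m hm
      rw [z1, z2, mul_zero]
  · intro t ht x
    have := hE t ht (k * x)
    simp only [hdu, hdω]
    rw [← this]
    field_simp

end Pool.Agent.H45.DY
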