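import Pool.Agent.H45.DY.PhLem

/-! JOB DY-15 (static; uses the stubs of `PhLem.lean`).  Lower bound of the weighted flow gradient.

PROOF.  `y` is strictly increasing on `[0,Λ]`, so `0 < y ξ < 2π` for `ξ ∈ (0,Λ]`.  `v = VV ∘ y`,
`v0 = VV`, `v' = vp(y) y'`, `v0' = vp`, continuous on `(0,Λ]`; `y'² ph(y) - ph = v'² - v0'² ≥
2 v0' (v' - v0')` (`vp_sq`).  With `th = a vp` (`th' = a' vp + a dvp`, `a` is `C^2`, `a 0 = 0`:
`|th'| ≤ K` on `(0,Λ]`, because `a = a'(0) ξ + O(ξ²)`, `a' = a'(0) + O(ξ)`, and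
`vp + ξ dvp = (sin y - y cos y)/(2 sin² y)`, `y = ξ/2`, is bounded by `ξ`-multiples
(`0 ≤ sin y - y cos y ≤ y³/3`), `vp ≤ π/ξ`, `|dvp| ≤ π²/ξ²`):
`∫_ε^Λ a (v'² - v0'²) ≥ 2 ∫_ε^Λ th (v - v0)' = -2 th(ε) (v - v0)(ε) - 2 ∫_ε^Λ th' (v - v0)`
(integration by parts, `th Λ = 0`), and `|v - v0| ≤ Z + (π/2 - VV ξ)` (`v - v0 ≥ -Z`,
`v ≤ π/2`: `VV_le`), so the last term is `≥ -2 K (Z Λ + ∫_0^Λ (π/2 - VV))` (`VV_int`).
`ε → 0+`: `th(ε) = (a(ε)/ε) (ε vp(ε)) → a'(0)` and `(v - v0)(ε) → log (y' 0)` (`VV_limit`); the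
left side tends to the integral over `(0,Λ)` (integrable by hypothesis).
`C = 2 K (Λ + ∫_0^Λ (π/2 - VV))` (or any larger constant). -/

set_option autoImplicit false
open Real Set MeasureTheory

namespace Pool.Agent.H45.DY
open Pool.Agent.H45.FL Pool.Agent.H51.DG

private lemma LB_sin {ξ : ℝ} (h0 : 0 < ξ) (h1 : ξ < 2 * π) : 0 < Real.sin (ξ / 2) :=
  Real.sin_pos_of_pos_of_lt_pi (by linarith) (by linarith)

private lemma LB_vp_ge {ξ : ℝ} (h0 : 0 < ξ) (h1 : ξ < 2 * π) : 1 / 2 ≤ vp ξ := by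
  unfold vp
  split_ifs
  · have h2 := LB_sin h0 h1
    have h3 := Real.sin_le_one (ξ / 2)
    apply one_div_le_one_div_of_le
    · positivity
    · linarith
  · exact le_rfl

private lemma LB_dph {ξ : ℝ} (h0 : 0 < ξ) (h1 : ξ < 2 * π) : dph ξ = 2 * vp ξ * dvp ξ := by
  unfold dph vp dvp
  split_ifs
  · have h2 := (LB_sin h0 h1).ne'
    field_simp
  · simp

private lemma LB_comb {ξ : ℝ} (h0 : 0 < ξ) (h1 : ξ < 2 * π) : |vp ξ + ξ * dvp ξ| ≤ 1 := by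
  have h2 := comb_le ξ h0 h1
  have h3 := LB_vp_ge h0 h1
  rw [LB_dph h0 h1, ← vp_sq ξ] at h2
  have h4 : 2 * vp ξ ^ 2 + ξ * (2 * vp ξ * dvp ξ) = (2 * vp ξ) * (vp ξ + ξ * dvp ξ) := by ring
  rw [h4, abs_mul, abs_of_pos (by linarith : (0:ℝ) < 2 * vp ξ)] at h2
  nlinarith [abs_nonneg (vp ξ + ξ * dvp ξ)]

private lemma LB_dvp {ξ : ℝ} (h0 : 0 < ξ) (h1 : ξ < 2 * π) : |dvp ξ| ≤ π ^ 2 / ξ ^ 2 := by
  refine le_trans ?_ (ph_le ξ h0 h1)
  unfold dvp ph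
  split_ifs
  · have h2 := LB_sin h0 h1
    rw [abs_neg, abs_div, abs_of_pos (by positivity : (0:ℝ) < 4 * Real.sin (ξ / 2) ^ 2)]
    apply div_le_div_of_nonneg_right (Real.abs_cos_le_one _) (by positivity)
  · norm_num

/-- bound of the derivative of `a vp` -/
private lemma LB_th (a : ℝ → ℝ) (ha : ContDiff ℝ 2 a) (Λ : ℝ) (h0 : 0 < Λ) (h1 : Λ < 2 * π)
    (a0 : a 0 = 0) : ∃ K : ℝ, 0 ≤ K ∧ ∀ ξ, 0 < ξ → ξ ≤ Λ →
      |deriv a ξ * vp ξ + a ξ * dvp ξ| ≤ K := by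
  have hd : Differentiable ℝ a := ha.differentiable (by norm_num)
  have ha1 : ContDiff ℝ 1 (deriv a) := by
    have : ContDiff ℝ (1 + 1) a := by norm_num; exact ha
    exact (contDiff_succ_iff_deriv.1 this).2.2
  have hd1 : Differentiable ℝ (deriv a) := ha1.differentiable (by norm_num)
  have hc2 : Continuous (deriv (deriv a)) := ha1.continuous_deriv (by norm_num)
  obtain ⟨M, hM⟩ := (isCompact_Icc (a := (0:ℝ)) (b := Λ)).exists_bound_of_continuousOn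
    hc2.continuousOn
  have hM0 : 0 ≤ M := le_trans (norm_nonneg _) (hM 0 ⟨le_rfl, h0.le⟩)
  have e1 : ∀ ξ, 0 ≤ ξ → ξ ≤ Λ → |deriv a ξ - deriv a 0| ≤ M * ξ := by
    intro ξ hξ hξ1
    have := Convex.norm_image_sub_le_of_norm_deriv_le (f := deriv a) (s := Icc 0 Λ) (C := M)
      (x := 0) (y := ξ) (fun z _ => hd1 z) (fun z hz => hM z hz) (convex_Icc _ _)
      ⟨le_rfl, h0.le⟩ ⟨hξ, hξ1⟩
    simpa [Real.norm_eq_abs, abs_of_nonneg hξ] using this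
  have e2 : ∀ ξ, 0 ≤ ξ → ξ ≤ Λ → |a ξ - deriv a 0 * ξ| ≤ M * ξ * ξ := by
    intro ξ hξ hξ1
    have hder : ∀ z, HasDerivAt (fun x => a x - deriv a 0 * x) (deriv a z - deriv a 0) z := by
      intro z
      have := ((hd z).hasDerivAt).sub ((hasDerivAt_id z).const_mul (deriv a 0))
      rw [mul_one] at this
      exact this
    have := Convex.norm_image_sub_le_of_norm_hasDerivWithin_le
      (f := fun x => a x - deriv a 0 * x) (f' := fun z => deriv a z - deriv a 0)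
      (s := Icc 0 ξ) (C := M * ξ)
      (x := 0) (y := ξ) (fun z _ => (hder z).hasDerivWithinAt) (fun z hz => by
        rw [Real.norm_eq_abs]
        refine (e1 z hz.1 (hz.2.trans hξ1)).trans ?_
        exact mul_le_mul_of_nonneg_left hz.2 hM0) (convex_Icc _ _)
      ⟨le_rfl, hξ⟩ ⟨hξ, le_rfl⟩
    simpa [Real.norm_eq_abs, abs_of_nonneg hξ, a0] using this
  refine ⟨|deriv a 0| + M * π + M * π ^ 2, by positivity, ?_⟩
  intro ξ hξ hξ1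
  have hξ2 : ξ < 2 * π := lt_of_le_of_lt hξ1 h1
  have hv := vp_le ξ hξ hξ2
  have hvp := vp_pos ξ hξ hξ2
  have hdv := LB_dvp hξ hξ2
  have hco := LB_comb hξ hξ2
  have e3 : deriv a ξ * vp ξ + a ξ * dvp ξ = deriv a 0 * (vp ξ + ξ * dvp ξ)
      + (deriv a ξ - deriv a 0) * vp ξ + (a ξ - deriv a 0 * ξ) * dvp ξ := by ring
  rw [e3]
  refine (abs_add_le _ _).trans (add_le_add ((abs_add_le _ _).trans (add_le_add ?_ ?_)) ?_)
  · rw [abs_mul]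
    exact mul_le_of_le_one_right (abs_nonneg _) hco
  · rw [abs_mul, abs_of_pos hvp]
    calc |deriv a ξ - deriv a 0| * vp ξ ≤ (M * ξ) * (π / ξ) :=
          mul_le_mul (e1 ξ hξ.le hξ1) hv hvp.le (by positivity)
      _ = M * π := by field_simp
  · rw [abs_mul]
    calc |a ξ - deriv a 0 * ξ| * |dvp ξ| ≤ (M * ξ * ξ) * (π ^ 2 / ξ ^ 2) :=
          mul_le_mul (e2 ξ hξ.le hξ1) hdv (abs_nonneg _) (by positivity)
      _ = M * π ^ 2 := by field_simp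

private lemma LB_vpc : ContinuousOn vp (Ioo 0 (2 * π)) := fun x hx =>
  (vp_hasDerivAt x hx.1 hx.2).continuousAt.continuousWithinAt

/-- the inequality on `(ε,Λ)` -/
private lemma LB_eps (a : ℝ → ℝ) (ha : ContDiff ℝ 2 a) (Λ : ℝ) (h1 : Λ < 2 * π)
    (aΛ : a Λ = 0) (nn : ∀ x ∈ Icc 0 Λ, 0 ≤ a x) (K : ℝ) (hK0 : 0 ≤ K)
    (hK : ∀ ξ, 0 < ξ → ξ ≤ Λ → |deriv a ξ * vp ξ + a ξ * dvp ξ| ≤ K)
    (y y' : ℝ → ℝ) (hy : ∀ ξ ∈ Icc 0 Λ, HasDerivAt y (y' ξ) ξ)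
    (hc : ContinuousOn y' (Icc 0 Λ)) (hy0 : ∀ ξ, 0 < ξ → ξ ≤ Λ → 0 < y ξ ∧ y ξ < 2 * π)
    (Z : ℝ) (hZ0 : 0 ≤ Z) (hZ : ∀ ξ ∈ Ioo 0 Λ, VV ξ - Z ≤ VV (y ξ))
    (hi : IntegrableOn (fun ξ => a ξ * (y' ξ ^ 2 * ph (y ξ) - ph ξ)) (Ioo 0 Λ))
    (hVi : IntegrableOn VV (Ioo 0 Λ))
    (ε : ℝ) (hε : 0 < ε) (hεΛ : ε < Λ) :
    -∫ ξ in ε..Λ, a ξ * (y' ξ ^ 2 * ph (y ξ) - ph ξ) ≤
      2 * (a ε * vp ε) * (VV (y ε) - VV ε)
        + 2 * K * (Z * Λ + ∫ ξ in Ioo 0 Λ, (π / 2 - VV ξ)) := by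
  have hsub : ∀ ξ ∈ uIcc ε Λ, 0 < ξ ∧ ξ ≤ Λ := by
    intro ξ hξ
    rw [uIcc_of_le hεΛ.le] at hξ
    exact ⟨lt_of_lt_of_le hε hξ.1, hξ.2⟩
  have hsubI : ∀ ξ ∈ uIcc ε Λ, ξ ∈ Icc 0 Λ := fun ξ hξ => ⟨(hsub ξ hξ).1.le, (hsub ξ hξ).2⟩
  have hd : Differentiable ℝ a := ha.differentiable (by norm_num)
  have hca : Continuous (deriv a) := ha.continuous_deriv (by norm_num)
  have hyc : ContinuousOn y (uIcc ε Λ) := fun ξ hξ =>
    (hy ξ (hsubI ξ hξ)).continuousAt.continuousWithinAt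
  have hmem : ∀ ξ ∈ uIcc ε Λ, ξ ∈ Ioo 0 (2 * π) := fun ξ hξ =>
    ⟨(hsub ξ hξ).1, lt_of_le_of_lt (hsub ξ hξ).2 h1⟩
  have hvc : ContinuousOn vp (uIcc ε Λ) := LB_vpc.mono hmem
  have hvyc : ContinuousOn (fun ξ => vp (y ξ)) (uIcc ε Λ) :=
    LB_vpc.comp hyc (fun ξ hξ => hy0 ξ (hsub ξ hξ).1 (hsub ξ hξ).2)
  have hdvc : ContinuousOn dvp (uIcc ε Λ) := dvp_continuousOn.mono hmem
  have hyc' : ContinuousOn y' (uIcc ε Λ) := hc.mono hsubI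
  have hth : ∀ ξ ∈ uIcc ε Λ, HasDerivAt (fun x => a x * vp x)
      (deriv a ξ * vp ξ + a ξ * dvp ξ) ξ := fun ξ hξ =>
    (hd ξ).hasDerivAt.mul (vp_hasDerivAt ξ (hmem ξ hξ).1 (hmem ξ hξ).2)
  have hg : ∀ ξ ∈ uIcc ε Λ, HasDerivAt (fun x => VV (y x) - VV x)
      (vp (y ξ) * y' ξ - vp ξ) ξ := by
    intro ξ hξ
    have h2 := hy0 ξ (hsub ξ hξ).1 (hsub ξ hξ).2
    exact ((VV_hasDerivAt (y ξ) h2.1 h2.2).comp ξ (hy ξ (hsubI ξ hξ))).sub
      (VV_hasDerivAt ξ (hmem ξ hξ).1 (hmem ξ hξ).2)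
  have hth'c : ContinuousOn (fun ξ => deriv a ξ * vp ξ + a ξ * dvp ξ) (uIcc ε Λ) :=
    (hca.continuousOn.mul hvc).add (hd.continuous.continuousOn.mul hdvc)
  have hg'c : ContinuousOn (fun ξ => vp (y ξ) * y' ξ - vp ξ) (uIcc ε Λ) :=
    (hvyc.mul hyc').sub hvc
  have hthc : ContinuousOn (fun ξ => a ξ * vp ξ) (uIcc ε Λ) := fun ξ hξ =>
    (hth ξ hξ).continuousAt.continuousWithinAt
  have hgc : ContinuousOn (fun x => VV (y x) - VV x) (uIcc ε Λ) := fun ξ hξ =>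
    (hg ξ hξ).continuousAt.continuousWithinAt
  have hparts := intervalIntegral.integral_mul_deriv_eq_deriv_mul hth hg
    hth'c.intervalIntegrable hg'c.intervalIntegrable
  have hFi : IntervalIntegrable (fun ξ => a ξ * (y' ξ ^ 2 * ph (y ξ) - ph ξ)) volume ε Λ := by
    rw [intervalIntegrable_iff_integrableOn_Ioo_of_le hεΛ.le]
    exact hi.mono_set (Ioo_subset_Ioo_left hε.le)
  -- pointwise comparison
  have hcomp : ∫ ξ in ε..Λ, 2 * (a ξ * vp ξ * (vp (y ξ) * y' ξ - vp ξ)) ≤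
      ∫ ξ in ε..Λ, a ξ * (y' ξ ^ 2 * ph (y ξ) - ph ξ) := by
    refine intervalIntegral.integral_mono_on hεΛ.le
      ((hthc.mul hg'c).const_smul (2:ℝ) |>.intervalIntegrable) hFi ?_
    intro ξ hξ
    have hξ' : ξ ∈ uIcc ε Λ := by rw [uIcc_of_le hεΛ.le]; exact hξ
    have h2 := nn ξ (hsubI ξ hξ')
    rw [← vp_sq, ← vp_sq]
    have h3 : 0 ≤ a ξ * (vp (y ξ) * y' ξ - vp ξ) ^ 2 := mul_nonneg h2 (sq_nonneg _)
    nlinarith
  -- bound of the last term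
  have hVI : IntervalIntegrable VV volume ε Λ := by
    rw [intervalIntegrable_iff_integrableOn_Ioo_of_le hεΛ.le]
    exact hVi.mono_set (Ioo_subset_Ioo_left hε.le)
  have hbnd : |∫ ξ in ε..Λ, (deriv a ξ * vp ξ + a ξ * dvp ξ) * (VV (y ξ) - VV ξ)| ≤
      K * (Z * Λ + ∫ ξ in Ioo 0 Λ, (π / 2 - VV ξ)) := by
    have h2 : |∫ ξ in ε..Λ, (deriv a ξ * vp ξ + a ξ * dvp ξ) * (VV (y ξ) - VV ξ)| ≤
        ∫ ξ in ε..Λ, |(deriv a ξ * vp ξ + a ξ * dvp ξ) * (VV (y ξ) - VV ξ)| :=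
      intervalIntegral.abs_integral_le_integral_abs hεΛ.le
    refine h2.trans ?_
    have h3 : ∫ ξ in ε..Λ, |(deriv a ξ * vp ξ + a ξ * dvp ξ) * (VV (y ξ) - VV ξ)| ≤
        ∫ ξ in ε..Λ, K * (Z + (π / 2 - VV ξ)) := by
      refine intervalIntegral.integral_mono_on_of_le_Ioo hεΛ.le
        (hth'c.mul hgc).abs.intervalIntegrable
        (((intervalIntegrable_const (c := Z)).add
          ((intervalIntegrable_const (c := π / 2)).sub hVI)).const_mul K) ?_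
      intro ξ hξ
      have hξ0 : 0 < ξ := hε.trans hξ.1
      have h4 := hy0 ξ hξ0 hξ.2.le
      have h5 := VV_le (y ξ) h4.1 h4.2.le
      have h6 := VV_le ξ hξ0 (hξ.2.trans h1).le
      have h7 := hZ ξ ⟨hξ0, hξ.2⟩
      have h8 : |VV (y ξ) - VV ξ| ≤ Z + (π / 2 - VV ξ) := by
        rw [abs_le]
        constructor <;> linarith
      rw [abs_mul]
      exact mul_le_mul (hK ξ hξ0 hξ.2.le) h8 (abs_nonneg _) hK0
    refine h3.trans ?_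
    rw [intervalIntegral.integral_const_mul]
    refine mul_le_mul_of_nonneg_left ?_ hK0
    have h9 : ∫ ξ in ε..Λ, (Z + (π / 2 - VV ξ)) = Z * (Λ - ε) + ∫ ξ in ε..Λ, (π / 2 - VV ξ) := by
      rw [intervalIntegral.integral_add intervalIntegrable_const
        ((intervalIntegrable_const (c := π / 2)).sub hVI), intervalIntegral.integral_const]
      simp [mul_comm]
    rw [h9]
    refine add_le_add (mul_le_mul_of_nonneg_left (by linarith) hZ0) ?_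
    rw [intervalIntegral.integral_of_le hεΛ.le, integral_Ioc_eq_integral_Ioo]
    refine setIntegral_mono_set ?_ ?_ ?_
    · exact (integrable_const _).sub hVi
    · refine (ae_restrict_iff' measurableSet_Ioo).2 (Filter.Eventually.of_forall ?_)
      intro ξ hξ
      have := VV_le ξ hξ.1 (hξ.2.trans h1).le
      simp only [Pi.zero_apply]
      linarith
    · exact (Ioo_subset_Ioo_left hε.le).eventuallyLE
  have h10 := (abs_le.1 hbnd).2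
  rw [intervalIntegral.integral_const_mul, hparts] at hcomp
  simp only [aΛ, zero_mul, zero_sub] at hcomp
  nlinarith

theorem LB (a : ℝ → ℝ) (ha : ContDiff ℝ 2 a) (Λ : ℝ) (h0 : 0 < Λ) (h1 : Λ < 2 * π)
    (a0 : a 0 = 0) (aΛ : a Λ = 0) (nn : ∀ x ∈ Icc 0 Λ, 0 ≤ a x) :
    ∃ C : ℝ, 0 ≤ C ∧ ∀ (y y' : ℝ → ℝ), (∀ ξ ∈ Icc 0 Λ, HasDerivAt y (y' ξ) ξ) →
      ContinuousOn y' (Icc 0 Λ) → (∀ ξ ∈ Icc 0 Λ, 0 < y' ξ) → y 0 = 0 → y Λ < 2 * π →
      ∀ Z : ℝ, 0 ≤ Z → (∀ ξ ∈ Ioo 0 Λ, VV ξ - Z ≤ VV (y ξ)) →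
      IntegrableOn (fun ξ => a ξ * (y' ξ ^ 2 * ph (y ξ) - ph ξ)) (Ioo 0 Λ) →
      -∫ ξ in Ioo 0 Λ, a ξ * (y' ξ ^ 2 * ph (y ξ) - ph ξ) ≤
        2 * deriv a 0 * Real.log (y' 0) + C * (1 + Z) := by
  obtain ⟨K, hK0, hK⟩ := LB_th a ha Λ h0 h1 a0
  have hVi := VV_int Λ h0 h1.le
  set I := ∫ ξ in Ioo 0 Λ, (π / 2 - VV ξ) with hI
  have hI0 : 0 ≤ I := by
    refine setIntegral_nonneg measurableSet_Ioo ?_
    intro ξ hξ
    have := VV_le ξ hξ.1 (hξ.2.trans h1).le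
    linarith
  refine ⟨2 * K * (Λ + I), by positivity, ?_⟩
  intro y y' hy hc hpos hy00 hyΛ Z hZ0 hZ hi
  have hycI : ContinuousOn y (Icc 0 Λ) := fun ξ hξ => (hy ξ hξ).continuousAt.continuousWithinAt
  have hmono : StrictMonoOn y (Icc 0 Λ) := by
    refine strictMonoOn_of_deriv_pos (convex_Icc 0 Λ) hycI ?_
    intro ξ hξ
    have hξ' := interior_subset hξ
    rw [(hy ξ hξ').deriv]
    exact hpos ξ hξ'
  have hy0 : ∀ ξ, 0 < ξ → ξ ≤ Λ → 0 < y ξ ∧ y ξ < 2 * π := by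
    intro ξ hξ hξ1
    constructor
    · have := hmono ⟨le_rfl, h0.le⟩ ⟨hξ.le, hξ1⟩ hξ
      rwa [hy00] at this
    · exact lt_of_le_of_lt (hmono.monotoneOn ⟨hξ.le, hξ1⟩ ⟨h0.le, le_rfl⟩ hξ1) hyΛ
  have hFI : IntervalIntegrable (fun ξ => a ξ * (y' ξ ^ 2 * ph (y ξ) - ph ξ)) volume 0 Λ := by
    rw [intervalIntegrable_iff_integrableOn_Ioo_of_le h0.le]
    exact hi
  -- the limits
  have hl1 : Filter.Tendsto (fun ε => -∫ ξ in ε..Λ, a ξ * (y' ξ ^ 2 * ph (y ξ) - ph ξ))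
      (nhdsWithin 0 (Ioi 0)) (nhds (-∫ ξ in (0:ℝ)..Λ, a ξ * (y' ξ ^ 2 * ph (y ξ) - ph ξ))) := by
    refine Filter.Tendsto.neg ?_
    have h2 : ContinuousOn (fun ε => ∫ ξ in ε..Λ, a ξ * (y' ξ ^ 2 * ph (y ξ) - ph ξ))
        (uIcc 0 Λ) := by
      have := intervalIntegral.continuousOn_primitive_interval_left (a := 0) (b := Λ)
        (μ := volume) (f := fun ξ => a ξ * (y' ξ ^ 2 * ph (y ξ) - ph ξ)) ?_
      · exact this
      · rw [uIcc_of_le h0.le, integrableOn_Icc_iff_integrableOn_Ioo]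
        exact hi
    have h3 := h2 0 left_mem_uIcc
    rw [uIcc_of_le h0.le] at h3
    refine h3.mono_left ?_
    rw [← nhdsWithin_Ioo_eq_nhdsGT h0]
    exact nhdsWithin_mono _ Ioo_subset_Icc_self
  have hl2 : Filter.Tendsto (fun ε => VV (y ε) - VV ε) (nhdsWithin 0 (Ioi 0))
      (nhds (Real.log (y' 0))) :=
    VV_limit y (y' 0) (hy 0 ⟨le_rfl, h0.le⟩) (hpos 0 ⟨le_rfl, h0.le⟩) hy00
  have hl3 : Filter.Tendsto (fun ε => a ε * vp ε) (nhdsWithin 0 (Ioi 0))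
      (nhds (deriv a 0)) := by
    have hd : HasDerivAt a (deriv a 0) 0 := (ha.differentiable (by norm_num) 0).hasDerivAt
    have h2 : Filter.Tendsto (fun ε => a ε / ε) (nhdsWithin 0 (Ioi 0)) (nhds (deriv a 0)) := by
      have := hd.tendsto_slope.mono_left
        (nhdsWithin_mono (0:ℝ) (show Ioi (0:ℝ) ⊆ {0}ᶜ from fun x hx => ne_of_gt hx))
      refine this.congr' ?_
      filter_upwards with ε
      rw [slope_def_field, a0, sub_zero, sub_zero]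
    have h3 : Filter.Tendsto (fun ε : ℝ => ε * vp ε) (nhdsWithin 0 (Ioi 0)) (nhds 1) := by
      have hs : HasDerivAt (fun x : ℝ => 2 * Real.sin (x / 2)) 1 0 := by
        have := ((Real.hasDerivAt_sin (0 / 2)).comp (0:ℝ) ((hasDerivAt_id (0:ℝ)).div_const 2)).const_mul 2
        rw [zero_div, Real.cos_zero, show (2:ℝ) * (1 * (1 / 2)) = 1 by norm_num] at this
        exact this
      have h4 := hs.tendsto_slope.mono_left
        (nhdsWithin_mono (0:ℝ) (show Ioi (0:ℝ) ⊆ {0}ᶜ from fun x hx => ne_of_gt hx))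
      have h5 := h4.inv₀ one_ne_zero
      rw [inv_one] at h5
      refine h5.congr' ?_
      filter_upwards [Ioo_mem_nhdsGT Real.pi_pos] with ε hε
      rw [slope_def_field]
      unfold vp
      rw [if_pos hε.2.le, inv_div, zero_div, Real.sin_zero]
      ring
    have h6 := h2.mul h3
    rw [mul_one] at h6
    refine h6.congr' ?_
    filter_upwards [self_mem_nhdsWithin] with ε hε
    have : (ε:ℝ) ≠ 0 := ne_of_gt hε
    field_simp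
  have hl4 : Filter.Tendsto (fun ε => 2 * (a ε * vp ε) * (VV (y ε) - VV ε)
      + 2 * K * (Z * Λ + I)) (nhdsWithin 0 (Ioi 0))
      (nhds (2 * deriv a 0 * Real.log (y' 0) + 2 * K * (Z * Λ + I))) :=
    ((hl3.const_mul 2).mul hl2).add_const _
  have hfin : -∫ ξ in (0:ℝ)..Λ, a ξ * (y' ξ ^ 2 * ph (y ξ) - ph ξ) ≤
      2 * deriv a 0 * Real.log (y' 0) + 2 * K * (Z * Λ + I) := by
    refine le_of_tendsto_of_tendsto hl1 hl4 ?_
    filter_upwards [Ioo_mem_nhdsGT h0] with ε hε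
    exact LB_eps a ha Λ h1 aΛ nn K hK0 hK y y' hy hc hy0 Z hZ0 hZ hi hVi ε hε.1 hε.2
  rw [intervalIntegral.integral_of_le h0.le, integral_Ioc_eq_integral_Ioo] at hfin
  refine hfin.trans ?_
  have h20 : 0 ≤ K * (Λ + Z * I) := by positivity
  nlinarith

end Pool.Agent.H45.DY
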