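import Pool.Agent.H45.DY.Basic

/-! JOB DY-01.  Static facts on `ph`, `dph`, `vp`, `VV` (definitions in `Pool/Agent/H51/DG/St.lean`).

On `(0,π]`: `ph = 1/(4 sin²(ξ/2))`, `vp = 1/(2 sin(ξ/2))`, `VV = log tan(ξ/4)`; on `[π,2π)`:
`1/4`, `1/2`, `(ξ-π)/2`.  At `ξ = π` both one-sided derivatives agree (`cos(π/2) = 0`;
`log tan` has derivative `1/(2 sin(ξ/2))`): use `HasDerivWithinAt.union`/`hasDerivAt_of_...` on
`Iic π` and `Ici π`, or `HasDerivAt` off `π` plus the two one-sided ones at `π`.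
Bounds: `sin(ξ/2) ≥ ξ/π` on `[0,π]` (`Real.mul_le_sin`);
`0 ≤ sin y - y cos y ≤ y³/3` for `y ≥ 0` (derivative `y sin y ≤ y²`) gives
`|2 ph ξ + ξ dph ξ| = |2 sin y - 2 y cos y|/(4 sin³ y) ≤ (2y³/3)/(4 (2y/π)³) = π³/48 ≤ 1`, `y = ξ/2`.
`VV_ge`: `tan(ξ/4) ≥ ξ/4`. `VV_int`: `|VV ξ| ≤ π/2 + |log(ξ/4)|` on `(0,2π)`, and `log` is
integrable (`intervalIntegral.intervalIntegrable_log'`); `VV` is continuous on `(0,2π)`. -/

set_option autoImplicit false
open Real Set MeasureTheory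

namespace Pool.Agent.H45.DY
open Pool.Agent.H45.FL Pool.Agent.H51.DG

/-- gluing at `π` -/
private lemma PhLem_glue {g h : ℝ → ℝ} {d ξ : ℝ} (hg : ξ ≤ π → HasDerivAt g d ξ)
    (hh : π ≤ ξ → HasDerivAt h d ξ) (heq : g π = h π) :
    HasDerivAt (fun x => if x ≤ π then g x else h x) d ξ := by
  rcases lt_trichotomy ξ π with hx | hx | hx
  · refine (hg hx.le).congr_of_eventuallyEq ?_
    filter_upwards [Iio_mem_nhds hx] with x hx'
    rw [if_pos (le_of_lt hx')]
  · subst hx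
    have h1 : HasDerivWithinAt (fun x => if x ≤ π then g x else h x) d (Iic π) π := by
      refine (hg le_rfl).hasDerivWithinAt.congr (fun x hx => ?_) ?_
      · exact if_pos (mem_Iic.1 hx)
      · rw [if_pos le_rfl]
    have h2 : HasDerivWithinAt (fun x => if x ≤ π then g x else h x) d (Ici π) π := by
      refine (hh le_rfl).hasDerivWithinAt.congr (fun x hx => ?_) ?_
      · by_cases hx' : x ≤ π
        · have : x = π := le_antisymm hx' hx
          rw [this, if_pos le_rfl, heq]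
        · rw [if_neg hx']
      · rw [if_pos le_rfl, heq]
    have h3 := h1.union h2
    rw [Iic_union_Ici] at h3
    exact h3.hasDerivAt Filter.univ_mem
  · refine (hh hx.le).congr_of_eventuallyEq ?_
    filter_upwards [Ioi_mem_nhds hx] with x hx'
    rw [if_neg (not_le.2 hx')]

private lemma PhLem_sin_pos {ξ : ℝ} (h0 : 0 < ξ) (h1 : ξ ≤ π) : 0 < Real.sin (ξ / 2) :=
  Real.sin_pos_of_pos_of_lt_pi (by linarith) (by linarith [Real.pi_pos])

private lemma PhLem_sin_ge {ξ : ℝ} (h0 : 0 < ξ) (h1 : ξ ≤ π) : ξ / π ≤ Real.sin (ξ / 2) := by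
  have h := Real.mul_le_sin (x := ξ / 2) (by linarith) (by linarith)
  have h2 : 2 / π * (ξ / 2) = ξ / π := by ring
  rwa [h2] at h

private lemma PhLem_min (ξ : ℝ) : dph ξ =
    -(Real.cos (min ξ π / 2) / (4 * Real.sin (min ξ π / 2) ^ 3)) := by
  unfold dph
  split_ifs with h
  · rw [min_eq_left h]
  · rw [min_eq_right (not_le.1 h).le, Real.cos_pi_div_two]
    norm_num

private lemma PhLem_min2 (ξ : ℝ) : dvp ξ =
    -(Real.cos (min ξ π / 2) / (4 * Real.sin (min ξ π / 2) ^ 2)) := by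
  unfold dvp
  split_ifs with h
  · rw [min_eq_left h]
  · rw [min_eq_right (not_le.1 h).le, Real.cos_pi_div_two]
    norm_num

private lemma PhLem_sin_min {ξ : ℝ} (h : 0 < ξ) : 0 < Real.sin (min ξ π / 2) :=
  PhLem_sin_pos (lt_min h Real.pi_pos) (min_le_right _ _)

private lemma PhLem_sin_deriv (ξ : ℝ) :
    HasDerivAt (fun x : ℝ => Real.sin (x / 2)) (Real.cos (ξ / 2) * (1 / 2)) ξ := by
  have h := (Real.hasDerivAt_sin (ξ / 2)).comp ξ ((hasDerivAt_id ξ).div_const 2)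
  exact HasDerivAt.congr_deriv (f := fun x : ℝ => Real.sin (x / 2)) h (by simp)

lemma ph_hasDerivAt (ξ : ℝ) (h0 : 0 < ξ) (h1 : ξ < 2 * π) : HasDerivAt ph (dph ξ) ξ := by
  have hfun : ph = fun x => if x ≤ π then (fun y => 1 / (4 * Real.sin (y / 2) ^ 2)) x
      else (fun _ : ℝ => (1 / 4 : ℝ)) x := rfl
  rw [hfun]
  refine PhLem_glue (fun hx => ?_) (fun hx => ?_) ?_
  · have hs := PhLem_sin_pos h0 hx
    have h2 : HasDerivAt (fun y : ℝ => 4 * Real.sin (y / 2) ^ 2)
        (4 * (2 * Real.sin (ξ / 2) * (Real.cos (ξ / 2) * (1 / 2)))) ξ := by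
      have := ((PhLem_sin_deriv ξ).mul (PhLem_sin_deriv ξ)).const_mul 4
      refine (this.congr_of_eventuallyEq (Filter.Eventually.of_forall fun y => ?_)).congr_deriv ?_
      · show 4 * Real.sin (y / 2) ^ 2 = 4 * (Real.sin (y / 2) * Real.sin (y / 2))
        ring
      · ring
    have h3 : HasDerivAt (fun y : ℝ => 1 / (4 * Real.sin (y / 2) ^ 2))
        ((0 * (4 * Real.sin (ξ / 2) ^ 2) - 1 *
          (4 * (2 * Real.sin (ξ / 2) * (Real.cos (ξ / 2) * (1 / 2))))) /
          (4 * Real.sin (ξ / 2) ^ 2) ^ 2) ξ :=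
      (hasDerivAt_const ξ (1:ℝ)).div h2 (by positivity)
    refine h3.congr_deriv ?_
    unfold dph
    rw [if_pos hx]
    field_simp
    ring
  · have : dph ξ = 0 := by
      rw [PhLem_min, min_eq_right hx, Real.cos_pi_div_two]
      norm_num
    rw [this]
    exact hasDerivAt_const _ _
  · simp only [Real.sin_pi_div_two]
    norm_num

lemma vp_hasDerivAt (ξ : ℝ) (h0 : 0 < ξ) (h1 : ξ < 2 * π) : HasDerivAt vp (dvp ξ) ξ := by
  have hfun : vp = fun x => if x ≤ π then (fun y => 1 / (2 * Real.sin (y / 2))) x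
      else (fun _ : ℝ => (1 / 2 : ℝ)) x := rfl
  rw [hfun]
  refine PhLem_glue (fun hx => ?_) (fun hx => ?_) ?_
  · have hs := PhLem_sin_pos h0 hx
    have h2 := (PhLem_sin_deriv ξ).const_mul 2
    have h3 := (hasDerivAt_const ξ (1:ℝ)).div h2 (by positivity)
    refine h3.congr_deriv ?_
    unfold dvp
    rw [if_pos hx]
    field_simp
    ring
  · have : dvp ξ = 0 := by
      rw [PhLem_min2, min_eq_right hx, Real.cos_pi_div_two]
      norm_num
    rw [this]
    exact hasDerivAt_const _ _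
  · simp only [Real.sin_pi_div_two]
    norm_num

private lemma PhLem_tan_pos {ξ : ℝ} (h0 : 0 < ξ) (h1 : ξ ≤ π) : 0 < Real.tan (ξ / 4) :=
  Real.tan_pos_of_pos_of_lt_pi_div_two (by linarith) (by linarith [Real.pi_pos])

private lemma PhLem_cos_pos {ξ : ℝ} (h0 : 0 < ξ) (h1 : ξ ≤ π) : 0 < Real.cos (ξ / 4) :=
  Real.cos_pos_of_mem_Ioo ⟨by linarith [Real.pi_pos], by linarith [Real.pi_pos]⟩

lemma VV_hasDerivAt (ξ : ℝ) (h0 : 0 < ξ) (h1 : ξ < 2 * π) : HasDerivAt VV (vp ξ) ξ := by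
  have hfun : VV = fun x => if x ≤ π then (fun y => Real.log (Real.tan (y / 4))) x
      else (fun y : ℝ => (y - π) / 2) x := rfl
  rw [hfun]
  refine PhLem_glue (fun hx => ?_) (fun hx => ?_) ?_
  · have hs := PhLem_sin_pos h0 hx
    have ht := PhLem_tan_pos h0 hx
    have hc := PhLem_cos_pos h0 hx
    have h2 := (Real.hasDerivAt_tan hc.ne').comp ξ ((hasDerivAt_id ξ).div_const 4)
    have h3 : HasDerivAt (fun x : ℝ => Real.log (Real.tan (x / 4)))
        (1 / Real.cos (ξ / 4) ^ 2 * (1 / 4) / Real.tan (ξ / 4)) ξ :=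
      HasDerivAt.log h2 ht.ne'
    refine h3.congr_deriv ?_
    unfold vp
    rw [if_pos hx]
    have hs4 : 0 < Real.sin (ξ / 4) :=
      Real.sin_pos_of_pos_of_lt_pi (by linarith) (by linarith [Real.pi_pos])
    have hsin : Real.sin (ξ / 2) = 2 * Real.sin (ξ / 4) * Real.cos (ξ / 4) := by
      rw [← Real.sin_two_mul]
      ring_nf
    rw [Real.tan_eq_sin_div_cos, hsin]
    field_simp
    ring
  · have : vp ξ = 1 / 2 := by
      rw [show vp ξ = 1 / (2 * Real.sin (min ξ π / 2)) from ?_]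
      · rw [min_eq_right hx, Real.sin_pi_div_two]
        norm_num
      · unfold vp
        split_ifs with h
        · rw [min_eq_left h]
        · rw [min_eq_right (not_le.1 h).le, Real.sin_pi_div_two]
          norm_num
    rw [this]
    have := ((hasDerivAt_id ξ).sub_const π).div_const 2
    simpa using this
  · simp only [Real.tan_pi_div_four, Real.log_one, sub_self, zero_div]

lemma dph_continuousOn : ContinuousOn dph (Ioo 0 (2 * π)) := by
  have : dph = fun ξ => -(Real.cos (min ξ π / 2) / (4 * Real.sin (min ξ π / 2) ^ 3)) := by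
    funext ξ
    exact PhLem_min ξ
  rw [this]
  refine ContinuousOn.neg (ContinuousOn.div (by fun_prop) (by fun_prop) ?_)
  intro x hx
  have := PhLem_sin_min hx.1
  positivity

lemma dvp_continuousOn : ContinuousOn dvp (Ioo 0 (2 * π)) := by
  have : dvp = fun ξ => -(Real.cos (min ξ π / 2) / (4 * Real.sin (min ξ π / 2) ^ 2)) := by
    funext ξ
    exact PhLem_min2 ξ
  rw [this]
  refine ContinuousOn.neg (ContinuousOn.div (by fun_prop) (by fun_prop) ?_)
  intro x hx
  have := PhLem_sin_min hx.1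
  positivity

lemma vp_sq (ξ : ℝ) : vp ξ ^ 2 = ph ξ := by
  unfold vp ph
  split_ifs
  · rw [div_pow, mul_pow]
    norm_num
  · norm_num

lemma vp_pos (ξ : ℝ) (h0 : 0 < ξ) (h1 : ξ < 2 * π) : 0 < vp ξ := by
  unfold vp
  split_ifs with h
  · have := PhLem_sin_pos h0 h
    positivity
  · norm_num

lemma ph_pos (ξ : ℝ) (h0 : 0 < ξ) (h1 : ξ < 2 * π) : 0 < ph ξ := by
  rw [← vp_sq]
  have := vp_pos ξ h0 h1
  positivity

lemma vp_le (ξ : ℝ) (h0 : 0 < ξ) (h1 : ξ < 2 * π) : vp ξ ≤ π / ξ := by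
  have hp := Real.pi_pos
  unfold vp
  split_ifs with h
  · have hs := PhLem_sin_pos h0 h
    have h2 := PhLem_sin_ge h0 h
    rw [div_le_iff₀ hp] at h2
    rw [div_le_div_iff₀ (by positivity) h0]
    nlinarith
  · rw [div_le_div_iff₀ (by norm_num) h0]
    linarith

lemma ph_le (ξ : ℝ) (h0 : 0 < ξ) (h1 : ξ < 2 * π) : ph ξ ≤ π ^ 2 / ξ ^ 2 := by
  rw [← vp_sq, ← div_pow]
  exact pow_le_pow_left₀ (vp_pos ξ h0 h1).le (vp_le ξ h0 h1) 2

lemma abs_dph_le (ξ : ℝ) (h0 : 0 < ξ) (h1 : ξ < 2 * π) : |dph ξ| ≤ π ^ 3 / ξ ^ 3 := by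
  have hp := Real.pi_pos
  unfold dph
  split_ifs with h
  · have hs := PhLem_sin_pos h0 h
    have h2 := PhLem_sin_ge h0 h
    rw [div_le_iff₀ hp] at h2
    rw [abs_neg, abs_div, abs_of_pos (show 0 < 4 * Real.sin (ξ / 2) ^ 3 by positivity)]
    have h3 : ξ ^ 3 ≤ (Real.sin (ξ / 2) * π) ^ 3 := pow_le_pow_left₀ h0.le h2 3
    rw [div_le_div_iff₀ (by positivity) (by positivity)]
    have h4 := Real.abs_cos_le_one (ξ / 2)
    have h5 : |Real.cos (ξ / 2)| * ξ ^ 3 ≤ 1 * ξ ^ 3 :=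
      mul_le_mul_of_nonneg_right h4 (by positivity)
    have h6 : 0 ≤ π ^ 3 * Real.sin (ξ / 2) ^ 3 := by positivity
    rw [mul_pow] at h3
    nlinarith
  · rw [abs_zero]
    positivity

lemma comb_le (ξ : ℝ) (h0 : 0 < ξ) (h1 : ξ < 2 * π) : |2 * ph ξ + ξ * dph ξ| ≤ 1 := by
  have hp := Real.pi_pos
  unfold ph dph
  split_ifs with h
  · have hs := PhLem_sin_pos h0 h
    have h2 := PhLem_sin_ge h0 h
    rw [div_le_iff₀ hp] at h2
    have hc : 0 ≤ Real.cos (ξ / 2) :=
      Real.cos_nonneg_of_mem_Icc ⟨by linarith, by linarith⟩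
    have hy0 : 0 ≤ Real.sin (ξ / 2) - ξ / 2 * Real.cos (ξ / 2) := by
      rcases lt_or_eq_of_le (show ξ / 2 ≤ π / 2 by linarith) with hlt | heq
      · have h3 := Real.lt_tan (x := ξ / 2) (by linarith) hlt
        have hcp : 0 < Real.cos (ξ / 2) := Real.cos_pos_of_mem_Ioo ⟨by linarith, hlt⟩
        rw [Real.tan_eq_sin_div_cos, lt_div_iff₀ hcp] at h3
        linarith
      · rw [heq, Real.cos_pi_div_two, Real.sin_pi_div_two]
        norm_num
    have hy1 : Real.sin (ξ / 2) - ξ / 2 * Real.cos (ξ / 2) ≤ (ξ / 2) ^ 3 / 2 := by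
      have h3 := Real.sin_le (x := ξ / 2) (by linarith)
      have h4 := Real.one_sub_sq_div_two_le_cos (x := ξ / 2)
      have h5 : ξ / 2 * (1 - (ξ / 2) ^ 2 / 2) ≤ ξ / 2 * Real.cos (ξ / 2) :=
        mul_le_mul_of_nonneg_left h4 (by linarith)
      nlinarith
    have hform : 2 * (1 / (4 * Real.sin (ξ / 2) ^ 2)) +
        ξ * -(Real.cos (ξ / 2) / (4 * Real.sin (ξ / 2) ^ 3)) =
        (Real.sin (ξ / 2) - ξ / 2 * Real.cos (ξ / 2)) / (2 * Real.sin (ξ / 2) ^ 3) := by
      field_simp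
      ring
    rw [hform, abs_of_nonneg (div_nonneg hy0 (by positivity)), div_le_one (by positivity)]
    have h3 : ξ ^ 3 ≤ (Real.sin (ξ / 2) * π) ^ 3 := pow_le_pow_left₀ h0.le h2 3
    rw [mul_pow] at h3
    have hpi : π ^ 3 ≤ 32 := by
      have h7 : π ≤ 3.15 := Real.pi_lt_d2.le
      calc π ^ 3 ≤ 3.15 ^ 3 := pow_le_pow_left₀ hp.le h7 3
        _ ≤ 32 := by norm_num
    have h8 : Real.sin (ξ / 2) ^ 3 * π ^ 3 ≤ Real.sin (ξ / 2) ^ 3 * 32 :=
      mul_le_mul_of_nonneg_left hpi (by positivity)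
    nlinarith
  · rw [abs_of_nonneg (by norm_num)]
    norm_num

lemma VV_le (ξ : ℝ) (h0 : 0 < ξ) (h1 : ξ ≤ 2 * π) : VV ξ ≤ π / 2 := by
  have hp := Real.pi_pos
  unfold VV
  split_ifs with h
  · have ht := PhLem_tan_pos h0 h
    have h2 : Real.tan (ξ / 4) ≤ 1 := by
      rw [← Real.tan_pi_div_four]
      rcases lt_or_eq_of_le h with hlt | heq
      · exact (Real.tan_lt_tan_of_lt_of_lt_pi_div_two (by linarith) (by linarith)
          (by linarith)).le
      · rw [heq]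
    have h3 := Real.log_nonpos ht.le h2
    linarith
  · linarith

private lemma PhLem_tan_le {x y : ℝ} (h0 : 0 < x) (hxy : x ≤ y) (hy : y ≤ π) :
    Real.tan (x / 4) ≤ Real.tan (y / 4) := by
  rcases lt_or_eq_of_le hxy with hlt | heq
  · exact (Real.tan_lt_tan_of_lt_of_lt_pi_div_two (by linarith [Real.pi_pos])
      (by linarith [Real.pi_pos]) (by linarith)).le
  · rw [heq]

lemma VV_mono : MonotoneOn VV (Ioc 0 (2 * π)) := by
  intro x hx y hy hxy
  have hp := Real.pi_pos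
  unfold VV
  by_cases hy1 : y ≤ π
  · have hx1 : x ≤ π := hxy.trans hy1
    rw [if_pos hx1, if_pos hy1]
    exact Real.log_le_log (PhLem_tan_pos hx.1 hx1) (PhLem_tan_le hx.1 hxy hy1)
  · rw [if_neg hy1]
    by_cases hx1 : x ≤ π
    · rw [if_pos hx1]
      have ht := PhLem_tan_pos hx.1 hx1
      have h2 : Real.tan (x / 4) ≤ 1 := by
        rw [← Real.tan_pi_div_four]
        exact PhLem_tan_le hx.1 hx1 le_rfl
      have h3 := Real.log_nonpos ht.le h2
      linarith [not_le.1 hy1]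
    · rw [if_neg hx1]
      linarith

lemma VV_ge (ξ : ℝ) (h0 : 0 < ξ) (h1 : ξ < 2 * π) : Real.log (ξ / 4) ≤ VV ξ := by
  have hp := Real.pi_pos
  unfold VV
  split_ifs with h
  · exact Real.log_le_log (by linarith) (Real.le_tan (by linarith) (by linarith))
  · have h2 := Real.log_le_sub_one_of_pos (show 0 < ξ / 4 by linarith)
    have h3 : π ≤ 4 := Real.pi_le_four
    linarith [not_le.1 h]

lemma VV_int (Λ : ℝ) (h0 : 0 < Λ) (h1 : Λ ≤ 2 * π) : IntegrableOn VV (Ioo 0 Λ) := by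
  have hlog : IntegrableOn (fun ξ => (π / 2 + |Real.log 4|) + |Real.log ξ|) (Ioo 0 Λ) := by
    have h3 : IntervalIntegrable Real.log volume 0 Λ :=
      intervalIntegral.intervalIntegrable_log'
    rw [intervalIntegrable_iff_integrableOn_Ioo_of_le h0.le] at h3
    exact (integrableOn_const (by simp)).add h3.abs
  have hcont : ContinuousOn VV (Ioo 0 Λ) := by
    intro x hx
    exact (VV_hasDerivAt x hx.1 (by linarith [hx.2])).continuousAt.continuousWithinAt
  refine Integrable.mono' hlog (hcont.aestronglyMeasurable measurableSet_Ioo) ?_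
  filter_upwards [ae_restrict_mem measurableSet_Ioo] with x hx
  rw [Real.norm_eq_abs, abs_le]
  have hx2 : x < 2 * π := by linarith [hx.2]
  have h4 := VV_le x hx.1 hx2.le
  have h5 := VV_ge x hx.1 hx2
  rw [Real.log_div hx.1.ne' (by norm_num)] at h5
  have h6 := neg_abs_le (Real.log x)
  have h7 := abs_nonneg (Real.log x)
  have h8 := le_abs_self (Real.log 4)
  have h9 := abs_nonneg (Real.log 4)
  have hp := Real.pi_pos
  constructor
  · linarith
  · linarith

/-- near `0` `VV ξ = log tan (ξ/4)`; limit of the difference for a differentiable `y` -/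
lemma VV_limit (y : ℝ → ℝ) (d : ℝ) (hy : HasDerivAt y d 0) (hd : 0 < d) (h0 : y 0 = 0) :
    Filter.Tendsto (fun ξ => VV (y ξ) - VV ξ) (nhdsWithin 0 (Ioi 0)) (nhds (Real.log d)) := by
  have hp := Real.pi_pos
  have htan : HasDerivAt (fun x : ℝ => Real.tan (x / 4)) (1 / 4) 0 := by
    have h2 := (Real.hasDerivAt_tan (x := (0:ℝ) / 4) (by simp)).comp (0:ℝ)
      ((hasDerivAt_id (0:ℝ)).div_const 4)
    refine HasDerivAt.congr_deriv (f := fun x : ℝ => Real.tan (x / 4)) h2 ?_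
    simp
  have htan2 : HasDerivAt (fun x : ℝ => Real.tan (y x / 4)) (1 / 4 * d) 0 := by
    have h2 : HasDerivAt (fun x : ℝ => Real.tan (x / 4)) (1 / 4) (y 0) := by rw [h0]; exact htan
    exact h2.comp (0:ℝ) hy
  have hs1 := htan.tendsto_slope_zero_right
  have hs2 := htan2.tendsto_slope_zero_right
  simp only [zero_add, zero_div, Real.tan_zero, sub_zero, h0, smul_eq_mul] at hs1 hs2
  have hratio := hs2.div hs1 (by norm_num)
  have hd' : 1 / 4 * d / (1 / 4) = d := by ring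
  rw [hd'] at hratio
  have hlog := (Real.continuousAt_log hd.ne').tendsto.comp hratio
  have hys : Filter.Tendsto (fun x => y x / x) (nhdsWithin 0 (Ioi 0)) (nhds d) := by
    have := hy.tendsto_slope_zero_right
    simp only [zero_add, h0, sub_zero, smul_eq_mul] at this
    refine this.congr fun x => ?_
    rw [inv_mul_eq_div]
  have hypos : ∀ᶠ x in nhdsWithin (0:ℝ) (Ioi 0), 0 < y x := by
    filter_upwards [hys.eventually (lt_mem_nhds hd), self_mem_nhdsWithin] with x hx hx0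
    have hx0' : 0 < x := hx0
    have := mul_pos hx hx0'
    rwa [div_mul_cancel₀ _ hx0'.ne'] at this
  have hycont : Filter.Tendsto y (nhdsWithin 0 (Ioi 0)) (nhds 0) := by
    have := hy.continuousAt.tendsto
    rw [h0] at this
    exact this.mono_left nhdsWithin_le_nhds
  have hylt : ∀ᶠ x in nhdsWithin (0:ℝ) (Ioi 0), y x < π := hycont.eventually (gt_mem_nhds hp)
  have hxlt : ∀ᶠ x in nhdsWithin (0:ℝ) (Ioi 0), x < π :=
    (Filter.tendsto_id.mono_left (nhdsWithin_le_nhds (a := (0:ℝ)) (s := Ioi 0))).eventually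
      (gt_mem_nhds hp)
  refine hlog.congr' ?_
  filter_upwards [hypos, hylt, hxlt, self_mem_nhdsWithin] with x h1 h2 h3 h4
  have h4' : 0 < x := h4
  have ht1 := PhLem_tan_pos h1 h2.le
  have ht2 := PhLem_tan_pos h4' h3.le
  show Real.log (x⁻¹ * Real.tan (y x / 4) / (x⁻¹ * Real.tan (x / 4))) = VV (y x) - VV x
  unfold VV
  rw [if_pos h2.le, if_pos h3.le, ← Real.log_div ht1.ne' ht2.ne']
  congr 1
  field_simp

end Pool.Agent.H45.DY
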