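import Pool.Agent.H45.DY.Basic

/-! JOB DY-03 (static).  The two normalisations: `V x = -W (x + l)`.

`V` is normalised with `2π - l` in place of `l`.  All integrals over one period: substitute
`x ↦ x + l` and split at the zeros; for `x ∈ (0, 2π-l)`: `x + l ∈ (l,2π)`,
`dst (2π-l) x = x = ds2 l (x+l)`, `ds2 (2π-l) x = 2π - l - x = dst l (x+l)`; for
`x ∈ (2π-l, 2π)`: `x + l - 2π ∈ (0,l)`, `dst (2π-l) x = 2π - x = l - (x+l-2π) = ds2 l (x+l-2π)`,
`ds2 (2π-l) x = x - (2π - l) = dst l (x+l-2π)`; `W` periodic. -/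

set_option autoImplicit false
open Real Set MeasureTheory

namespace Pool.Agent.H45.DY
open Pool.Agent.H45.FL Pool.Agent.H51.DG

lemma shift_Ma (W : ℝ → ℝ) (l : ℝ) (h : Nrm W l) (hc : Continuous W) :
    Ma (fun x => -W (x + l)) = Ma W := by
  unfold Ma
  have hp : Function.Periodic (fun x => |W x|) (2 * π) := fun x => by
    show |W (x + 2 * π)| = |W x|
    rw [h.per]
  have h1 : (∫ x in (0:ℝ)..(2 * π), |-W (x + l)|) = ∫ x in (0:ℝ)..(2 * π), |W (x + l)| :=
    intervalIntegral.integral_congr fun x _ => abs_neg _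
  rw [h1, intervalIntegral.integral_comp_add_right (fun x => |W x|) l, zero_add, add_comm (2 * π) l,
    hp.intervalIntegral_add_eq l 0, zero_add]

lemma shift_QQ (W : ℝ → ℝ) (l : ℝ) (h : Nrm W l) (hc : Continuous W) :
    QQ (fun x => -W (x + l)) (2 * π - l) = AA W l := by
  have h2π : (0:ℝ) < 2 * π := by positivity
  have hW0 : W (2 * π) = 0 := by
    have e1 : W (0 + 2 * π) = W 0 := h.per 0
    rw [zero_add] at e1
    have e2 := h.neg 0 ⟨le_rfl, h.l0.le⟩
    have e3 := h.pos (2 * π) ⟨h.l1.le, le_rfl⟩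
    linarith
  obtain ⟨P, hP⟩ : ∃ P : ℝ → ℝ, P = fun x => |W x| * vp (ds2 l (toIcoMod h2π 0 x)) := ⟨_, rfl⟩
  have hper : Function.Periodic P (2 * π) := fun x => by
    rw [hP]
    show |W (x + 2 * π)| * vp (ds2 l (toIcoMod h2π 0 (x + 2 * π))) = _
    rw [h.per, toIcoMod_add_right]
  have hself : ∀ y, 0 ≤ y → y < 2 * π → toIcoMod h2π 0 y = y := fun y h1 h2 =>
    (toIcoMod_eq_self h2π).2 ⟨h1, by rw [zero_add]; exact h2⟩
  unfold QQ AA
  have e1 : (∫ x in (0:ℝ)..(2 * π), |-W (x + l)| * vp (dst (2 * π - l) x)) =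
      ∫ x in (0:ℝ)..(2 * π), P (x + l) := by
    refine intervalIntegral.integral_congr fun x hx => ?_
    rw [uIcc_of_le h2π.le] at hx
    show |-W (x + l)| * vp (dst (2 * π - l) x) = P (x + l)
    rw [hP, abs_neg]
    show |W (x + l)| * vp (dst (2 * π - l) x) = |W (x + l)| * vp (ds2 l (toIcoMod h2π 0 (x + l)))
    have hl0 := h.l0
    have hl1 := h.l1
    have hx0 := hx.1
    have hx1 := hx.2
    have key : dst (2 * π - l) x = ds2 l (toIcoMod h2π 0 (x + l)) := by
      unfold dst ds2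
      by_cases hc1 : x < 2 * π - l
      · rw [if_pos hc1, hself (x + l) (by linarith) (by linarith), if_neg (by linarith)]
        ring
      · have e2 : x + l = (x + l - 2 * π) + 2 * π := by ring
        rw [if_neg hc1, e2, toIcoMod_add_right, hself (x + l - 2 * π) (by linarith) (by linarith)]
        by_cases hc2 : x + l - 2 * π < l
        · rw [if_pos hc2]; ring
        · rw [if_neg hc2]; linarith
    rw [key]
  have e3 : (∫ x in (0:ℝ)..(2 * π), |W x| * vp (ds2 l x)) = ∫ x in (0:ℝ)..(2 * π), P x := by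
    refine intervalIntegral.integral_congr fun x hx => ?_
    rw [uIcc_of_le h2π.le] at hx
    show |W x| * vp (ds2 l x) = P x
    rw [hP]
    show |W x| * vp (ds2 l x) = |W x| * vp (ds2 l (toIcoMod h2π 0 x))
    rcases hx.2.lt_or_eq with h3 | h3
    · rw [hself x hx.1 h3]
    · rw [h3, hW0, abs_zero, zero_mul, zero_mul]
  rw [e1, e3, intervalIntegral.integral_comp_add_right P l, zero_add, add_comm (2 * π) l,
    hper.intervalIntegral_add_eq l 0, zero_add]

lemma shift_mn (l : ℝ) : mn (2 * π - l) = mn l := by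
  unfold mn; rw [min_comm]; congr 1; ring

/-- `Wc` is the shift of `We` -/
lemma Wc_eq (w : ℝ × ℝ → ℝ) (X : ℝ → ℝ → ℝ) (e c t : ℝ) :
    Wc w X c t = fun x => -We w X e t (x + el X e c t) := by
  funext x
  unfold Wc We el
  congr 2
  congr 1
  ring

end Pool.Agent.H45.DY
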